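import Pool.Agent.H91R2.RFD.Defs

open FreeNonUnitalNonAssocAlgebra

namespace H91RFD

universe u v w

section
variable {F : Type u} [Field F] {A : Type v} [NonUnitalNonAssocRing A] [Module F A]
  [IsScalarTower F A A] [SMulCommClass F A A]

omit [IsScalarTower F A A] [SMulCommClass F A A] in
theorem idealSpan_isIdeal (X : Set A) : IsIdeal F (idealSpan F X) := by
  intro a ha b
  unfold idealSpan at ha ⊢
  rw [Submodule.mem_sInf] at ha
  constructor
  · rw [Submodule.mem_sInf]
    exact fun I hI => (hI.1 a (ha I hI) b).1
  · rw [Submodule.mem_sInf]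
    exact fun I hI => (hI.1 a (ha I hI) b).2

omit [IsScalarTower F A A] [SMulCommClass F A A] in
theorem subset_idealSpan (X : Set A) : X ⊆ (idealSpan F X : Set A) := by
  intro a ha
  unfold idealSpan
  rw [SetLike.mem_coe, Submodule.mem_sInf]
  exact fun I hI => hI.2 ha

omit [IsScalarTower F A A] [SMulCommClass F A A] in
theorem idealSpan_le {X : Set A} {I : Submodule F A} (hI : IsIdeal F I) (h : X ⊆ (I : Set A)) :
    idealSpan F X ≤ I :=
  sInf_le ⟨hI, h⟩

omit [IsScalarTower F A A] [SMulCommClass F A A] in
/-- kernels of homomorphisms are ideals -/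
theorem ker_isIdeal {C : Type w} [NonUnitalNonAssocRing C] [Module F C] (f : A →ₙₐ[F] C) :
    IsIdeal F (LinearMap.ker (f : A →ₗ[F] C)) := by
  intro a ha b
  rw [LinearMap.mem_ker] at ha
  have ha' : f a = 0 := ha
  constructor
  · rw [LinearMap.mem_ker]
    show f (a * b) = 0
    rw [map_mul, ha', zero_mul]
  · rw [LinearMap.mem_ker]
    show f (b * a) = 0
    rw [map_mul, ha', mul_zero]

omit [IsScalarTower F A A] [SMulCommClass F A A] in
/-- inverse images of ideals are ideals -/
theorem comap_isIdeal {C : Type w} [NonUnitalNonAssocRing C] [Module F C] (f : A →ₙₐ[F] C)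
    {I : Submodule F C} (hI : IsIdeal F I) : IsIdeal F (I.comap (f : A →ₗ[F] C)) := by
  intro a ha b
  rw [Submodule.mem_comap] at ha
  have ha' : f a ∈ I := ha
  constructor
  · rw [Submodule.mem_comap]
    show f (a * b) ∈ I
    rw [map_mul]
    exact (hI _ ha' _).1
  · rw [Submodule.mem_comap]
    show f (b * a) ∈ I
    rw [map_mul]
    exact (hI _ ha' _).2

omit [IsScalarTower F A A] [SMulCommClass F A A] in
theorem idealSpan_mono {X Y : Set A} (h : X ⊆ Y) : idealSpan F X ≤ idealSpan F Y :=
  idealSpan_le (idealSpan_isIdeal Y) (h.trans (subset_idealSpan Y))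

/-- composition of substitutions -/
theorem lift_lift {X : Type w} (w' : ℕ → Free F X) (v : X → A) (p : Poly F) :
    lift F v (lift F w' p) = lift F (fun i => lift F v (w' i)) p := by
  have h : (lift F v).comp (lift F w') = lift F (fun i => lift F v (w' i)) := by
    apply FreeNonUnitalNonAssocAlgebra.hom_ext F
    intro i
    simp [lift_of_apply]
  exact DFunLike.congr_fun h p

end

theorem lift_of_self {F : Type u} [Field F] (p : Poly F) :
    lift F (fun i => FreeNonUnitalNonAssocAlgebra.of F i : ℕ → Poly F) p = p := by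
  have h : lift F (fun i => FreeNonUnitalNonAssocAlgebra.of F i : ℕ → Poly F) =
      NonUnitalAlgHom.id F (Poly F) := by
    apply FreeNonUnitalNonAssocAlgebra.hom_ext F
    intro i
    simp [lift_of_apply]
  rw [h]
  rfl

/-- the T-ideal generated by `S` is a T-ideal -/
theorem tspan_isTIdeal (F : Type u) [Field F] (S : Set (Poly F)) :
    IsTIdeal F (tspan F S : Set (Poly F)) := by
  refine ⟨tspan F S, rfl, idealSpan_isIdeal _, ?_⟩
  intro v
  have h1 : tspan F S ≤ (tspan F S).comap ((lift F v : Poly F →ₙₐ[F] Poly F) : Poly F →ₗ[F] Poly F) := by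
    refine idealSpan_le (comap_isIdeal _ (idealSpan_isIdeal _)) ?_
    rintro q ⟨p, hp, w', rfl⟩
    refine subset_idealSpan _ ⟨p, hp, fun i => lift F v (w' i), ?_⟩
    exact lift_lift w' v p
  exact fun p hp => h1 hp

theorem subset_tspan (F : Type u) [Field F] (S : Set (Poly F)) :
    S ⊆ (tspan F S : Set (Poly F)) := by
  intro p hp
  exact subset_idealSpan _ ⟨p, hp, fun i => FreeNonUnitalNonAssocAlgebra.of F i,
    (lift_of_self p).symm⟩

/-- minimality of the T-ideal generated by `S` -/
theorem tspan_le (F : Type u) [Field F] (S : Set (Poly F)) (I : Submodule F (Poly F))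
    (hI : IsIdeal F I) (hsub : ∀ (v : ℕ → Poly F), ∀ p ∈ I, lift F v p ∈ I)
    (hS : S ⊆ (I : Set (Poly F))) : tspan F S ≤ I := by
  refine idealSpan_le hI ?_
  rintro q ⟨p, hp, v, rfl⟩
  exact hsub v p (hS hp)

/-- the ideals of consequences agree -/
theorem idealSpan_verbal_tspan (F : Type u) [Field F] (S : Set (Poly F)) {X : Type v}
    (R : Set (Free F X)) :
    idealSpan F (R ∪ verbal F (tspan F S : Set (Poly F)) X) =
      idealSpan F (R ∪ verbal F S X) := by
  refine le_antisymm (idealSpan_le (idealSpan_isIdeal _) ?_) (idealSpan_mono ?_)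
  · rintro q (hq | ⟨p, hp, v, rfl⟩)
    · exact subset_idealSpan _ (Or.inl hq)
    · set K := idealSpan F (R ∪ verbal F S X) with hK
      have hKI : IsIdeal F K := idealSpan_isIdeal _
      let J : Submodule F (Poly F) :=
        ⨅ v : ℕ → Free F X, K.comap ((lift F v : Poly F →ₙₐ[F] Free F X) : Poly F →ₗ[F] Free F X)
      have hJ : ∀ r : Poly F, r ∈ J ↔ ∀ v : ℕ → Free F X, lift F v r ∈ K := by
        intro r
        rw [Submodule.mem_iInf]
        rfl
      have hle : tspan F S ≤ J := by
        refine tspan_le F S J ?_ ?_ ?_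
        · intro a ha b
          rw [hJ] at ha
          constructor
          · rw [hJ]
            intro v
            rw [map_mul]
            exact (hKI _ (ha v) _).1
          · rw [hJ]
            intro v
            rw [map_mul]
            exact (hKI _ (ha v) _).2
        · intro w' r hr
          rw [hJ] at hr ⊢
          intro v
          rw [lift_lift]
          exact hr _
        · intro r hr
          rw [SetLike.mem_coe, hJ]
          intro v
          exact subset_idealSpan _ (Or.inr ⟨r, hr, v, rfl⟩)
      exact (hJ p).1 (hle hp) v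
  · rintro q (hq | ⟨p, hp, v, rfl⟩)
    · exact Or.inl hq
    · exact Or.inr ⟨p, subset_tspan F S hp, v, rfl⟩

theorem finPres_tspan (F : Type u) [Field F] (S : Set (Poly F)) (A : Type v)
    [NonUnitalNonAssocRing A] [Module F A] [IsScalarTower F A A] [SMulCommClass F A A] :
    FinPres F (tspan F S : Set (Poly F)) A ↔ FinPres F S A := by
  unfold FinPres
  simp only [idealSpan_verbal_tspan]

/-- passing from `S` to the T-ideal generated by `S` does not change the variety -/
theorem rfdVariety_tspan (F : Type u) [Field F] (S : Set (Poly F)) :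
    RFDVariety F (tspan F S : Set (Poly F)) ↔ RFDVariety F S := by
  unfold RFDVariety
  constructor
  · intro h A _ _ _ _ hA
    exact h A ((finPres_tspan F S A).2 hA)
  · intro h A _ _ _ _ hA
    exact h A ((finPres_tspan F S A).1 hA)

end H91RFD
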