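import Pool.Agent.H91R2.RFD.Defs

open FreeNonUnitalNonAssocAlgebra

namespace H91RFD

universe u v w

section quot

variable {F : Type u} [Field F] {B : Type v} [NonUnitalNonAssocRing B] [Module F B]
    [IsScalarTower F B B] [SMulCommClass F B B]

/-- Multiplication by a fixed element on the quotient. -/
noncomputable def quotMulLeft (I : Submodule F B) (hI : IsIdeal F I) (b : B) :
    (B ⧸ I) →ₗ[F] (B ⧸ I) :=
  I.liftQ ((I.mkQ).comp (LinearMap.mulLeft F b)) (by
    intro x hx
    rw [LinearMap.mem_ker, LinearMap.comp_apply, LinearMap.mulLeft_apply, Submodule.mkQ_apply,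
      Submodule.Quotient.mk_eq_zero]
    exact (hI x hx b).2)

theorem quotMulLeft_mk (I : Submodule F B) (hI : IsIdeal F I) (b x : B) :
    quotMulLeft I hI b (I.mkQ x) = I.mkQ (b * x) := by
  unfold quotMulLeft
  rw [Submodule.mkQ_apply, Submodule.liftQ_apply]
  rfl

/-- The multiplication of the quotient as a bilinear map. -/
noncomputable def quotMul (I : Submodule F B) (hI : IsIdeal F I) :
    (B ⧸ I) →ₗ[F] (B ⧸ I) →ₗ[F] (B ⧸ I) :=
  I.liftQ
    { toFun := fun b => quotMulLeft I hI b
      map_add' := by
        intro b c
        apply Submodule.linearMap_qext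
        ext x
        rw [LinearMap.comp_apply, LinearMap.comp_apply, LinearMap.add_apply, quotMulLeft_mk,
          quotMulLeft_mk, quotMulLeft_mk, add_mul, map_add]
      map_smul' := by
        intro r b
        apply Submodule.linearMap_qext
        ext x
        rw [LinearMap.comp_apply, LinearMap.comp_apply, LinearMap.smul_apply, quotMulLeft_mk,
          quotMulLeft_mk, smul_mul_assoc, map_smul]
        rfl }
    (by
      intro b hb
      rw [LinearMap.mem_ker]
      apply Submodule.linearMap_qext
      ext x
      rw [LinearMap.comp_apply, LinearMap.comp_apply, LinearMap.zero_apply]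
      change quotMulLeft I hI b (I.mkQ x) = 0
      rw [quotMulLeft_mk, Submodule.mkQ_apply, Submodule.Quotient.mk_eq_zero]
      exact (hI b hb x).1)

theorem quotMul_mk (I : Submodule F B) (hI : IsIdeal F I) (b x : B) :
    quotMul I hI (I.mkQ b) (I.mkQ x) = I.mkQ (b * x) := by
  unfold quotMul
  rw [Submodule.mkQ_apply I b, Submodule.liftQ_apply]
  exact quotMulLeft_mk I hI b x

/-- The ring structure of the quotient. -/
@[reducible] noncomputable def quotRing (I : Submodule F B) (hI : IsIdeal F I) :
    NonUnitalNonAssocRing (B ⧸ I) :=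
  { (inferInstance : AddCommGroup (B ⧸ I)) with
    mul := fun a b => quotMul I hI a b
    left_distrib := fun a b c => map_add (quotMul I hI a) b c
    right_distrib := fun a b c => by
      change quotMul I hI (a + b) c = quotMul I hI a c + quotMul I hI b c
      rw [map_add, LinearMap.add_apply]
    zero_mul := fun a => by
      change quotMul I hI 0 a = 0
      rw [map_zero, LinearMap.zero_apply]
    mul_zero := fun a => map_zero (quotMul I hI a) }

end quot

/-- Task A: quotient of an algebra by an ideal. -/
theorem exists_quotient {F : Type u} [Field F] {B : Type v} [NonUnitalNonAssocRing B] [Module F B]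
    [IsScalarTower F B B] [SMulCommClass F B B] (I : Submodule F B) (hI : IsIdeal F I) :
    ∃ (A : Type v) (_ : NonUnitalNonAssocRing A) (_ : Module F A) (_ : IsScalarTower F A A)
      (_ : SMulCommClass F A A) (π : B →ₙₐ[F] A), Function.Surjective π ∧
        ∀ b, π b = 0 ↔ b ∈ I := by
  letI R : NonUnitalNonAssocRing (B ⧸ I) := quotRing I hI
  letI Mo : Module F (B ⧸ I) := Submodule.Quotient.module I
  have hmul : ∀ a b : B ⧸ I, a * b = quotMul I hI a b := fun a b => rfl
  refine ⟨B ⧸ I, R, Mo, ⟨?_⟩, ⟨?_⟩, ?_⟩
  · intro c a b
    rw [smul_eq_mul, smul_eq_mul, hmul, hmul]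
    have h := (quotMul I hI).map_smul c a
    exact (congrArg (fun f => f b) h)
  · intro c a b
    rw [smul_eq_mul, smul_eq_mul, hmul, hmul]
    exact ((quotMul I hI a).map_smul c b).symm
  · refine ⟨{ toFun := fun b => I.mkQ b
              map_smul' := fun c b => I.mkQ.map_smul c b
              map_zero' := I.mkQ.map_zero
              map_add' := fun a b => I.mkQ.map_add a b
              map_mul' := fun a b => (quotMul_mk I hI a b).symm }, ?_, ?_⟩
    · exact Submodule.mkQ_surjective I
    · intro b
      exact Submodule.Quotient.mk_eq_zero I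

end H91RFD
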