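import Pool.Agent.H91R2.RFD.Basic
import Pool.Agent.H91R2.RFD.Quot

open FreeNonUnitalNonAssocAlgebra

namespace H91RFD

universe u v w

section B2aux

variable {F : Type u} [Field F]

/-- homomorphisms commute with substitutions -/
theorem B2_hom_lift {X : Type w} {B : Type v} [NonUnitalNonAssocRing B] [Module F B]
    [IsScalarTower F B B] [SMulCommClass F B B] {C : Type*} [NonUnitalNonAssocRing C] [Module F C]
    [IsScalarTower F C C] [SMulCommClass F C C] (f : B →ₙₐ[F] C) (v : X → B)
    (p : FreeNonUnitalNonAssocAlgebra F X) :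
    f (lift F v p) = lift F (fun i => f (v i)) p := by
  have h : f.comp (lift F v) = lift F (fun i => f (v i)) := by
    apply hom_ext
    intro x
    simp
  rw [← h]
  rfl

/-- the relators and the values of the identities go to zero -/
theorem B2_le_ker {S : Set (Poly F)} {n : ℕ} {R : Set (Free F (Fin n))}
    {C : Type w} [NonUnitalNonAssocRing C] [Module F C] [IsScalarTower F C C] [SMulCommClass F C C]
    (hC : InVar F C S) (c : Fin n → C) (hR : ∀ r ∈ R, lift F c r = 0) (q : Free F (Fin n))
    (hq : q ∈ idealSpan F (R ∪ verbal F S (Fin n))) : lift F c q = 0 := by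
  have h := idealSpan_le (F := F) (X := R ∪ verbal F S (Fin n)) (ker_isIdeal (lift F c)) (by
    intro r hr
    rcases hr with hr | ⟨p, hp, v, rfl⟩
    · exact hR r hr
    · have h1 := B2_hom_lift (lift F c) v p
      have h2 := hC p hp (fun i => lift F c (v i))
      exact h1.trans h2)
  exact h hq

end B2aux

/-- Task B2, part 1: criterion for separating an element of a finitely presented algebra. -/
theorem separate_of_hom {F : Type u} [Field F] {S : Set (Poly F)} {A : Type v}
    [NonUnitalNonAssocRing A] [Module F A] [IsScalarTower F A A] [SMulCommClass F A A]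
    {n : ℕ} {R : Set (Free F (Fin n))} {s : Fin n → A}
    (hsurj : Function.Surjective (lift F s))
    (hker : ∀ q, lift F s q = 0 ↔ q ∈ idealSpan F (R ∪ verbal F S (Fin n)))
    {C : Type w} [NonUnitalNonAssocRing C] [Module F C] [IsScalarTower F C C] [SMulCommClass F C C]
    (hC : InVar F C S) (c : Fin n → C) (hR : ∀ r ∈ R, lift F c r = 0)
    (E : Submodule F C) (hE : FiniteDimensional F E) (hEc : ∀ q, lift F c q ∈ E)
    (q : Free F (Fin n)) (hq : lift F c q ≠ 0) :
    ∃ I : Submodule F A, IsIdeal F I ∧ FiniteDimensional F (A ⧸ I) ∧ lift F s q ∉ I := by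
  set f : Free F (Fin n) →ₗ[F] A :=
    ((lift F s : Free F (Fin n) →ₙₐ[F] A) : Free F (Fin n) →ₗ[F] A) with hf
  set g : Free F (Fin n) →ₗ[F] C :=
    ((lift F c : Free F (Fin n) →ₙₐ[F] C) : Free F (Fin n) →ₗ[F] C) with hg
  have hfa : ∀ x, f x = lift F s x := fun _ => rfl
  have hga : ∀ x, g x = lift F c x := fun _ => rfl
  have hK : IsIdeal F (LinearMap.ker g) := ker_isIdeal (lift F c)
  have hfg : ∀ x, f x = 0 → g x = 0 := fun x hx => B2_le_ker hC c hR x ((hker x).1 hx)
  refine ⟨(LinearMap.ker g).map f, ?_, ?_, ?_⟩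
  · rintro a ⟨k, hk, rfl⟩ b
    obtain ⟨b', rfl⟩ := hsurj b
    refine ⟨⟨k * b', (hK k hk b').1, ?_⟩, ⟨b' * k, (hK k hk b').2, ?_⟩⟩
    · exact map_mul (lift F s) k b'
    · exact map_mul (lift F s) b' k
  · have hgE : LinearMap.range g ≤ E := by
      rintro x ⟨y, rfl⟩
      exact hEc y
    have : FiniteDimensional F (LinearMap.range g) := Submodule.finiteDimensional_of_le hgE
    have : FiniteDimensional F (Free F (Fin n) ⧸ LinearMap.ker g) :=
      Module.Finite.equiv g.quotKerEquivRange.symm
    have hle : LinearMap.ker g ≤ ((LinearMap.ker g).map f).comap f :=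
      Submodule.le_comap_map f _
    refine Module.Finite.of_surjective ((LinearMap.ker g).mapQ ((LinearMap.ker g).map f) f hle) ?_
    intro x
    obtain ⟨a, rfl⟩ := Submodule.mkQ_surjective _ x
    obtain ⟨y, rfl⟩ := hsurj a
    exact ⟨(LinearMap.ker g).mkQ y, rfl⟩
  · rintro ⟨k, hk, hkq⟩
    have h1 : f (k - q) = 0 := by
      rw [map_sub, hkq, hfa, sub_self]
    have h2 := hfg _ h1
    rw [map_sub] at h2
    have h3 : g k = 0 := hk
    rw [h3, zero_sub, neg_eq_zero] at h2
    exact hq h2

/-- Task B2, part 2: criterion for a variety not to be an RFD variety. -/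
theorem not_rfdVariety {F : Type u} [Field F] {S : Set (Poly F)} {n : ℕ}
    {R : Set (Free F (Fin n))} (hRfin : R.Finite) (q : Free F (Fin n))
    {C : Type w} [NonUnitalNonAssocRing C] [Module F C] [IsScalarTower F C C] [SMulCommClass F C C]
    (hC : InVar F C S) (c : Fin n → C) (hR : ∀ r ∈ R, lift F c r = 0) (hq : lift F c q ≠ 0)
    (hfd : ∀ (A : Type u) [NonUnitalNonAssocRing A] [Module F A] [IsScalarTower F A A]
      [SMulCommClass F A A], InVar F A S → ∀ s : Fin n → A, (∀ r ∈ R, lift F s r = 0) →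
      ∀ I : Submodule F A, IsIdeal F I → FiniteDimensional F (A ⧸ I) → lift F s q ∈ I) :
    ¬ RFDVariety F S := by
  intro H
  obtain ⟨A, iR, iM, iT, iC, π, hπ, hπk⟩ := exists_quotient
    (idealSpan F (R ∪ verbal F S (Fin n))) (idealSpan_isIdeal (F := F) (R ∪ verbal F S (Fin n)))
  have hls : lift F (fun i => π (of F i)) = π := by
    apply hom_ext
    intro x
    simp
  have hsub := subset_idealSpan (F := F) (R ∪ verbal F S (Fin n))
  have hfp : FinPres F S A := by
    refine ⟨n, R, fun i => π (of F i), hRfin, ?_, ?_⟩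
    · rw [hls]
      exact hπ
    · intro x
      rw [hls]
      exact hπk x
  have hin : InVar F A S := by
    intro p hp v
    choose v' hv' using fun i => hπ (v i)
    have h1 := B2_hom_lift π v' p
    have h2 : (fun i => π (v' i)) = v := funext hv'
    rw [h2] at h1
    rw [← h1]
    exact (hπk _).2 (hsub (Or.inr ⟨p, hp, v', rfl⟩))
  have hne : π q ≠ 0 := fun h0 => hq (B2_le_ker hC c hR q ((hπk q).1 h0))
  obtain ⟨I, hI, hIf, hIq⟩ := H A hfp (π q) hne
  refine hIq ?_
  have h3 := hfd A hin (fun i => π (of F i)) (by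
    intro r hr
    rw [hls]
    exact (hπk r).2 (hsub (Or.inl hr))) I hI hIf
  rwa [hls] at h3

end H91RFD
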