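import Pool.Agent.H91R2.RFD.SatLemmas

open FreeNonUnitalNonAssocAlgebra

namespace H91RFD

universe u v w

namespace BinfAux

variable (F : Type u) [Field F] (ℓ : ℕ → Bool) (n : ℕ)

/-- the underlying space of the algebra -/
def Alg (_ℓ : ℕ → Bool) (_n : ℕ) : Type u := (F × F) × ((ℕ → F) × (ℕ → F)) × ((ℕ → F) × F)

instance : AddCommGroup (Alg F ℓ n) :=
  inferInstanceAs (AddCommGroup ((F × F) × ((ℕ → F) × (ℕ → F)) × ((ℕ → F) × F)))

instance : Module F (Alg F ℓ n) :=
  inferInstanceAs (Module F ((F × F) × ((ℕ → F) × (ℕ → F)) × ((ℕ → F) × F)))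

variable {F ℓ n}

/-- the element with given components -/
def elt (a b : F) (z m1 m2 : ℕ → F) (d : F) : Alg F ℓ n := ((a, b), (z, m1), (m2, d))

/-- the `x`-component -/
def px : Alg F ℓ n →ₗ[F] F :=
  (LinearMap.fst F F F).comp (LinearMap.fst F (F × F) (((ℕ → F) × (ℕ → F)) × ((ℕ → F) × F)))

/-- the `y`-component -/
def py : Alg F ℓ n →ₗ[F] F :=
  (LinearMap.snd F F F).comp (LinearMap.fst F (F × F) (((ℕ → F) × (ℕ → F)) × ((ℕ → F) × F)))

/-- the `z`-component -/
def pz : Alg F ℓ n →ₗ[F] (ℕ → F) :=
  (LinearMap.fst F (ℕ → F) (ℕ → F)).comp ((LinearMap.fst F ((ℕ → F) × (ℕ → F)) ((ℕ → F) × F)).comp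
    (LinearMap.snd F (F × F) (((ℕ → F) × (ℕ → F)) × ((ℕ → F) × F))))

/-- the first `M`-component -/
def p1 : Alg F ℓ n →ₗ[F] (ℕ → F) :=
  (LinearMap.snd F (ℕ → F) (ℕ → F)).comp ((LinearMap.fst F ((ℕ → F) × (ℕ → F)) ((ℕ → F) × F)).comp
    (LinearMap.snd F (F × F) (((ℕ → F) × (ℕ → F)) × ((ℕ → F) × F))))

/-- the second `M`-component -/
def p2 : Alg F ℓ n →ₗ[F] (ℕ → F) :=
  (LinearMap.fst F (ℕ → F) F).comp ((LinearMap.snd F ((ℕ → F) × (ℕ → F)) ((ℕ → F) × F)).comp
    (LinearMap.snd F (F × F) (((ℕ → F) × (ℕ → F)) × ((ℕ → F) × F))))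

/-- the last component -/
def pd : Alg F ℓ n →ₗ[F] F :=
  (LinearMap.snd F (ℕ → F) F).comp ((LinearMap.snd F ((ℕ → F) × (ℕ → F)) ((ℕ → F) × F)).comp
    (LinearMap.snd F (F × F) (((ℕ → F) × (ℕ → F)) × ((ℕ → F) × F))))

@[simp] theorem px_elt (a b : F) (z m1 m2 : ℕ → F) (d : F) :
    px (elt a b z m1 m2 d : Alg F ℓ n) = a := rfl
@[simp] theorem py_elt (a b : F) (z m1 m2 : ℕ → F) (d : F) :
    py (elt a b z m1 m2 d : Alg F ℓ n) = b := rfl
@[simp] theorem pz_elt (a b : F) (z m1 m2 : ℕ → F) (d : F) :
    pz (elt a b z m1 m2 d : Alg F ℓ n) = z := rfl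
@[simp] theorem p1_elt (a b : F) (z m1 m2 : ℕ → F) (d : F) :
    p1 (elt a b z m1 m2 d : Alg F ℓ n) = m1 := rfl
@[simp] theorem p2_elt (a b : F) (z m1 m2 : ℕ → F) (d : F) :
    p2 (elt a b z m1 m2 d : Alg F ℓ n) = m2 := rfl
@[simp] theorem pd_elt (a b : F) (z m1 m2 : ℕ → F) (d : F) :
    pd (elt a b z m1 m2 d : Alg F ℓ n) = d := rfl

theorem alg_ext {a b : Alg F ℓ n} (h1 : px a = px b) (h2 : py a = py b) (h3 : pz a = pz b)
    (h4 : p1 a = p1 b) (h5 : p2 a = p2 b) (h6 : pd a = pd b) : a = b :=
  Prod.ext (Prod.ext h1 h2) (Prod.ext (Prod.ext h3 h4) (Prod.ext h5 h6))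

/-- the second component of a product -/
def mu2 (a b : Alg F ℓ n) : ℕ → F
  | 0 => 0
  | j + 1 => pz b j * (if j = 0 then p1 a 0 else p2 a j)

instance : Mul (Alg F ℓ n) :=
  ⟨fun a b => elt 0 0 0
    (fun l => py a * py b + (if ℓ l = true then px b * p1 a (l + 1) else px a * p1 b (l + 1)))
    (mu2 a b) (p1 a 0 * p2 b (n + 1))⟩

@[simp] theorem px_mul (a b : Alg F ℓ n) : px (a * b) = 0 := rfl
@[simp] theorem py_mul (a b : Alg F ℓ n) : py (a * b) = 0 := rfl
@[simp] theorem pz_mul (a b : Alg F ℓ n) : pz (a * b) = 0 := rfl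
@[simp] theorem p1_mul (a b : Alg F ℓ n) (l : ℕ) : p1 (a * b) l =
    py a * py b + (if ℓ l = true then px b * p1 a (l + 1) else px a * p1 b (l + 1)) := rfl
@[simp] theorem p2_mul_zero (a b : Alg F ℓ n) : p2 (a * b) 0 = 0 := rfl
@[simp] theorem p2_mul_succ (a b : Alg F ℓ n) (j : ℕ) : p2 (a * b) (j + 1) =
    pz b j * (if j = 0 then p1 a 0 else p2 a j) := rfl
@[simp] theorem pd_mul (a b : Alg F ℓ n) : pd (a * b) = p1 a 0 * p2 b (n + 1) := rfl

instance : NonUnitalNonAssocRing (Alg F ℓ n) :=
  { (inferInstance : AddCommGroup (Alg F ℓ n)), (inferInstance : Mul (Alg F ℓ n)) with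
    left_distrib := by
      intro a b c
      apply alg_ext
      · simp
      · simp
      · simp
      · funext l
        simp only [map_add, Pi.add_apply, p1_mul]
        split_ifs <;> ring
      · funext l
        cases l with
        | zero => simp only [map_add, Pi.add_apply, p2_mul_zero, add_zero]
        | succ j =>
          simp only [map_add, Pi.add_apply, p2_mul_succ]
          split_ifs <;> ring
      · simp only [map_add, Pi.add_apply, pd_mul]
        ring
    right_distrib := by
      intro a b c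
      apply alg_ext
      · simp
      · simp
      · simp
      · funext l
        simp only [map_add, Pi.add_apply, p1_mul]
        split_ifs <;> ring
      · funext l
        cases l with
        | zero => simp only [map_add, Pi.add_apply, p2_mul_zero, add_zero]
        | succ j =>
          simp only [map_add, Pi.add_apply, p2_mul_succ]
          split_ifs <;> ring
      · simp only [map_add, Pi.add_apply, pd_mul]
        ring
    zero_mul := by
      intro a
      apply alg_ext
      · simp
      · simp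
      · simp
      · funext l
        simp
      · funext l
        cases l with
        | zero => simp
        | succ j => simp
      · simp
    mul_zero := by
      intro a
      apply alg_ext
      · simp
      · simp
      · simp
      · funext l
        simp
      · funext l
        cases l with
        | zero => simp
        | succ j => simp
      · simp }

instance : IsScalarTower F (Alg F ℓ n) (Alg F ℓ n) := ⟨by
  intro c a b
  simp only [smul_eq_mul]
  apply alg_ext
  · simp
  · simp
  · simp
  · funext l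
    simp only [map_smul, Pi.smul_apply, p1_mul, smul_eq_mul]
    split_ifs <;> ring
  · funext l
    cases l with
    | zero => simp
    | succ j =>
      simp only [map_smul, Pi.smul_apply, p2_mul_succ, smul_eq_mul]
      split_ifs <;> ring
  · simp only [map_smul, Pi.smul_apply, pd_mul, smul_eq_mul]
    ring⟩

instance : SMulCommClass F (Alg F ℓ n) (Alg F ℓ n) := ⟨by
  intro c a b
  simp only [smul_eq_mul]
  apply alg_ext
  · simp
  · simp
  · simp
  · funext l
    simp only [map_smul, Pi.smul_apply, p1_mul, smul_eq_mul]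
    split_ifs <;> ring
  · funext l
    cases l with
    | zero => simp
    | succ j =>
      simp only [map_smul, Pi.smul_apply, p2_mul_succ, smul_eq_mul]
      split_ifs <;> ring
  · simp only [map_smul, Pi.smul_apply, pd_mul, smul_eq_mul]
    ring⟩

theorem mul_eq_zero' (a b : Alg F ℓ n) (h1 : py a * py b = 0) (h2 : px a = 0) (h3 : px b = 0)
    (h4 : pz b = 0) (h5 : p1 a 0 * p2 b (n + 1) = 0) : a * b = 0 := by
  apply alg_ext
  · simp
  · simp
  · simp
  · funext l
    simp [h1, h2, h3]
  · funext l
    cases l with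
    | zero => simp
    | succ j => simp [h4]
  · simp only [pd_mul, h5, map_zero]

/-- the recursion for right normed products -/
theorem p2_foldr (e : Alg F ℓ n) (k : ℕ) (f : Fin (k + 1) → Alg F ℓ n) :
    p2 ((List.ofFn f).foldr (fun v m => m * v) e) (k + 1) =
      (∏ i : Fin (k + 1), pz (f i) (k - i)) * p1 e 0 := by
  induction k with
  | zero =>
    simp
  | succ k ih =>
    rw [List.ofFn_succ, List.foldr_cons, p2_mul_succ, if_neg (Nat.succ_ne_zero k),
      Fin.prod_univ_succ (fun i : Fin (k + 1 + 1) => pz (f i) (k + 1 - i)), ih, mul_assoc]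
    have hs : ∀ i : Fin (k + 1), k + 1 - ((i.succ : Fin (k + 1 + 1)) : ℕ) = k - (i : ℕ) := by
      intro i
      simp only [Fin.val_succ]
      omega
    simp only [hs, Fin.val_zero, Nat.sub_zero]

theorem foldr_zero (e : Alg F ℓ n) (k : ℕ) (f : Fin (k + 1) → Alg F ℓ n) :
    px ((List.ofFn f).foldr (fun v m => m * v) e) = 0 ∧
    py ((List.ofFn f).foldr (fun v m => m * v) e) = 0 ∧
    pz ((List.ofFn f).foldr (fun v m => m * v) e) = 0 := by
  rw [List.ofFn_succ, List.foldr_cons]
  exact ⟨rfl, rfl, rfl⟩

theorem alt_zero (k : ℕ) (w₁ w₂ : Alg F ℓ n) (z : ℕ → Alg F ℓ n) :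
    px (Altval k w₁ w₂ z) = 0 ∧ py (Altval k w₁ w₂ z) = 0 ∧ pz (Altval k w₁ w₂ z) = 0 := by
  unfold Altval
  refine ⟨?_, ?_, ?_⟩
  · rw [map_sum]
    refine Finset.sum_eq_zero fun σ _ => ?_
    rw [Units.smul_def, map_zsmul, (foldr_zero _ _ _).1, smul_zero]
  · rw [map_sum]
    refine Finset.sum_eq_zero fun σ _ => ?_
    rw [Units.smul_def, map_zsmul, (foldr_zero _ _ _).2.1, smul_zero]
  · rw [map_sum]
    refine Finset.sum_eq_zero fun σ _ => ?_
    rw [Units.smul_def, map_zsmul, (foldr_zero _ _ _).2.2, smul_zero]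

theorem U_facts (u₁ u₂ : Alg F ℓ n) (x : ℕ → Alg F ℓ n) (t : List Bool) :
    px (Uval u₁ u₂ x t) = 0 ∧ py (Uval u₁ u₂ x t) = 0 ∧
      ∀ j, ℓ (t.length + j) = false → p1 (Uval u₁ u₂ x t) j = 0 := by
  induction t with
  | nil =>
    refine ⟨rfl, rfl, ?_⟩
    intro j hj
    simp only [List.length_nil, Nat.zero_add] at hj
    simp [Uval, hj]
  | cons b t ih =>
    obtain ⟨h1, h2, h3⟩ := ih
    cases b with
    | true =>
      simp only [Uval, if_true]
      refine ⟨rfl, rfl, ?_⟩
      intro j hj
      have := h3 (j + 1) (by rw [← hj]; simp only [List.length_cons]; congr 1; ring)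
      simp [h1, h2, this]
    | false =>
      simp only [Uval, Bool.false_eq_true, if_false]
      refine ⟨rfl, rfl, ?_⟩
      intro j hj
      have := h3 (j + 1) (by rw [← hj]; simp only [List.length_cons]; congr 1; ring)
      simp [h1, h2, this]

end BinfAux

open BinfAux in
/-- Task D.  The infinite-dimensional algebra attached to a sequence `ℓ` of letters (`true` =
right, `false` = left) without two consecutive `false`. -/
theorem exists_Binf (F : Type u) [Field F] (Z : ℕ → Set ℕ) (ℓ : ℕ → Bool)
    (hℓ : ∀ j, ℓ j = true ∨ ℓ (j + 1) = true) (hZ : ∀ n, ∀ i ∈ Z n, ℓ i = false) (n : ℕ) :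
    ∃ (C : Type u) (_ : NonUnitalNonAssocRing C) (_ : Module F C) (_ : IsScalarTower F C C)
      (_ : SMulCommClass F C C), InVar F C (Sys F Z) ∧
      ∃ (x y : C) (z : ℕ → C), y * y = (y * y) * x + x * ((y * y) * x) ∧
        (y * y) * Altval n y y z ≠ 0 := by
  refine ⟨Alg F ℓ n, inferInstance, inferInstance, inferInstance, inferInstance, ?_, ?_⟩
  · rw [inVar_Sys]
    refine ⟨?_, ?_, ?_⟩
    · intro x y z t v
      apply alg_ext
      · simp
      · simp
      · simp
      · funext l
        simp
      · funext l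
        cases l with
        | zero => simp
        | succ j =>
          cases j with
          | zero => simp
          | succ j => simp
      · simp
    · intro x y z t v
      apply alg_ext
      · simp
      · simp
      · simp
      · funext l
        simp
      · funext l
        cases l with
        | zero => simp
        | succ j => simp
      · simp
    · intro k t ht u₁ u₂ w₁ w₂ x z
      obtain ⟨h1, h2, h3⟩ := U_facts u₁ u₂ x t
      obtain ⟨g1, g2, g3⟩ := alt_zero k w₁ w₂ z
      refine mul_eq_zero' _ _ (by rw [h2, zero_mul]) h1 g1 g3 ?_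
      rw [h3 0 (by simpa using hZ k _ ht), zero_mul]
  · refine ⟨elt 1 0 0 0 0 0, elt 0 1 0 0 0 0, fun j => elt 0 0 (Pi.single (n - j) 1) 0 0 0, ?_, ?_⟩
    · apply alg_ext
      · simp
      · simp
      · simp
      · funext l
        simp only [map_add, Pi.add_apply, p1_mul, py_elt, px_elt, p1_elt, px_mul, py_mul]
        rcases Bool.eq_false_or_eq_true (ℓ l) with h | h
        · simp [h]
        · have h' := (hℓ l).resolve_left (by simp [h])
          simp [h, h']
      · funext l
        cases l with
        | zero => simp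
        | succ j => simp
      · simp
    · intro h0
      have h1 := congrArg pd h0
      rw [pd_mul, map_zero] at h1
      have h2 : p1 ((elt 0 1 0 0 0 0 : Alg F ℓ n) * elt 0 1 0 0 0 0) 0 = 1 := by simp
      rw [h2, one_mul] at h1
      have h3 : p2 (Altval n (elt 0 1 0 0 0 0 : Alg F ℓ n) (elt 0 1 0 0 0 0)
          (fun j => elt 0 0 (Pi.single (n - j) 1) 0 0 0)) (n + 1) = 1 := by
        unfold Altval
        rw [map_sum, Finset.sum_apply, Finset.sum_eq_single (1 : Equiv.Perm (Fin (n + 1)))]
        · rw [Equiv.Perm.sign_one, one_smul, p2_foldr, h2, mul_one]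
          refine Finset.prod_eq_one fun i _ => ?_
          simp
        · intro σ _ hσ
          rw [Units.smul_def, map_zsmul, Pi.smul_apply, p2_foldr, h2, mul_one]
          have : ∃ i, σ i ≠ i := by
            by_contra hc
            push Not at hc
            exact hσ (Equiv.ext hc)
          obtain ⟨i, hi⟩ := this
          rw [Finset.prod_eq_zero (Finset.mem_univ i), smul_zero]
          simp only [pz_elt]
          rw [Pi.single_eq_of_ne]
          intro h
          apply hi
          have h4 := (σ i).is_lt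
          have h5 := i.is_lt
          apply Fin.ext
          omega
        · intro h; exact absurd (Finset.mem_univ _) h
      rw [h3] at h1
      exact one_ne_zero h1

end H91RFD
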