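import Pool.Agent.H91R2.RFD.Defs

open FreeNonUnitalNonAssocAlgebra

namespace H91RFD

universe u v w

section coding

variable {X : Type v}

open Classical in
/-- the current candidate -/
noncomputable def cdg (U : ℕ → ℕ → Set X) (x : X) : ℕ → ℕ
  | 0 => 0
  | s + 1 => if ∀ k ≤ s, x ∈ U (cdg U x s) k then cdg U x s else cdg U x s + 1

/-- the candidate changes at stage `s` -/
def cda (U : ℕ → ℕ → Set X) (x : X) (s : ℕ) : Prop := ¬ ∀ k ≤ s, x ∈ U (cdg U x s) k

theorem cdg_succ_of (U : ℕ → ℕ → Set X) (x : X) (s : ℕ) (h : cda U x s) :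
    cdg U x (s + 1) = cdg U x s + 1 := by
  rw [cdg, if_neg h]

theorem cdg_succ_of_not (U : ℕ → ℕ → Set X) (x : X) (s : ℕ) (h : ¬ cda U x s) :
    cdg U x (s + 1) = cdg U x s := by
  rw [cdg, if_pos (not_not.1 h)]

theorem cdg_mono (U : ℕ → ℕ → Set X) (x : X) : Monotone (cdg U x) :=
  monotone_nat_of_le_succ fun s => by
    by_cases h : cda U x s
    · rw [cdg_succ_of U x s h]; omega
    · rw [cdg_succ_of_not U x s h]

theorem cda_finite (U : ℕ → ℕ → Set X) (x : X) (h : ∃ m, ∀ k, x ∈ U m k) :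
    ∃ s0, ∀ s, s0 ≤ s → ¬ cda U x s := by
  obtain ⟨m, hm⟩ := h
  by_contra hc
  push Not at hc
  have hb : ∀ s, cdg U x s ≤ m := by
    intro s
    induction s with
    | zero => exact Nat.zero_le _
    | succ s ih =>
      by_cases h : cda U x s
      · rw [cdg_succ_of U x s h]
        rcases ih.lt_or_eq with h1 | h1
        · omega
        · exfalso
          apply h
          intro k _
          rw [h1]
          exact hm k
      · rw [cdg_succ_of_not U x s h]; exact ih
  have hu : ∀ j, ∃ s, j ≤ cdg U x s := by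
    intro j
    induction j with
    | zero => exact ⟨0, Nat.zero_le _⟩
    | succ j ih =>
      obtain ⟨s, hs⟩ := ih
      obtain ⟨s', h1, h2⟩ := hc s
      refine ⟨s' + 1, ?_⟩
      rw [cdg_succ_of U x s' h2]
      have := cdg_mono U x h1
      omega
  obtain ⟨s, hs⟩ := hu (m + 1)
  have := hb s
  omega

theorem cda_infinite (U : ℕ → ℕ → Set X) (x : X) (h : ¬ ∃ m, ∀ k, x ∈ U m k) (d : ℕ) :
    ∃ s, d ≤ s ∧ cda U x s := by
  by_contra hc
  push Not at hc
  apply h
  have hconst : ∀ s, d ≤ s → cdg U x s = cdg U x d := by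
    intro s hs
    induction s, hs using Nat.le_induction with
    | base => rfl
    | succ s hs ih => rw [cdg_succ_of_not U x s (hc s hs), ih]
  refine ⟨cdg U x d, fun k => ?_⟩
  have h1 := hc (max d k) (le_max_left _ _)
  have h2 := not_not.1 h1 k (le_max_right _ _)
  rwa [hconst _ (le_max_left _ _)] at h2

theorem isClopen_all [TopologicalSpace X] {U : ℕ → Set X} (hU : ∀ k, IsClopen (U k)) (s : ℕ) :
    IsClopen {x | ∀ k ≤ s, x ∈ U k} := by
  have h : {x | ∀ k ≤ s, x ∈ U k} = ⋂ k ∈ Finset.range (s + 1), U k := by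
    ext x
    simp
  rw [h]
  exact isClopen_biInter_finset fun k _ => hU k

theorem cdg_clopen [TopologicalSpace X] (U : ℕ → ℕ → Set X) (hU : ∀ m k, IsClopen (U m k)) :
    ∀ s v, IsClopen {x | cdg U x s = v} := by
  intro s
  induction s with
  | zero =>
    intro v
    by_cases hv : 0 = v
    · have : {x : X | cdg U x 0 = v} = Set.univ := by ext x; simp [cdg, hv]
      rw [this]; exact isClopen_univ
    · have : {x : X | cdg U x 0 = v} = ∅ := by ext x; simp [cdg, hv]
      rw [this]; exact isClopen_empty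
  | succ s ih =>
    intro v
    have h : {x | cdg U x (s + 1) = v} =
        ({x | cdg U x s = v} ∩ {x | ∀ k ≤ s, x ∈ U v k}) ∪
        ({x | cdg U x s + 1 = v} ∩ {x | ∀ k ≤ s, x ∈ U (v - 1) k}ᶜ) := by
      ext x
      simp only [Set.mem_union, Set.mem_inter_iff, Set.mem_ofPred_eq, Set.mem_compl_iff]
      by_cases hx : ∀ k ≤ s, x ∈ U (cdg U x s) k
      · have h1 : cdg U x (s + 1) = cdg U x s := cdg_succ_of_not U x s (not_not.2 hx)
        rw [h1]
        constructor
        · intro h2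
          left
          refine ⟨h2, ?_⟩
          rw [h2] at hx
          exact hx
        · rintro (h2 | h2)
          · exact h2.1
          · exfalso
            apply h2.2
            have h3 : v - 1 = cdg U x s := by omega
            rw [h3]
            exact hx
      · have h1 : cdg U x (s + 1) = cdg U x s + 1 := cdg_succ_of U x s hx
        rw [h1]
        constructor
        · intro h2
          right
          refine ⟨h2, ?_⟩
          have h3 : v - 1 = cdg U x s := by omega
          rw [h3]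
          exact hx
        · rintro (h2 | h2)
          · exfalso
            apply hx
            rw [h2.1]
            exact h2.2
          · exact h2.1
    rw [h]
    have h0 : IsClopen {x | cdg U x s + 1 = v} := by
      rcases v with _ | v
      · have : {x : X | cdg U x s + 1 = 0} = ∅ := by ext x; simp
        rw [this]; exact isClopen_empty
      · have : {x : X | cdg U x s + 1 = v + 1} = {x | cdg U x s = v} := by ext x; simp
        rw [this]; exact ih v
    exact ((ih v).inter (isClopen_all (hU v) s)).union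
      (h0.inter (isClopen_all (hU (v - 1)) s).compl)

theorem cda_clopen [TopologicalSpace X] (U : ℕ → ℕ → Set X) (hU : ∀ m k, IsClopen (U m k))
    (s : ℕ) : IsClopen {x | cda U x s} := by
  have h1 : {x | cda U x s} = ⋃ v, ({x | cdg U x s = v} ∩ {x | ∀ k ≤ s, x ∈ U v k}ᶜ) := by
    ext x
    simp only [Set.mem_iUnion, Set.mem_inter_iff, Set.mem_ofPred_eq, Set.mem_compl_iff]
    constructor
    · intro h; exact ⟨_, rfl, h⟩
    · rintro ⟨v, rfl, h⟩; exact h
  have h2 : {x | cda U x s}ᶜ = ⋃ v, ({x | cdg U x s = v} ∩ {x | ∀ k ≤ s, x ∈ U v k}) := by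
    ext x
    simp only [Set.mem_iUnion, Set.mem_inter_iff, Set.mem_ofPred_eq, Set.mem_compl_iff]
    constructor
    · intro h; exact ⟨_, rfl, not_not.1 h⟩
    · rintro ⟨v, rfl, h⟩; exact not_not.2 h
  constructor
  · rw [← isOpen_compl_iff, h2]
    exact isOpen_iUnion fun v => ((cdg_clopen U hU s v).inter (isClopen_all (hU v) s)).isOpen
  · rw [h1]
    exact isOpen_iUnion fun v =>
      ((cdg_clopen U hU s v).inter (isClopen_all (hU v) s).compl).isOpen

/-- the first element of a block -/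
def cdc (p : ℕ) : ℕ := 2 * (p + 1) ^ 2

/-- the blocks -/
def cdB (p : ℕ) : Set ℕ :=
  {i | ∃ l ≤ p, i = cdc p + 2 * l ∨ i = cdc p + 2 * p + 3 + 2 * l}

theorem cdc_succ (p : ℕ) : cdc (p + 1) = cdc p + 4 * p + 6 := by unfold cdc; ring

theorem cdc_mono : Monotone cdc := monotone_nat_of_le_succ fun p => by rw [cdc_succ]; omega

theorem le_cdc (p : ℕ) : p ≤ cdc p := by unfold cdc; nlinarith

theorem cdB_bounds {p i : ℕ} (h : i ∈ cdB p) : cdc p ≤ i ∧ i ≤ cdc p + 4 * p + 3 := by
  obtain ⟨l, hl, h | h⟩ := h <;> omega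

theorem cdB_next {p q i : ℕ} (h : i ∈ cdB p) (h' : i + 1 ∈ cdB q) : False := by
  have h1 := cdB_bounds h
  have h2 := cdB_bounds h'
  rcases lt_trichotomy p q with hpq | rfl | hpq
  · have h3 : cdc (p + 1) ≤ cdc q := cdc_mono hpq
    rw [cdc_succ] at h3
    omega
  · obtain ⟨l, hl, h⟩ := h
    obtain ⟨l', hl', h'⟩ := h'
    omega
  · have h3 : cdc (q + 1) ≤ cdc p := cdc_mono hpq
    rw [cdc_succ] at h3
    omega

end coding

open Classical in
/-- Task J: coding (only combinatorics and elementary topology). -/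
theorem exists_coding {X : Type v} [TopologicalSpace X] (U : ℕ → ℕ → ℕ → Set X)
    (hU : ∀ n m k, IsClopen (U n m k)) :
    ∃ (Z : X → ℕ → Set ℕ) (ℓ : ℕ → Bool), (∀ j, ℓ j = true ∨ ℓ (j + 1) = true) ∧
      (∀ x n, ∀ i ∈ Z x n, ℓ i = false) ∧ (∀ n i, IsClopen {x | i ∈ Z x n}) ∧
      (∀ x n, (∃ m, ∀ k, x ∈ U n m k) → (Z x n).Finite) ∧
      (∀ x n, ¬ (∃ m, ∀ k, x ∈ U n m k) → ∀ d : ℕ, ∃ c c' : ℕ, Even c ∧ Odd c' ∧
        ∀ l ≤ d, c + 2 * l ∈ Z x n ∧ c' + 2 * l ∈ Z x n) := by
  refine ⟨fun x n => {i | ∃ s, cda (U n) x s ∧ i ∈ cdB (Nat.pair n s)},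
    fun i => decide (¬ ∃ p, i ∈ cdB p), ?_, ?_, ?_, ?_, ?_⟩
  · intro j
    by_contra hc
    rw [not_or] at hc
    have h1 : ∃ p, j ∈ cdB p := by
      by_contra h
      exact hc.1 (decide_eq_true h)
    have h2 : ∃ p, j + 1 ∈ cdB p := by
      by_contra h
      exact hc.2 (decide_eq_true h)
    obtain ⟨p, hp⟩ := h1
    obtain ⟨q, hq⟩ := h2
    exact cdB_next hp hq
  · rintro x n i ⟨s, _, hi⟩
    simp only [decide_eq_false_iff_not, not_not]
    exact ⟨_, hi⟩
  · intro n i
    have h : {x | i ∈ {i | ∃ s, cda (U n) x s ∧ i ∈ cdB (Nat.pair n s)}} =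
        ⋃ s ∈ Finset.range (i + 1), {x | cda (U n) x s ∧ i ∈ cdB (Nat.pair n s)} := by
      ext x
      simp only [Set.mem_ofPred_eq, Finset.mem_range, Set.mem_iUnion, exists_prop]
      constructor
      · rintro ⟨s, h1, h2⟩
        refine ⟨s, ?_, h1, h2⟩
        have h3 := (cdB_bounds h2).1
        have h4 := le_cdc (Nat.pair n s)
        have h5 := Nat.right_le_pair n s
        omega
      · rintro ⟨s, _, h1, h2⟩
        exact ⟨s, h1, h2⟩
    rw [h]
    refine isClopen_biUnion_finset fun s _ => ?_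
    by_cases hi : i ∈ cdB (Nat.pair n s)
    · have : {x | cda (U n) x s ∧ i ∈ cdB (Nat.pair n s)} = {x | cda (U n) x s} := by
        ext x; simp [hi]
      rw [this]
      exact cda_clopen (U n) (hU n) s
    · have : {x | cda (U n) x s ∧ i ∈ cdB (Nat.pair n s)} = ∅ := by
        ext x; simp [hi]
      rw [this]
      exact isClopen_empty
  · intro x n h
    obtain ⟨s0, hs0⟩ := cda_finite (U n) x h
    have hfin : ∀ p, (cdB p).Finite := fun p =>
      (Set.finite_Iic (cdc p + 4 * p + 3)).subset fun i hi => (cdB_bounds hi).2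
    refine ((Set.finite_Iio s0).biUnion (fun s _ => hfin (Nat.pair n s))).subset ?_
    rintro i ⟨s, h1, h2⟩
    rw [Set.mem_iUnion₂]
    refine ⟨s, ?_, h2⟩
    by_contra h3
    exact hs0 s (not_lt.1 h3) h1
  · intro x n h d
    obtain ⟨s, hs, hs'⟩ := cda_infinite (U n) x h d
    have hp : d ≤ Nat.pair n s := hs.trans (Nat.right_le_pair n s)
    refine ⟨cdc (Nat.pair n s), cdc (Nat.pair n s) + 2 * Nat.pair n s + 3, ?_, ?_, ?_⟩
    · exact ⟨(Nat.pair n s + 1) ^ 2, by unfold cdc; ring⟩
    · exact ⟨(Nat.pair n s + 1) ^ 2 + Nat.pair n s + 1, by unfold cdc; ring⟩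
    · intro l hl
      exact ⟨⟨s, hs', l, hl.trans hp, Or.inl rfl⟩, ⟨s, hs', l, hl.trans hp, Or.inr rfl⟩⟩

end H91RFD
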