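import Pool.Agent.H91R2.RFD.SatLemmas

open FreeNonUnitalNonAssocAlgebra

namespace H91RFD

universe u v w

namespace CollapseAux

section
variable {A : Type v} [NonUnitalNonAssocRing A]

theorem Uval_congr (u₁ u₂ : A) (x x' : ℕ → A) (t : List Bool)
    (h : ∀ j ≤ t.length, x j = x' j) : Uval u₁ u₂ x t = Uval u₁ u₂ x' t := by
  induction t with
  | nil => simp only [Uval]; rw [h 0 (Nat.le_refl _)]
  | cons b t ih =>
    have h1 := ih fun j hj => h j (hj.trans (by simp))
    have h2 := h (t.length + 1) (by simp)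
    simp only [Uval]
    rw [h1, h2]

/-- the words of length `i` -/
def U (i : ℕ) : Set A := {g | ∃ (u₁ u₂ : A) (x : ℕ → A) (t : List Bool), t.length = i ∧
  g = Uval u₁ u₂ x t}

theorem U_mul_right {i : ℕ} {g : A} (hg : g ∈ U i) (a : A) : g * a ∈ (U (i + 1) : Set A) := by
  obtain ⟨u₁, u₂, x, t, ht, rfl⟩ := hg
  refine ⟨u₁, u₂, Function.update x (i + 1) a, true :: t, by simp [ht], ?_⟩
  simp only [Uval, ht, if_true, Function.update_self]
  rw [Uval_congr u₁ u₂ x (Function.update x (i + 1) a) t]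
  intro j hj
  rw [Function.update_of_ne (by omega)]

theorem U_mul_left {i : ℕ} {g : A} (hg : g ∈ U i) (a : A) : a * g ∈ (U (i + 1) : Set A) := by
  obtain ⟨u₁, u₂, x, t, ht, rfl⟩ := hg
  refine ⟨u₁, u₂, Function.update x (i + 1) a, false :: t, by simp [ht], ?_⟩
  simp only [Uval, ht, Bool.false_eq_true, if_false, Function.update_self]
  rw [Uval_congr u₁ u₂ x (Function.update x (i + 1) a) t]
  intro j hj
  rw [Function.update_of_ne (by omega)]

theorem U_succ {i : ℕ} {g : A} (hg : g ∈ (U (i + 1) : Set A)) :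
    ∃ g' ∈ (U i : Set A), ∃ a, g = g' * a ∨ g = a * g' := by
  obtain ⟨u₁, u₂, x, t, ht, rfl⟩ := hg
  cases t with
  | nil => simp at ht
  | cons b t =>
    refine ⟨Uval u₁ u₂ x t, ⟨u₁, u₂, x, t, by simpa using ht, rfl⟩, x (t.length + 1), ?_⟩
    cases b with
    | true => left; simp only [Uval, if_true]
    | false => right; simp only [Uval, Bool.false_eq_true, if_false]

end

section
variable {F : Type u} [Field F] {A : Type v} [NonUnitalNonAssocRing A] [Module F A]
    [IsScalarTower F A A] [SMulCommClass F A A]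

/-- the sum of `I` and the spans of the words of lengths `c, c + 2, …, c + 2 l` -/
def Y (I : Submodule F A) (c l : ℕ) : Submodule F A :=
  Submodule.span F ((I : Set A) ∪ {g | ∃ l' ≤ l, g ∈ (U (c + 2 * l') : Set A)})

theorem Y_mul (I : Submodule F A) (hI : IsIdeal F I) (c l : ℕ) {v : A} (hv : v ∈ Y I c l) (a : A) :
    v * a ∈ Y I (c + 1) l ∧ a * v ∈ Y I (c + 1) l := by
  unfold Y at hv
  induction hv using Submodule.span_induction with
  | mem v hv =>
    rcases hv with hv | ⟨l', hl', hv⟩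
    · exact ⟨Submodule.subset_span (Or.inl (hI v hv a).1),
        Submodule.subset_span (Or.inl (hI v hv a).2)⟩
    · have e : c + 1 + 2 * l' = c + 2 * l' + 1 := by ring
      exact ⟨Submodule.subset_span (Or.inr ⟨l', hl', e ▸ U_mul_right hv a⟩),
        Submodule.subset_span (Or.inr ⟨l', hl', e ▸ U_mul_left hv a⟩)⟩
  | zero => simp
  | add v w _ _ h1 h2 =>
    rw [add_mul, mul_add]
    exact ⟨add_mem h1.1 h2.1, add_mem h1.2 h2.2⟩
  | smul r v _ h =>
    rw [smul_mul_assoc, mul_smul_comm]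
    exact ⟨Submodule.smul_mem _ _ h.1, Submodule.smul_mem _ _ h.2⟩

theorem Y_shift (I : Submodule F A) (c l : ℕ) : Y I (c + 1 + 1) l ≤ Y I c (l + 1) := by
  unfold Y
  refine Submodule.span_mono ?_
  rintro g (hg | ⟨l', hl', hg⟩)
  · exact Or.inl hg
  · refine Or.inr ⟨l' + 1, by omega, ?_⟩
    have e : c + 1 + 1 + 2 * l' = c + 2 * (l' + 1) := by ring
    rw [← e]; exact hg

theorem Y_mono (I : Submodule F A) (c l : ℕ) : Y I c l ≤ Y I c (l + 1) := by
  unfold Y
  refine Submodule.span_mono ?_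
  rintro g (hg | ⟨l', hl', hg⟩)
  · exact Or.inl hg
  · exact Or.inr ⟨l', by omega, hg⟩

theorem I_le_Y (I : Submodule F A) (c l : ℕ) : I ≤ Y I c l := fun _ hv =>
  Submodule.subset_span (Or.inl hv)

omit [IsScalarTower F A A] [SMulCommClass F A A] in
theorem stab (I : Submodule F A) (hfin : FiniteDimensional F (A ⧸ I)) (Y : ℕ → Submodule F A)
    (hmono : ∀ l, Y l ≤ Y (l + 1)) (hI : ∀ l, I ≤ Y l) :
    ∃ l ≤ Module.finrank F (A ⧸ I), Y (l + 1) = Y l := by
  by_contra hc
  push Not at hc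
  have hlt : ∀ l ≤ Module.finrank F (A ⧸ I),
      Submodule.map I.mkQ (Y l) < Submodule.map I.mkQ (Y (l + 1)) := by
    intro l hl
    refine lt_of_le_of_ne (Submodule.map_mono (hmono l)) fun h => ?_
    have h1 := congrArg (Submodule.comap I.mkQ) h
    rw [Submodule.comap_map_mkQ, Submodule.comap_map_mkQ, sup_eq_right.2 (hI _),
      sup_eq_right.2 (hI _)] at h1
    exact hc l hl h1.symm
  have hrank : ∀ l ≤ Module.finrank F (A ⧸ I) + 1,
      l ≤ Module.finrank F (Submodule.map I.mkQ (Y l)) := by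
    intro l
    induction l with
    | zero => intro _; exact Nat.zero_le _
    | succ l ih =>
      intro hl
      have h1 := ih (by omega)
      have h2 := Submodule.finrank_lt_finrank_of_lt (hlt l (by omega))
      omega
  have h1 := hrank _ le_rfl
  have h2 := Submodule.finrank_le (Submodule.map I.mkQ (Y (Module.finrank F (A ⧸ I) + 1)))
  omega

theorem U_le (I : Submodule F A) (hI : IsIdeal F I) (hfin : FiniteDimensional F (A ⧸ I))
    (K : Submodule F A) (hIK : I ≤ K) (c : ℕ)
    (hK : ∀ l ≤ Module.finrank F (A ⧸ I), (U (c + 2 * l) : Set A) ⊆ K) (s : ℕ) :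
    (U (c + 2 * s) : Set A) ⊆ K := by
  obtain ⟨l, hl, hst⟩ := stab I hfin (Y I c) (Y_mono I c) (I_le_Y I c)
  have hYK : Y I c l ≤ K := by
    unfold Y
    rw [Submodule.span_le]
    rintro g (hg | ⟨l', hl', hg⟩)
    · exact hIK hg
    · exact hK l' (hl'.trans hl) hg
  have hUY : ∀ s, (U (c + 2 * s) : Set A) ⊆ Y I c l := by
    intro s
    induction s with
    | zero =>
      intro g hg
      exact Submodule.subset_span (Or.inr ⟨0, Nat.zero_le _, hg⟩)
    | succ s ih =>
      intro g hg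
      have e : c + 2 * (s + 1) = c + 2 * s + 1 + 1 := by ring
      rw [e] at hg
      obtain ⟨g1, hg1, a, ha⟩ := U_succ hg
      obtain ⟨g2, hg2, b, hb⟩ := U_succ hg1
      have m2 : g2 ∈ Y I c l := ih hg2
      have m1 : g1 ∈ Y I (c + 1) l := by
        rcases hb with rfl | rfl
        · exact (Y_mul I hI c l m2 b).1
        · exact (Y_mul I hI c l m2 b).2
      have m0 : g ∈ Y I (c + 1 + 1) l := by
        rcases ha with rfl | rfl
        · exact (Y_mul I hI (c + 1) l m1 a).1
        · exact (Y_mul I hI (c + 1) l m1 a).2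
      have := Y_shift I c l m0
      rw [hst] at this
      exact this
  exact fun g hg => hYK (hUY s hg)

/-- the span of the words of length at least `q` -/
def H (F : Type u) [Field F] (A : Type v) [NonUnitalNonAssocRing A] [Module F A] (q : ℕ) :
    Submodule F A := Submodule.span F {g | ∃ i, q ≤ i ∧ g ∈ (U i : Set A)}

theorem H_mul {q : ℕ} {v : A} (hv : v ∈ H F A q) (a : A) :
    v * a ∈ H F A (q + 1) ∧ a * v ∈ H F A (q + 1) := by
  unfold H at hv
  induction hv using Submodule.span_induction with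
  | mem v hv =>
    obtain ⟨i, hi, hv⟩ := hv
    exact ⟨Submodule.subset_span ⟨i + 1, by omega, U_mul_right hv a⟩,
      Submodule.subset_span ⟨i + 1, by omega, U_mul_left hv a⟩⟩
  | zero => simp
  | add v w _ _ h1 h2 =>
    rw [add_mul, mul_add]
    exact ⟨add_mem h1.1 h2.1, add_mem h1.2 h2.2⟩
  | smul r v _ h =>
    rw [smul_mul_assoc, mul_smul_comm]
    exact ⟨Submodule.smul_mem _ _ h.1, Submodule.smul_mem _ _ h.2⟩

omit [IsScalarTower F A A] [SMulCommClass F A A] in
theorem H_anti (q : ℕ) : H F A (q + 1) ≤ H F A q := by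
  unfold H
  refine Submodule.span_mono ?_
  rintro g ⟨i, hi, hg⟩
  exact ⟨i, by omega, hg⟩

end

end CollapseAux

open CollapseAux in
/-- Task C.  In the variety of `Sys F Z`, if `Z n` contains arbitrarily long progressions of step
two of both parities, then `(y y) · Alt_n(y, y; z)` lies in every ideal of finite codimension
whenever `y y = (y y) x + x ((y y) x)`. -/
theorem collapse {F : Type u} [Field F] {A : Type v} [NonUnitalNonAssocRing A] [Module F A]
    [IsScalarTower F A A] [SMulCommClass F A A] (Z : ℕ → Set ℕ) (hA : InVar F A (Sys F Z)) (n : ℕ)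
    (hZ : ∀ d : ℕ, ∃ c c' : ℕ, Even c ∧ Odd c' ∧
      ∀ l ≤ d, c + 2 * l ∈ Z n ∧ c' + 2 * l ∈ Z n)
    (x y : A) (z : ℕ → A) (hrel : y * y = (y * y) * x + x * ((y * y) * x))
    (I : Submodule F A) (hI : IsIdeal F I) (hfin : FiniteDimensional F (A ⧸ I)) :
    (y * y) * Altval n y y z ∈ I := by
  have hkill := ((inVar_Sys (F := F) (A := A) Z).1 hA).2.2
  set h := Altval n y y z with hh
  let K : Submodule F A := I.comap (LinearMap.mulRight F h)
  have hKmem : ∀ v, v ∈ K ↔ v * h ∈ I := fun v => Iff.rfl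
  have hIK : I ≤ K := fun v hv => (hKmem v).2 (hI v hv h).1
  have hUK : ∀ i ∈ Z n, (U i : Set A) ⊆ K := by
    rintro i hi g ⟨u₁, u₂, x, t, ht, rfl⟩
    refine (hKmem _).2 ?_
    rw [hkill n t (ht ▸ hi) u₁ u₂ y y x z]
    exact I.zero_mem
  obtain ⟨c, c', hc, hc', hcc⟩ := hZ (Module.finrank F (A ⧸ I))
  have h1 := U_le I hI hfin K hIK c (fun l hl => hUK _ (hcc l hl).1)
  have h2 := U_le I hI hfin K hIK c' (fun l hl => hUK _ (hcc l hl).2)
  have h3 : ∀ i, c ≤ i → c' ≤ i → (U i : Set A) ⊆ K := by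
    intro i hi hi'
    rcases Nat.even_or_odd i with he | ho
    · obtain ⟨s, hs⟩ : ∃ s, i = c + 2 * s := by
        obtain ⟨a, ha⟩ := he
        obtain ⟨b, hb⟩ := hc
        exact ⟨a - b, by omega⟩
      rw [hs]; exact h1 s
    · obtain ⟨s, hs⟩ : ∃ s, i = c' + 2 * s := by
        obtain ⟨a, ha⟩ := ho
        obtain ⟨b, hb⟩ := hc'
        exact ⟨a - b, by omega⟩
      rw [hs]; exact h2 s
  have hHK : H F A (c + c') ≤ K := by
    unfold H
    rw [Submodule.span_le]
    rintro g ⟨i, hi, hg⟩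
    exact h3 i (by omega) (by omega) hg
  have he : ∀ q, y * y ∈ H F A q := by
    intro q
    induction q with
    | zero =>
      have m0 : (y * y) * x ∈ (U 0 : Set A) := ⟨y, y, fun _ => x, [], rfl, by simp only [Uval]⟩
      rw [hrel]
      exact add_mem (Submodule.subset_span ⟨0, le_rfl, m0⟩)
        (Submodule.subset_span ⟨1, by omega, U_mul_left m0 x⟩)
    | succ q ih =>
      have m1 := (H_mul ih x).1
      have m2 := H_anti (F := F) (A := A) (q + 1) (H_mul m1 x).2
      rw [hrel]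
      exact add_mem m1 m2
  exact (hKmem _).1 (hHK (he _))

end H91RFD
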