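import Pool.Agent.H91R2.RFD.TruncDefs

open FreeNonUnitalNonAssocAlgebra

namespace H91RFD

universe u v w

theorem lowdeg_mono {F : Type u} [Field F] {Y : Type v} {d e : ℕ} (h : d ≤ e) :
    lowdeg F Y d ≤ lowdeg F Y e := by
  apply Submodule.span_mono
  rintro q ⟨w, hw, rfl⟩
  exact ⟨w, hw.trans h, rfl⟩

theorem highdeg_anti {F : Type u} [Field F] {Y : Type v} {d e : ℕ} (h : d ≤ e) :
    highdeg F Y e ≤ highdeg F Y d := by
  apply Submodule.span_mono
  rintro q ⟨w, hw, rfl⟩
  exact ⟨w, lt_of_le_of_lt h hw, rfl⟩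

/-- Task K2, part 1 -/
theorem exists_lowdeg {F : Type u} [Field F] {Y : Type v} (p : Free F Y) :
    ∃ d, p ∈ lowdeg F Y d := by
  induction p using MonoidAlgebra.induction_linear with
  | zero => exact ⟨0, Submodule.zero_mem _⟩
  | add p q hp hq =>
    obtain ⟨d, hd⟩ := hp
    obtain ⟨e, he⟩ := hq
    exact ⟨max d e, Submodule.add_mem _ (lowdeg_mono (le_max_left _ _) hd)
      (lowdeg_mono (le_max_right _ _) he)⟩
  | single w c =>
    refine ⟨w.length, ?_⟩
    have : (MonoidAlgebra.single w c : Free F Y) = c • MonoidAlgebra.ofMagma F _ w := by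
      simp [MonoidAlgebra.ofMagma, MonoidAlgebra.smul_single]
    rw [this]
    exact Submodule.smul_mem _ _ (Submodule.subset_span ⟨w, le_refl _, rfl⟩)

/-- Induction principle: a subspace of the free algebra containing the variables and closed
under multiplication is everything. -/
theorem free_mem {F : Type u} [Field F] {Y : Type v} (P : Submodule F (Free F Y))
    (h1 : ∀ y, FreeNonUnitalNonAssocAlgebra.of F y ∈ P) (h2 : ∀ p ∈ P, ∀ q ∈ P, p * q ∈ P)
    (p : Free F Y) : p ∈ P := by
  have hw : ∀ w : FreeMagma Y, MonoidAlgebra.ofMagma F _ w ∈ P := by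
    intro w
    induction w using FreeMagma.recOnMul with
    | ih1 x => exact h1 x
    | ih2 x y hx hy =>
      rw [map_mul]
      exact h2 _ hx _ hy
  obtain ⟨d, hd⟩ := exists_lowdeg p
  have : lowdeg F Y d ≤ P := by
    unfold lowdeg
    rw [Submodule.span_le]
    rintro q ⟨w, _, rfl⟩
    exact hw w
  exact this hd

theorem highdeg_mul {F : Type u} [Field F] {Y : Type v} {a b : ℕ} {p q : Free F Y}
    (hp : p ∈ highdeg F Y a) (hq : q ∈ highdeg F Y b) : p * q ∈ highdeg F Y (a + b + 1) := by
  unfold highdeg at hp hq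
  induction hp using Submodule.span_induction with
  | mem p hp =>
    obtain ⟨w, hw, rfl⟩ := hp
    induction hq using Submodule.span_induction with
    | mem q hq =>
      obtain ⟨w', hw', rfl⟩ := hq
      rw [← map_mul]
      apply Submodule.subset_span
      refine ⟨w * w', ?_, rfl⟩
      have : (w * w').length = w.length + w'.length := rfl
      omega
    | zero => rw [mul_zero]; exact Submodule.zero_mem _
    | add x y _ _ hx hy => rw [mul_add]; exact Submodule.add_mem _ hx hy
    | smul c x _ hx => rw [mul_smul_comm]; exact Submodule.smul_mem _ _ hx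
  | zero => rw [zero_mul]; exact Submodule.zero_mem _
  | add x y _ _ hx hy => rw [add_mul]; exact Submodule.add_mem _ hx hy
  | smul c x _ hx => rw [smul_mul_assoc]; exact Submodule.smul_mem _ _ hx

theorem X_highdeg (F : Type u) [Field F] (j : ℕ) : X F j ∈ highdeg F ℕ 0 := by
  apply Submodule.subset_span
  exact ⟨FreeMagma.of j, Nat.one_pos, rfl⟩

theorem Uval_highdeg {F : Type u} [Field F] (u₁ u₂ : Poly F) (x : ℕ → Poly F) (t : List Bool)
    (h1 : u₁ ∈ highdeg F ℕ 0) (h2 : u₂ ∈ highdeg F ℕ 0) (hx : ∀ j, x j ∈ highdeg F ℕ 0) :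
    Uval u₁ u₂ x t ∈ highdeg F ℕ (t.length + 2) := by
  induction t with
  | nil =>
    have := highdeg_mul (highdeg_mul h1 h2) (hx 0)
    simpa [Uval] using this
  | cons b t ih =>
    cases b
    · have := highdeg_mul (hx (t.length + 1)) ih
      simp only [Uval, List.length_cons]
      refine highdeg_anti ?_ this
      omega
    · have := highdeg_mul ih (hx (t.length + 1))
      simp only [Uval, List.length_cons]
      refine highdeg_anti ?_ this
      omega

theorem foldr_highdeg {F : Type u} [Field F] (a : Poly F) (l : List (Poly F)) {d : ℕ}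
    (ha : a ∈ highdeg F ℕ d) (hl : ∀ v ∈ l, v ∈ highdeg F ℕ 0) :
    l.foldr (fun v m => m * v) a ∈ highdeg F ℕ (d + l.length) := by
  induction l with
  | nil => simpa using ha
  | cons v l ih =>
    have h1 := ih fun v' hv' => hl v' (List.mem_cons_of_mem _ hv')
    have := highdeg_mul h1 (hl v List.mem_cons_self)
    simp only [List.foldr_cons, List.length_cons]
    refine highdeg_anti ?_ this
    omega

/-- Task K2, part 2 -/
theorem pnt_highdeg (F : Type u) [Field F] (n : ℕ) (t : List Bool) :
    pnt F n t ∈ highdeg F ℕ (n + t.length) := by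
  have h1 := Uval_highdeg (X F 0) (X F 1) (fun j => X F (4 + 2 * j)) t (X_highdeg F _)
    (X_highdeg F _) (fun j => X_highdeg F _)
  have h2 : Altval n (X F 2) (X F 3) (fun j => X F (5 + 2 * j)) ∈ highdeg F ℕ (n + 1) := by
    unfold Altval
    apply Submodule.sum_mem
    intro σ _
    rw [Units.smul_def]
    apply zsmul_mem
    have := foldr_highdeg (X F 2 * X F 3)
      (List.ofFn fun i : Fin (n + 1) => X F (5 + 2 * ((σ i : Fin (n + 1)) : ℕ)))
      (highdeg_mul (X_highdeg F 2) (X_highdeg F 3)) ?_
    · refine highdeg_anti ?_ this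
      rw [List.length_ofFn]
      omega
    · intro v hv
      rw [List.mem_ofFn] at hv
      obtain ⟨i, rfl⟩ := hv
      exact X_highdeg F _
  have h3 := highdeg_mul h1 h2
  unfold pnt
  refine highdeg_anti ?_ h3
  omega

end H91RFD
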