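import Pool.Agent.H91R2.RFD.DegTrunc
import Pool.Agent.H91R2.RFD.PntDeg

open FreeNonUnitalNonAssocAlgebra

namespace H91RFD

universe u v w

theorem idealSpan_mono' {F : Type u} [Field F] {A : Type v} [NonUnitalNonAssocRing A] [Module F A]
    {X Y : Set A} (h : X ⊆ Y) : idealSpan F X ≤ idealSpan F Y := by
  unfold idealSpan
  apply sInf_le_sInf
  rintro I ⟨h1, h2⟩
  exact ⟨h1, h.trans h2⟩

theorem tspan_mono {F : Type u} [Field F] {S S' : Set (Poly F)} (h : S ⊆ S') :
    tspan F S ≤ tspan F S' := by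
  apply idealSpan_mono'
  rintro q ⟨p, hp, v, rfl⟩
  exact ⟨p, h hp, v, rfl⟩

/-- Task K3: membership in the T-ideal of `Sys F (Z x)` is a clopen condition on `x`. -/
theorem isClopen_tspan {F : Type u} [Field F] [Infinite F] {X : Type v} [TopologicalSpace X]
    (Z : X → ℕ → Set ℕ) (hZ : ∀ n i, IsClopen {x | i ∈ Z x n}) (p : Poly F) :
    IsClopen {x | p ∈ tspan F (Sys F (Z x))} := by
  classical
  obtain ⟨d, hd⟩ := exists_lowdeg p
  let cut : (Fin d → Fin d → Bool) → ℕ → Set ℕ := fun g n =>
    {i | ∃ (hn : n < d) (hi : i < d), g ⟨n, hn⟩ ⟨i, hi⟩ = true}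
  let G : X → (Fin d → Fin d → Bool) := fun x n i => decide ((i : ℕ) ∈ Z x n)
  have hG : Continuous G := by
    refine continuous_pi fun n => continuous_pi fun i => ?_
    rw [continuous_discrete_rng]
    intro b
    cases b
    · have : (fun x => G x n i) ⁻¹' {false} = {x | (i : ℕ) ∈ Z x n}ᶜ := by
        ext x; simp [G]
      rw [this]; exact (hZ n i).compl.isOpen
    · have : (fun x => G x n i) ⁻¹' {true} = {x | (i : ℕ) ∈ Z x n} := by
        ext x; simp [G]
      rw [this]; exact (hZ n i).isOpen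
  have hset : {x | p ∈ tspan F (Sys F (Z x))} =
      G ⁻¹' {g | p ∈ tspan F (Sys F (cut g))} := by
    ext x
    simp only [Set.mem_setOf_eq, Set.mem_preimage]
    have hsub : Sys F (cut (G x)) ⊆ Sys F (Z x) := by
      rintro q (hq | ⟨n, t, ht, rfl⟩)
      · exact Or.inl hq
      · obtain ⟨hn, hi, h⟩ := ht
        exact Or.inr ⟨n, t, by simpa [G] using h, rfl⟩
    constructor
    · intro h
      refine tspan_lowdeg d hsub ?_ hd h
      rintro q (hq | ⟨n, t, ht, rfl⟩)
      · exact Or.inl (Or.inl hq)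
      · by_cases hn : n < d ∧ t.length < d
        · left
          refine Or.inr ⟨n, t, ⟨hn.1, hn.2, ?_⟩, rfl⟩
          simpa [G] using ht
        · right
          refine highdeg_anti ?_ (pnt_highdeg F n t)
          omega
    · intro h
      exact tspan_mono hsub h
  rw [hset]
  exact (isClopen_discrete _).preimage hG

end H91RFD
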