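import Mathlib

/-!
# Varieties of nonassociative algebras whose finitely presented members are residually
finite-dimensional (RFD varieties): definitions

`F` is a field.  An `F`-algebra is a type with `NonUnitalNonAssocRing`, `Module F`,
`IsScalarTower F A A` and `SMulCommClass F A A` (a vector space with a bilinear multiplication).
Polynomials are elements of Mathlib's free nonassociative algebra.
-/

open FreeNonUnitalNonAssocAlgebra

namespace H91RFD

universe u v w

/-- The absolutely free (nonunital, nonassociative) algebra on `X`. -/
abbrev Free (F : Type u) [Field F] (X : Type v) := FreeNonUnitalNonAssocAlgebra F X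

/-- Nonassociative polynomials in the variables `0, 1, 2, …`. -/
abbrev Poly (F : Type u) [Field F] := FreeNonUnitalNonAssocAlgebra F ℕ

section algebra

variable (F : Type u) [Field F] (A : Type v) [NonUnitalNonAssocRing A] [Module F A]
  [IsScalarTower F A A] [SMulCommClass F A A]

/-- The algebra `A` satisfies the identity `p = 0`. -/
def Sat (p : Poly F) : Prop := ∀ v : ℕ → A, lift F v p = 0

/-- The algebra `A` belongs to the variety defined by the identities `p = 0`, `p ∈ S`. -/
def InVar (S : Set (Poly F)) : Prop := ∀ p ∈ S, Sat F A p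

variable {A}

omit [IsScalarTower F A A] [SMulCommClass F A A] in
/-- A two-sided (algebra) ideal: a subspace closed under multiplication from both sides. -/
def IsIdeal (I : Submodule F A) : Prop := ∀ a ∈ I, ∀ b : A, a * b ∈ I ∧ b * a ∈ I

omit [IsScalarTower F A A] [SMulCommClass F A A] in
/-- The ideal generated by a set. -/
def idealSpan (X : Set A) : Submodule F A := sInf {I | IsIdeal F I ∧ X ⊆ (I : Set A)}

variable (A)

/-- `A` is residually finite-dimensional. -/
def RFD : Prop :=
  ∀ a : A, a ≠ 0 → ∃ I : Submodule F A, IsIdeal F I ∧ FiniteDimensional F (A ⧸ I) ∧ a ∉ I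

end algebra

/-- All values of the polynomials in `S` under substitutions of elements of the free algebra
on `X` for the variables. -/
def verbal (F : Type u) [Field F] (S : Set (Poly F)) (X : Type v) : Set (Free F X) :=
  {q | ∃ p ∈ S, ∃ v : ℕ → Free F X, q = lift F v p}

/-- The algebra `A` is finitely presented in the variety defined by `S`: it is generated by
finitely many elements `s 0, …, s (n-1)`, and the kernel of the homomorphism from the free algebra
onto `A` is the ideal generated by a finite set `R` of relators together with all values of the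
identities of `S`; that is, `A` is the quotient of the relatively free algebra of rank `n` by the
ideal generated by finitely many elements. -/
def FinPres (F : Type u) [Field F] (S : Set (Poly F)) (A : Type v) [NonUnitalNonAssocRing A]
    [Module F A] [IsScalarTower F A A] [SMulCommClass F A A] : Prop :=
  ∃ (n : ℕ) (R : Set (Free F (Fin n))) (s : Fin n → A), R.Finite ∧
    Function.Surjective (lift F s) ∧
    ∀ q, lift F s q = 0 ↔ q ∈ idealSpan F (R ∪ verbal F S (Fin n))

/-- The variety defined by `S` is an RFD-variety: each of its finitely presented members is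
residually finite-dimensional. -/
def RFDVariety (F : Type u) [Field F] (S : Set (Poly F)) : Prop :=
  ∀ (A : Type u) [NonUnitalNonAssocRing A] [Module F A] [IsScalarTower F A A]
    [SMulCommClass F A A], FinPres F S A → RFD F A

/-- T-ideals: ideals of the free algebra of countable rank closed under all substitutions.
These are precisely the sets of all identities of varieties. -/
def IsTIdeal (F : Type u) [Field F] (T : Set (Poly F)) : Prop :=
  ∃ I : Submodule F (Poly F), (I : Set (Poly F)) = T ∧ IsIdeal F I ∧
    ∀ (v : ℕ → Poly F), ∀ p ∈ I, lift F v p ∈ I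

/-- The T-ideal generated by `S`. -/
noncomputable def tspan (F : Type u) [Field F] (S : Set (Poly F)) : Submodule F (Poly F) :=
  idealSpan F (verbal F S ℕ)

/-! ### The systems of identities -/

section words

variable {A : Type v} [NonUnitalNonAssocRing A]

/-- `Uval u₁ u₂ x t`: start with `(u₁ u₂) x₀` and multiply successively by `x₁, x₂, …`, on the
right or on the left as prescribed by `t` (the head of `t` is the last, outermost,
multiplication; `true` means multiplication on the right). -/
def Uval (u₁ u₂ : A) (x : ℕ → A) : List Bool → A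
  | [] => (u₁ * u₂) * x 0
  | b :: t => if b then Uval u₁ u₂ x t * x (t.length + 1) else x (t.length + 1) * Uval u₁ u₂ x t

/-- `Altval n w₁ w₂ z`: the alternating sum of the elements
`(…((w₁ w₂) z_{σ n}) …) z_{σ 0}` over all permutations `σ` of `{0, …, n}`. -/
def Altval (n : ℕ) (w₁ w₂ : A) (z : ℕ → A) : A :=
  ∑ σ : Equiv.Perm (Fin (n + 1)), (Equiv.Perm.sign σ : ℤˣ) •
    (List.ofFn (fun i => z (σ i))).foldr (fun v m => m * v) (w₁ * w₂)

end words

/-- The variable `j` as a polynomial. -/
noncomputable def X (F : Type u) [Field F] (j : ℕ) : Poly F := FreeNonUnitalNonAssocAlgebra.of F j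

/-- The identity `((x y)(z t)) v = 0`. -/
noncomputable def B1 (F : Type u) [Field F] : Poly F :=
  ((X F 0 * X F 1) * (X F 2 * X F 3)) * X F 4

/-- The identity `v ((x y)(z t)) = 0`. -/
noncomputable def B2 (F : Type u) [Field F] : Poly F :=
  X F 4 * ((X F 0 * X F 1) * (X F 2 * X F 3))

/-- The identity `U_t · Alt_n = 0` (all variables distinct). -/
noncomputable def pnt (F : Type u) [Field F] (n : ℕ) (t : List Bool) : Poly F :=
  Uval (X F 0) (X F 1) (fun j => X F (4 + 2 * j)) t *
    Altval n (X F 2) (X F 3) (fun j => X F (5 + 2 * j))

/-- The system of identities attached to a family of sets `Z n ⊆ ℕ`. -/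
def Sys (F : Type u) [Field F] (Z : ℕ → Set ℕ) : Set (Poly F) :=
  {B1 F, B2 F} ∪ {p | ∃ n, ∃ t : List Bool, t.length ∈ Z n ∧ p = pnt F n t}

/-! ### Three-layer algebras -/

/-- Data for a three-layer algebra `V × M × F`. -/
structure Data (F : Type u) (V : Type v) (M : Type w) [Field F] [AddCommGroup V] [Module F V]
    [AddCommGroup M] [Module F M] where
  /-- left multiplication of `M` by elements of `V` -/
  L : V →ₗ[F] M →ₗ[F] M
  /-- right multiplication of `M` by elements of `V` -/
  R : V →ₗ[F] M →ₗ[F] M
  /-- the `M`-component of the product of two elements of `V` -/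
  mu : V →ₗ[F] V →ₗ[F] M
  /-- the `F`-component of the product -/
  gam : (V × M) →ₗ[F] (V × M) →ₗ[F] F

namespace Data

variable {F : Type u} {V : Type v} {M : Type w} [Field F] [AddCommGroup V] [Module F V]
    [AddCommGroup M] [Module F M]

/-- The underlying space of the three-layer algebra of the data `D`. -/
def Alg (_D : Data F V M) : Type _ := (V × M) × F

instance (D : Data F V M) : AddCommGroup D.Alg := inferInstanceAs (AddCommGroup ((V × M) × F))

instance (D : Data F V M) : Module F D.Alg := inferInstanceAs (Module F ((V × M) × F))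

/-- The element with given components. -/
def elt (D : Data F V M) (v : V) (m : M) (c : F) : D.Alg := ((v, m), c)

/-- The `V`-component. -/
def pv (D : Data F V M) : D.Alg →ₗ[F] V :=
  (LinearMap.fst F V M).comp (LinearMap.fst F (V × M) F)

/-- The `M`-component. -/
def pm (D : Data F V M) : D.Alg →ₗ[F] M :=
  (LinearMap.snd F V M).comp (LinearMap.fst F (V × M) F)

/-- The `F`-component. -/
def pc (D : Data F V M) : D.Alg →ₗ[F] F := LinearMap.snd F (V × M) F

@[simp] theorem pv_elt (D : Data F V M) (v : V) (m : M) (c : F) : D.pv (D.elt v m c) = v := rfl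
@[simp] theorem pm_elt (D : Data F V M) (v : V) (m : M) (c : F) : D.pm (D.elt v m c) = m := rfl
@[simp] theorem pc_elt (D : Data F V M) (v : V) (m : M) (c : F) : D.pc (D.elt v m c) = c := rfl

theorem alg_ext {D : Data F V M} {a b : D.Alg} (h1 : D.pv a = D.pv b) (h2 : D.pm a = D.pm b)
    (h3 : D.pc a = D.pc b) : a = b := Prod.ext (Prod.ext h1 h2) h3

/-- The multiplication: `(v, m, c)(v', m', c') = (0, μ(v,v') + R_{v'} m + L_v m', γ((v,m),(v',m')))`. -/
instance (D : Data F V M) : Mul D.Alg :=
  ⟨fun a b => D.elt 0 (D.mu (D.pv a) (D.pv b) + D.R (D.pv b) (D.pm a) + D.L (D.pv a) (D.pm b))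
    (D.gam (D.pv a, D.pm a) (D.pv b, D.pm b))⟩

@[simp] theorem pv_mul (D : Data F V M) (a b : D.Alg) : D.pv (a * b) = 0 := rfl
@[simp] theorem pm_mul (D : Data F V M) (a b : D.Alg) : D.pm (a * b) =
    D.mu (D.pv a) (D.pv b) + D.R (D.pv b) (D.pm a) + D.L (D.pv a) (D.pm b) := rfl
@[simp] theorem pc_mul (D : Data F V M) (a b : D.Alg) : D.pc (a * b) =
    D.gam (D.pv a, D.pm a) (D.pv b, D.pm b) := rfl

instance (D : Data F V M) : NonUnitalNonAssocRing D.Alg :=
  { (inferInstance : AddCommGroup D.Alg), (inferInstance : Mul D.Alg) with
    left_distrib := by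
      intro a b c
      apply alg_ext
      · simp
      · simp only [pm_mul, map_add, LinearMap.add_apply]
        abel
      · simp only [pc_mul, map_add]
        rw [← Prod.mk_add_mk, map_add]
    right_distrib := by
      intro a b c
      apply alg_ext
      · simp
      · simp only [pm_mul, map_add, LinearMap.add_apply]
        abel
      · simp only [pc_mul, map_add]
        rw [← Prod.mk_add_mk, map_add, LinearMap.add_apply]
    zero_mul := by
      intro a
      apply alg_ext
      · simp
      · simp
      · simp only [pc_mul, map_zero]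
        rw [← Prod.zero_eq_mk, map_zero, LinearMap.zero_apply]
    mul_zero := by
      intro a
      apply alg_ext
      · simp
      · simp
      · simp only [pc_mul, map_zero]
        rw [← Prod.zero_eq_mk, map_zero] }

instance (D : Data F V M) : IsScalarTower F D.Alg D.Alg := ⟨by
  intro c a b
  simp only [smul_eq_mul]
  apply alg_ext
  · simp
  · simp [smul_add]
  · simp only [pc_mul, map_smul]
    rw [← Prod.smul_mk, map_smul, LinearMap.smul_apply]⟩

instance (D : Data F V M) : SMulCommClass F D.Alg D.Alg := ⟨by
  intro c a b
  simp only [smul_eq_mul]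
  apply alg_ext
  · simp
  · simp [smul_add]
  · simp only [pc_mul, map_smul]
    rw [← Prod.smul_mk, map_smul]⟩

/-- The operator word `R_{x₀}` followed by the operators of `t`. -/
def Uop (D : Data F V M) (x : ℕ → V) : List Bool → M → M
  | [], m => D.R (x 0) m
  | b :: t, m => if b then D.R (x (t.length + 1)) (D.Uop x t m)
      else D.L (x (t.length + 1)) (D.Uop x t m)

/-- The alternating sum of operator words. -/
def Altop (D : Data F V M) (n : ℕ) (z : ℕ → V) (m : M) : M :=
  ∑ σ : Equiv.Perm (Fin (n + 1)), (Equiv.Perm.sign σ : ℤˣ) •
    (List.ofFn (fun i => z (σ i))).foldr (fun v m => D.R v m) m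

/-- The condition on the data which makes the algebra satisfy `Sys F Z`. -/
def Star (D : Data F V M) (Z : ℕ → Set ℕ) : Prop :=
  ∀ n, ∀ t : List Bool, t.length ∈ Z n → ∀ (x z : ℕ → V) (m m' : M),
    D.gam (0, D.Uop x t m) (0, D.Altop n z m') = 0

end Data

end H91RFD
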