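import Pool.Agent.H91R2.RFD.Defs

/-!
# Truncated data and low/high degree parts: definitions
-/

open FreeNonUnitalNonAssocAlgebra

namespace H91RFD

universe u v w

namespace Data

section maps

variable {F : Type u} {M : Type w} [Field F] [AddCommGroup M] [Module F M]

/-- `m ↦ (ρ m, m - ρ m, 0, 0, …)`. -/
def ini (ρ : M →ₗ[F] M) : M →ₗ[F] (ℕ → M) where
  toFun m := fun j => match j with
    | 0 => ρ m
    | 1 => m - ρ m
    | _ + 2 => 0
  map_add' a b := by
    funext j
    match j with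
    | 0 => simp
    | 1 => simp only [map_add, Pi.add_apply]; abel
    | _ + 2 => simp
  map_smul' c a := by
    funext j
    match j with
    | 0 => simp
    | 1 => simp [smul_sub]
    | _ + 2 => simp

@[simp] theorem ini_zero (ρ : M →ₗ[F] M) (m : M) : ini ρ m 0 = ρ m := rfl
@[simp] theorem ini_one (ρ : M →ₗ[F] M) (m : M) : ini ρ m 1 = m - ρ m := rfl
@[simp] theorem ini_two (ρ : M →ₗ[F] M) (m : M) (j : ℕ) : ini ρ m (j + 2) = 0 := rfl

/-- The operator on sequences induced by `g : M → M`: `y ↦ y'` with `y'₀ = ρ (g y₀)`,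
`y'₁ = g y₀ - ρ (g y₀)`, `y'_{j+2} = g (y_{j+1})` if `j + 2 ≤ N` and `0` otherwise. -/
def step (ρ : M →ₗ[F] M) (N : ℕ) : (M →ₗ[F] M) →ₗ[F] (ℕ → M) →ₗ[F] (ℕ → M) :=
  LinearMap.mk₂ F (fun g y => fun j => match j with
    | 0 => ρ (g (y 0))
    | 1 => g (y 0) - ρ (g (y 0))
    | j + 2 => if j + 2 ≤ N then g (y (j + 1)) else 0)
    (by
      intro g g' y
      funext j
      match j with
      | 0 => simp
      | 1 => simp only [LinearMap.add_apply, map_add, Pi.add_apply]; abel
      | j + 2 => by_cases h : j + 2 ≤ N <;> simp [h])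
    (by
      intro c g y
      funext j
      match j with
      | 0 => simp
      | 1 => simp [smul_sub]
      | j + 2 => by_cases h : j + 2 ≤ N <;> simp [h])
    (by
      intro g y y'
      funext j
      match j with
      | 0 => simp
      | 1 => simp only [Pi.add_apply, map_add]; abel
      | j + 2 => by_cases h : j + 2 ≤ N <;> simp [h])
    (by
      intro c g y
      funext j
      match j with
      | 0 => simp
      | 1 => simp [smul_sub]
      | j + 2 => by_cases h : j + 2 ≤ N <;> simp [h])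

@[simp] theorem step_zero (ρ : M →ₗ[F] M) (N : ℕ) (g : M →ₗ[F] M) (y : ℕ → M) :
    step ρ N g y 0 = ρ (g (y 0)) := rfl
@[simp] theorem step_one (ρ : M →ₗ[F] M) (N : ℕ) (g : M →ₗ[F] M) (y : ℕ → M) :
    step ρ N g y 1 = g (y 0) - ρ (g (y 0)) := rfl
@[simp] theorem step_two (ρ : M →ₗ[F] M) (N : ℕ) (g : M →ₗ[F] M) (y : ℕ → M) (j : ℕ) :
    step ρ N g y (j + 2) = if j + 2 ≤ N then g (y (j + 1)) else 0 := rfl

/-- `y ↦ y₀ + y₁ + … + y_l`. -/
def psum (F : Type u) [Field F] {M : Type w} [AddCommGroup M] [Module F M] (l : ℕ) :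
    (ℕ → M) →ₗ[F] M :=
  ∑ j ∈ Finset.range (l + 1), LinearMap.proj j

end maps

variable {F : Type u} {V : Type v} {M : Type w} [Field F] [AddCommGroup V] [Module F V]
    [AddCommGroup M] [Module F M]

/-- The truncated data attached to a linear map `ρ : M → M` and `N`. -/
def trunc (D : Data F V M) (ρ : M →ₗ[F] M) (N : ℕ) : Data F V (ℕ → M) where
  L := (step ρ N).comp D.L
  R := (step ρ N).comp D.R
  mu := D.mu.compr₂ (ini ρ)
  gam := D.gam.compl₁₂ (LinearMap.prodMap LinearMap.id (psum F N))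
    (LinearMap.prodMap LinearMap.id (psum F N))

@[simp] theorem trunc_L (D : Data F V M) (ρ : M →ₗ[F] M) (N : ℕ) (v : V) :
    (D.trunc ρ N).L v = step ρ N (D.L v) := rfl
@[simp] theorem trunc_R (D : Data F V M) (ρ : M →ₗ[F] M) (N : ℕ) (v : V) :
    (D.trunc ρ N).R v = step ρ N (D.R v) := rfl
@[simp] theorem trunc_mu (D : Data F V M) (ρ : M →ₗ[F] M) (N : ℕ) (v v' : V) :
    (D.trunc ρ N).mu v v' = ini ρ (D.mu v v') := rfl
@[simp] theorem trunc_gam (D : Data F V M) (ρ : M →ₗ[F] M) (N : ℕ) (a b : V × (ℕ → M)) :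
    (D.trunc ρ N).gam a b = D.gam (a.1, psum F N a.2) (b.1, psum F N b.2) := rfl

end Data

/-- Span of the monomials of length at most `d`. -/
noncomputable def lowdeg (F : Type u) [Field F] (Y : Type v) (d : ℕ) : Submodule F (Free F Y) :=
  Submodule.span F {q | ∃ w : FreeMagma Y, w.length ≤ d ∧ q = MonoidAlgebra.ofMagma F _ w}

/-- Span of the monomials of length larger than `d`. -/
noncomputable def highdeg (F : Type u) [Field F] (Y : Type v) (d : ℕ) : Submodule F (Free F Y) :=
  Submodule.span F {q | ∃ w : FreeMagma Y, d < w.length ∧ q = MonoidAlgebra.ofMagma F _ w}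

end H91RFD
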