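import Pool.Agent.H91R2.RFD.Basic
import Pool.Agent.H91R2.RFD.TruncDefs

open FreeNonUnitalNonAssocAlgebra

namespace H91RFD

universe u v w

section K1aux

variable {F : Type u} [Field F] {Y : Type v}

theorem length_mul' (a b : FreeMagma Y) : (a * b).length = a.length + b.length := rfl

theorem highdeg_mono {a b : ℕ} (h : a ≤ b) : highdeg F Y b ≤ highdeg F Y a := by
  apply Submodule.span_mono
  rintro q ⟨w, hw, rfl⟩
  exact ⟨w, lt_of_le_of_lt h hw, rfl⟩

theorem single_mem_highdeg {d : ℕ} {w : FreeMagma Y} (hw : d < w.length) (c : F) :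
    MonoidAlgebra.single w c ∈ highdeg F Y d := by
  have h1 : MonoidAlgebra.single w (1 : F) ∈ highdeg F Y d :=
    Submodule.subset_span ⟨w, hw, rfl⟩
  have := (highdeg F Y d).smul_mem c h1
  rwa [MonoidAlgebra.smul_single, smul_eq_mul, mul_one] at this

theorem mem_highdeg_zero (x : Free F Y) : x ∈ highdeg F Y 0 := by
  induction x using MonoidAlgebra.induction_linear with
  | zero => exact Submodule.zero_mem _
  | add x y hx hy => exact Submodule.add_mem _ hx hy
  | single m r => exact single_mem_highdeg (FreeMagma.length_pos m) r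

theorem mul_mem_highdeg {a b : ℕ} {x y : Free F Y} (hx : x ∈ highdeg F Y a)
    (hy : y ∈ highdeg F Y b) : x * y ∈ highdeg F Y (a + b + 1) := by
  induction hx using Submodule.span_induction with
  | mem x hx =>
    obtain ⟨w, hw, rfl⟩ := hx
    induction hy using Submodule.span_induction with
    | mem y hy =>
      obtain ⟨w', hw', rfl⟩ := hy
      refine Submodule.subset_span ⟨w * w', ?_, (map_mul _ _ _).symm⟩
      rw [length_mul']
      omega
    | zero => rw [mul_zero]; exact Submodule.zero_mem _
    | add y y' _ _ h1 h2 => rw [mul_add]; exact Submodule.add_mem _ h1 h2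
    | smul c y _ h1 => rw [mul_smul_comm]; exact Submodule.smul_mem _ c h1
  | zero => rw [zero_mul]; exact Submodule.zero_mem _
  | add x x' _ _ h1 h2 => rw [add_mul]; exact Submodule.add_mem _ h1 h2
  | smul c x _ h1 => rw [smul_mul_assoc]; exact Submodule.smul_mem _ c h1

theorem highdeg_isIdeal (d : ℕ) : IsIdeal F (highdeg F Y d) := by
  intro a ha b
  constructor
  · exact highdeg_mono (by omega) (mul_mem_highdeg ha (mem_highdeg_zero b))
  · exact highdeg_mono (by omega) (mul_mem_highdeg (mem_highdeg_zero b) ha)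

theorem lift_single_mem (v : ℕ → Free F Y) (w : FreeMagma ℕ) :
    lift F v (MonoidAlgebra.single w 1) ∈ highdeg F Y (w.length - 1) := by
  induction w with
  | ih1 x => exact mem_highdeg_zero _
  | ih2 a b ha hb =>
    have h : MonoidAlgebra.single (a * b) (1 : F) =
        MonoidAlgebra.single a 1 * MonoidAlgebra.single b 1 := by
      rw [MonoidAlgebra.single_mul_single, one_mul]
    rw [h, map_mul]
    refine highdeg_mono ?_ (mul_mem_highdeg ha hb)
    have h1 := FreeMagma.length_pos a
    have h2 := FreeMagma.length_pos b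
    rw [length_mul']
    omega

theorem highdeg_subst (d : ℕ) (v : ℕ → Poly F) : ∀ p ∈ highdeg F ℕ d,
    lift F v p ∈ highdeg F ℕ d := by
  intro p hp
  induction hp using Submodule.span_induction with
  | mem x hx =>
    obtain ⟨w, hw, rfl⟩ := hx
    exact highdeg_mono (by omega) (lift_single_mem v w)
  | zero => rw [map_zero]; exact Submodule.zero_mem _
  | add x y _ _ h1 h2 => rw [map_add]; exact Submodule.add_mem _ h1 h2
  | smul c x _ h1 => rw [map_smul]; exact Submodule.smul_mem _ c h1

/-- the homogeneous component of degree `k` -/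
noncomputable def hcomp (k : ℕ) : Free F Y →ₗ[F] Free F Y where
  toFun x := MonoidAlgebra.ofCoeff (x.coeff.filter (fun w => w.length = k))
  map_add' x y := by
    rw [MonoidAlgebra.coeff_add, Finsupp.filter_add, MonoidAlgebra.ofCoeff_add]
  map_smul' c x := by
    rw [MonoidAlgebra.coeff_smul, Finsupp.filter_smul, MonoidAlgebra.ofCoeff_smul]
    rfl

theorem hcomp_single (k : ℕ) (w : FreeMagma Y) (c : F) :
    hcomp k (MonoidAlgebra.single w c) = if w.length = k then MonoidAlgebra.single w c else 0 := by
  change MonoidAlgebra.ofCoeff ((Finsupp.single w c).filter (fun w => w.length = k)) = _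
  split_ifs with h
  · rw [Finsupp.filter_single_of_pos (fun w : FreeMagma Y => w.length = k) h]; rfl
  · rw [Finsupp.filter_single_of_neg (fun w : FreeMagma Y => w.length = k) h]; rfl

theorem hcomp_high {k d : ℕ} (hk : k ≤ d) {x : Free F Y} (hx : x ∈ highdeg F Y d) :
    hcomp k x = 0 := by
  induction hx using Submodule.span_induction with
  | mem x hx =>
    obtain ⟨w, hw, rfl⟩ := hx
    rw [MonoidAlgebra.ofMagma_apply, hcomp_single, if_neg (by omega)]
  | zero => rw [map_zero]
  | add x y _ _ h1 h2 => rw [map_add, h1, h2, add_zero]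
  | smul c x _ h1 => rw [map_smul, h1, smul_zero]

theorem hcomp_low {k d : ℕ} (hk : d < k) {x : Free F Y} (hx : x ∈ lowdeg F Y d) :
    hcomp k x = 0 := by
  induction hx using Submodule.span_induction with
  | mem x hx =>
    obtain ⟨w, hw, rfl⟩ := hx
    rw [MonoidAlgebra.ofMagma_apply, hcomp_single, if_neg (by omega)]
  | zero => rw [map_zero]
  | add x y _ _ h1 h2 => rw [map_add, h1, h2, add_zero]
  | smul c x _ h1 => rw [map_smul, h1, smul_zero]

theorem scale_single (c : F) (w : FreeMagma Y) :
    lift F (fun j => c • of F j) (MonoidAlgebra.single w (1 : F)) =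
      c ^ w.length • MonoidAlgebra.single w (1 : F) := by
  induction w with
  | ih1 x =>
    have h : MonoidAlgebra.single (FreeMagma.of x) (1 : F) = of F x := rfl
    rw [h, lift_of_apply]
    change _ = c ^ (1 : ℕ) • _
    rw [pow_one]
  | ih2 a b ha hb =>
    have h : MonoidAlgebra.single (a * b) (1 : F) =
        MonoidAlgebra.single a 1 * MonoidAlgebra.single b 1 := by
      rw [MonoidAlgebra.single_mul_single, one_mul]
    rw [h, map_mul, ha, hb, length_mul', pow_add, smul_mul_smul_comm]

theorem scale_expand (x : Free F Y) : ∃ N : ℕ, ∀ M ≥ N, ∀ c : F,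
    lift F (fun j => c • of F j) x = ∑ k ∈ Finset.range M, c ^ k • hcomp k x := by
  induction x using MonoidAlgebra.induction_linear with
  | zero => exact ⟨0, fun M _ c => by simp⟩
  | add x y hx hy =>
    obtain ⟨N₁, h₁⟩ := hx
    obtain ⟨N₂, h₂⟩ := hy
    refine ⟨max N₁ N₂, fun M hM c => ?_⟩
    rw [map_add, h₁ M (le_trans (le_max_left _ _) hM) c, h₂ M (le_trans (le_max_right _ _) hM) c,
      ← Finset.sum_add_distrib]
    refine Finset.sum_congr rfl fun k _ => ?_
    rw [map_add, smul_add]
  | single m r =>
    refine ⟨m.length + 1, fun M hM c => ?_⟩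
    have hs : MonoidAlgebra.single m r = r • MonoidAlgebra.single m (1 : F) := by
      rw [MonoidAlgebra.smul_single, smul_eq_mul, mul_one]
    rw [Finset.sum_eq_single m.length]
    · rw [hcomp_single, if_pos rfl, hs, map_smul, scale_single, smul_comm]
    · intro k _ hk
      rw [hcomp_single, if_neg (Ne.symm hk), smul_zero]
    · intro h
      exact absurd (Finset.mem_range.2 (by omega)) h

theorem eq_sum_hcomp (x : Free F Y) : ∃ N : ℕ, ∀ M ≥ N,
    x = ∑ k ∈ Finset.range M, hcomp k x := by
  obtain ⟨N, hN⟩ := scale_expand x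
  refine ⟨N, fun M hM => ?_⟩
  have h := hN M hM 1
  have hid : lift F (fun j => (1 : F) • of F j) = NonUnitalAlgHom.id F (Free F Y) := by
    apply hom_ext
    intro y
    rw [lift_of_apply, one_smul]
    rfl
  rw [hid] at h
  simpa using h

/-- Components of the elements of T-ideals over an infinite field. -/
theorem hcomp_mem [Infinite F] (I : Submodule F (Poly F))
    (hsub : ∀ (v : ℕ → Poly F), ∀ p ∈ I, lift F v p ∈ I) {p : Poly F} (hp : p ∈ I) (k : ℕ) :
    hcomp k p ∈ I := by
  classical
  by_contra hk
  obtain ⟨φ, hφ1, hφ2⟩ := Submodule.exists_le_ker_of_notMem hk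
  obtain ⟨N, hN⟩ := scale_expand p
  have hk' := hN (max N (k + 1)) (le_max_left _ _)
  have hpoly : (∑ i ∈ Finset.range (max N (k + 1)),
      Polynomial.monomial i (φ (hcomp i p))) = 0 := by
    apply Polynomial.funext
    intro c
    rw [Polynomial.eval_zero, Polynomial.eval_finsetSum]
    have h1 : φ (lift F (fun j => c • of F j) p) = 0 := hφ2 (hsub _ p hp)
    rw [hk' c, map_sum] at h1
    rw [← h1]
    refine Finset.sum_congr rfl fun i _ => ?_
    rw [Polynomial.eval_monomial, map_smul, smul_eq_mul, mul_comm]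
  have hc := congrArg (fun q => Polynomial.coeff q k) hpoly
  simp only [Polynomial.finsetSum_coeff, Polynomial.coeff_monomial, Polynomial.coeff_zero] at hc
  rw [Finset.sum_ite_eq' , if_pos (Finset.mem_range.2 (by omega))] at hc
  exact hφ1 hc

end K1aux

/-- Task K1: T-ideals over an infinite field are homogeneous, hence generators of degree `> d` do
not influence the part of degree `≤ d`. -/
theorem tspan_lowdeg {F : Type u} [Field F] [Infinite F] {S S' : Set (Poly F)} (d : ℕ)
    (h : S' ⊆ S) (h2 : ∀ p ∈ S, p ∈ S' ∨ p ∈ highdeg F ℕ d) {p : Poly F}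
    (hp : p ∈ lowdeg F ℕ d) (hpS : p ∈ tspan F S) : p ∈ tspan F S' := by
  obtain ⟨I, hIe, hI1, hI2⟩ := tspan_isTIdeal F S'
  have hIe' : I = tspan F S' := SetLike.coe_injective hIe
  subst hIe'
  have hle : tspan F S ≤ tspan F S' ⊔ highdeg F ℕ d := by
    apply tspan_le
    · intro a ha b
      obtain ⟨x, hx, y, hy, rfl⟩ := Submodule.mem_sup.1 ha
      constructor
      · rw [add_mul]
        exact Submodule.add_mem_sup (hI1 x hx b).1 (highdeg_isIdeal d y hy b).1
      · rw [mul_add]
        exact Submodule.add_mem_sup (hI1 x hx b).2 (highdeg_isIdeal d y hy b).2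
    · intro v q hq
      obtain ⟨x, hx, y, hy, rfl⟩ := Submodule.mem_sup.1 hq
      rw [map_add]
      exact Submodule.add_mem_sup (hI2 v x hx) (highdeg_subst d v y hy)
    · intro q hq
      rcases h2 q hq with h3 | h3
      · exact Submodule.mem_sup_left (subset_tspan F S' h3)
      · exact Submodule.mem_sup_right h3
  obtain ⟨p', hp', q, hq, hpq⟩ := Submodule.mem_sup.1 (hle hpS)
  obtain ⟨N, hN⟩ := eq_sum_hcomp p
  rw [hN (max N (d + 1)) (le_max_left _ _)]
  apply Submodule.sum_mem
  intro k _
  by_cases hkd : k ≤ d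
  · rw [← hpq, map_add, hcomp_high hkd hq, add_zero]
    exact hcomp_mem _ hI2 hp' k
  · rw [hcomp_low (by omega) hp]
    exact Submodule.zero_mem _

end H91RFD
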