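import Pool.Agent.H91R2.RFD.SatLemmas

open FreeNonUnitalNonAssocAlgebra

namespace H91RFD

universe u v w

set_option linter.unusedSectionVars false

namespace LemB

section words

variable {F : Type u} [Field F] {A : Type v} [NonUnitalNonAssocRing A] [Module F A]
    [IsScalarTower F A A] [SMulCommClass F A A]

/-- the operator word of `Uval` -/
noncomputable def Uw (F : Type u) [Field F] {A : Type v} [NonUnitalNonAssocRing A] [Module F A]
    [IsScalarTower F A A] [SMulCommClass F A A] (x : ℕ → A) : List Bool → A →ₗ[F] A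
  | [] => LinearMap.mulRight F (x 0)
  | b :: t => if b then (LinearMap.mulRight F (x (t.length + 1))).comp (Uw F x t)
      else (LinearMap.mulLeft F (x (t.length + 1))).comp (Uw F x t)

theorem Uw_mul (u₁ u₂ : A) (x : ℕ → A) (t : List Bool) :
    Uw F x t (u₁ * u₂) = Uval u₁ u₂ x t := by
  induction t with
  | nil => rfl
  | cons b t ih =>
    cases b
    · simp [Uw, Uval, ih]
    · simp [Uw, Uval, ih]

/-- the operator word of a list of right multiplications -/
noncomputable def Gw (F : Type u) [Field F] {A : Type v} [NonUnitalNonAssocRing A] [Module F A]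
    [IsScalarTower F A A] [SMulCommClass F A A] : List A → A →ₗ[F] A
  | [] => LinearMap.id
  | v :: l => (LinearMap.mulRight F v).comp (Gw F l)

theorem Gw_foldr (l : List A) (c : A) : Gw F l c = l.foldr (fun v m => m * v) c := by
  induction l with
  | nil => rfl
  | cons v l ih => simp [Gw, ih]

/-- the operator of `Altval` -/
noncomputable def Aw (F : Type u) [Field F] {A : Type v} [NonUnitalNonAssocRing A] [Module F A]
    [IsScalarTower F A A] [SMulCommClass F A A] (n : ℕ) (z : ℕ → A) : A →ₗ[F] A :=
  ∑ σ : Equiv.Perm (Fin (n + 1)), ((Equiv.Perm.sign σ : ℤˣ) : ℤ) •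
    Gw F (List.ofFn (fun i => z (σ i)))

theorem Aw_apply (n : ℕ) (z : ℕ → A) (c : A) : Aw F n z c =
    ∑ σ : Equiv.Perm (Fin (n + 1)), ((Equiv.Perm.sign σ : ℤˣ) : ℤ) •
      Gw F (List.ofFn (fun i => z (σ i))) c := by
  simp [Aw, LinearMap.sum_apply]

theorem Aw_mul (w₁ w₂ : A) (n : ℕ) (z : ℕ → A) : Aw F n z (w₁ * w₂) = Altval n w₁ w₂ z := by
  rw [Aw_apply]
  unfold Altval
  refine Finset.sum_congr rfl fun σ _ => ?_
  rw [Gw_foldr, Units.smul_def]

/-- the square of the algebra -/
def A2 (F : Type u) [Field F] (A : Type v) [NonUnitalNonAssocRing A] [Module F A] :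
    Submodule F A := Submodule.span F {c | ∃ x y : A, c = x * y}

/-- the span of the products of products -/
def Dd (F : Type u) [Field F] (A : Type v) [NonUnitalNonAssocRing A] [Module F A] :
    Submodule F A := Submodule.span F {c | ∃ x y z t : A, c = (x * y) * (z * t)}

omit [IsScalarTower F A A] [SMulCommClass F A A] in
theorem mul_mem_A2 (x y : A) : x * y ∈ A2 F A := Submodule.subset_span ⟨x, y, rfl⟩

omit [IsScalarTower F A A] [SMulCommClass F A A] in
theorem Dd_le_A2 : Dd F A ≤ A2 F A := by
  apply Submodule.span_le.2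
  rintro _ ⟨x, y, z, t, rfl⟩
  exact mul_mem_A2 _ _

theorem A2_mul_A2 {b b' : A} (hb : b ∈ A2 F A) (hb' : b' ∈ A2 F A) : b * b' ∈ Dd F A := by
  induction hb using Submodule.span_induction with
  | mem b hb =>
    obtain ⟨x, y, rfl⟩ := hb
    induction hb' using Submodule.span_induction with
    | mem b' hb' =>
      obtain ⟨z, t, rfl⟩ := hb'
      exact Submodule.subset_span ⟨x, y, z, t, rfl⟩
    | zero => rw [mul_zero]; exact Submodule.zero_mem _
    | add a c _ _ ha hc => rw [mul_add]; exact Submodule.add_mem _ ha hc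
    | smul r a _ ha => rw [mul_smul_comm]; exact Submodule.smul_mem _ _ ha
  | zero => rw [zero_mul]; exact Submodule.zero_mem _
  | add a c _ _ ha hc => rw [add_mul]; exact Submodule.add_mem _ ha hc
  | smul r a _ ha => rw [smul_mul_assoc]; exact Submodule.smul_mem _ _ ha

theorem Dd_mul (h1 : ∀ x y z t v : A, ((x * y) * (z * t)) * v = 0) {d : A} (hd : d ∈ Dd F A)
    (v : A) : d * v = 0 := by
  induction hd using Submodule.span_induction with
  | mem b hb =>
    obtain ⟨x, y, z, t, rfl⟩ := hb
    exact h1 x y z t v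
  | zero => rw [zero_mul]
  | add a c _ _ ha hc => rw [add_mul, ha, hc, add_zero]
  | smul r a _ ha => rw [smul_mul_assoc, ha, smul_zero]

theorem mul_Dd (h2 : ∀ x y z t v : A, v * ((x * y) * (z * t)) = 0) {d : A} (hd : d ∈ Dd F A)
    (v : A) : v * d = 0 := by
  induction hd using Submodule.span_induction with
  | mem b hb =>
    obtain ⟨x, y, z, t, rfl⟩ := hb
    exact h2 x y z t v
  | zero => rw [mul_zero]
  | add a c _ _ ha hc => rw [mul_add, ha, hc, add_zero]
  | smul r a _ ha => rw [mul_smul_comm, ha, smul_zero]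

/-- products of words vanish on the square -/
theorem words_zero {n : ℕ} {t : List Bool}
    (h3 : ∀ (u₁ u₂ w₁ w₂ : A) (x z : ℕ → A), Uval u₁ u₂ x t * Altval n w₁ w₂ z = 0)
    (x z : ℕ → A) {c c' : A} (hc : c ∈ A2 F A) (hc' : c' ∈ A2 F A) :
    Uw F x t c * Aw F n z c' = 0 := by
  induction hc using Submodule.span_induction with
  | mem b hb =>
    obtain ⟨u₁, u₂, rfl⟩ := hb
    induction hc' using Submodule.span_induction with
    | mem b' hb' =>
      obtain ⟨w₁, w₂, rfl⟩ := hb'
      rw [Uw_mul, Aw_mul]
      exact h3 _ _ _ _ _ _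
    | zero => rw [map_zero, mul_zero]
    | add a c _ _ ha hc => rw [map_add, mul_add, ha, hc, add_zero]
    | smul r a _ ha => rw [map_smul, mul_smul_comm, ha, smul_zero]
  | zero => rw [map_zero, zero_mul]
  | add a c _ _ ha hc => rw [map_add, add_mul, ha, hc, add_zero]
  | smul r a _ ha => rw [map_smul, smul_mul_assoc, ha, smul_zero]

/-- an algebra generated by finitely many elements is finite-dimensional modulo its square -/
theorem fd_quot {n : ℕ} (s : Fin n → A) (hs : Function.Surjective (lift F s)) :
    FiniteDimensional F (A ⧸ A2 F A) := by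
  let W : Submodule F A := Submodule.span F (Set.range s) ⊔ A2 F A
  let W' : NonUnitalSubalgebra F A :=
    { W with
      mul_mem' := fun {a b} _ _ => (le_sup_right : A2 F A ≤ W) (mul_mem_A2 a b) }
  have hs' : ∀ i, s i ∈ W' := fun i =>
    (le_sup_left : Submodule.span F (Set.range s) ≤ W) (Submodule.subset_span ⟨i, rfl⟩)
  let s' : Fin n → W' := fun i => ⟨s i, hs' i⟩
  have hlift : lift F s = (NonUnitalSubalgebraClass.subtype W').comp (lift F s') := by
    apply FreeNonUnitalNonAssocAlgebra.hom_ext
    intro i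
    simp [s']
  have hall : ∀ a : A, a ∈ W := by
    intro a
    obtain ⟨q, rfl⟩ := hs a
    rw [hlift]
    exact (lift F s' q).2
  have htop : Submodule.map (A2 F A).mkQ (Submodule.span F (Set.range s)) = ⊤ := by
    rw [eq_top_iff]
    intro y _
    obtain ⟨a, rfl⟩ := Submodule.mkQ_surjective _ y
    obtain ⟨b, hb, c, hc, rfl⟩ := Submodule.mem_sup.1 (hall a)
    refine ⟨b, hb, ?_⟩
    rw [map_add]
    have : (A2 F A).mkQ c = 0 := by
      rw [Submodule.mkQ_apply, Submodule.Quotient.mk_eq_zero]
      exact hc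
    rw [this, add_zero]
  have hfg : (⊤ : Submodule F (A ⧸ A2 F A)).FG := by
    rw [← htop]
    exact (Submodule.fg_span (Set.finite_range s)).map _
  exact ⟨hfg⟩

end words

end LemB

open LemB in
/-- Task F.  Every element `a ≠ 0` of an algebra of the variety generated by `n` elements is seen
by a homomorphism into a three-layer algebra satisfying (★), with `V` finite-dimensional. -/
theorem exists_data {F : Type u} [Field F] {A : Type u} [NonUnitalNonAssocRing A] [Module F A]
    [IsScalarTower F A A] [SMulCommClass F A A] (Z : ℕ → Set ℕ) (hA : InVar F A (Sys F Z))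
    {n : ℕ} (s : Fin n → A) (hs : Function.Surjective (lift F s)) (a : A) (ha : a ≠ 0) :
    ∃ (V M : Type u) (_ : AddCommGroup V) (_ : Module F V) (_ : AddCommGroup M) (_ : Module F M)
      (D : Data F V M), FiniteDimensional F V ∧ D.Star Z ∧
      ∃ Ψ : A →ₙₐ[F] D.Alg, D.pc (Ψ a) ≠ 0 := by
  obtain ⟨h1, h2, h3⟩ := (inVar_Sys Z).1 hA
  -- the linear maps
  have hsec1 := LinearMap.exists_rightInverse_of_surjective (A2 F A).mkQ
    (Submodule.range_mkQ _)
  obtain ⟨sig, hsig⟩ := hsec1
  obtain ⟨sec, hsec⟩ := LinearMap.exists_rightInverse_of_surjective (Dd F A).mkQ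
    (Submodule.range_mkQ _)
  set lam : A →ₗ[F] (A ⧸ A2 F A) := (A2 F A).mkQ with hlam
  have hls : ∀ v, lam (sig v) = v := fun v => LinearMap.congr_fun hsig v
  have hlam0 : ∀ b ∈ A2 F A, lam b = 0 := by
    intro b hb
    rw [hlam, Submodule.mkQ_apply, Submodule.Quotient.mk_eq_zero]
    exact hb
  set p : A →ₗ[F] A := LinearMap.id - sig.comp lam with hp
  have hp1 : ∀ b, p b = b - sig (lam b) := fun b => rfl
  have hpA2 : ∀ b, p b ∈ A2 F A := by
    intro b
    have : lam (p b) = 0 := by rw [hp1, map_sub, hls, sub_self]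
    rwa [hlam, Submodule.mkQ_apply, Submodule.Quotient.mk_eq_zero] at this
  have hpfix : ∀ b ∈ A2 F A, p b = b := by
    intro b hb
    rw [hp1, hlam0 b hb, map_zero, sub_zero]
  set τ : A →ₗ[F] A := sec.comp (Dd F A).mkQ with hτ
  have hτ1 : ∀ b, τ b - b ∈ Dd F A := by
    intro b
    rw [← Submodule.Quotient.mk_eq_zero, ← Submodule.mkQ_apply, map_sub]
    have : (Dd F A).mkQ (τ b) = (Dd F A).mkQ b := LinearMap.congr_fun hsec _
    rw [this, sub_self]
  have hτ0 : ∀ d ∈ Dd F A, τ d = 0 := by
    intro d hd
    have : (Dd F A).mkQ d = 0 := by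
      rw [Submodule.mkQ_apply, Submodule.Quotient.mk_eq_zero]
      exact hd
    rw [hτ, LinearMap.comp_apply, this, map_zero]
  -- `p (τ b) - p b ∈ Dd`
  have hpτ : ∀ b, p (τ b) - p b ∈ Dd F A := by
    intro b
    rw [← map_sub, hpfix _ (Dd_le_A2 (hτ1 b))]
    exact hτ1 b
  obtain ⟨ψ, hψ⟩ : ∃ ψ : A →ₗ[F] F, ψ a ≠ 0 := by
    by_contra hcon
    push Not at hcon
    exact ha ((Module.forall_dual_apply_eq_zero_iff F a).1 hcon)
  let κ : ((A ⧸ A2 F A) × A) →ₗ[F] A := sig.coprod p
  let D : Data F (A ⧸ A2 F A) A :=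
    { L := ((LinearMap.mul F A).compl₁₂ sig p).compr₂ τ
      R := ((LinearMap.mul F A).flip.compl₁₂ sig p).compr₂ τ
      mu := ((LinearMap.mul F A).compl₁₂ sig sig).compr₂ τ
      gam := ((LinearMap.mul F A).compl₁₂ κ κ).compr₂ ψ }
  have hDL : ∀ v m, D.L v m = τ (sig v * p m) := fun v m => rfl
  have hDR : ∀ v m, D.R v m = τ (p m * sig v) := fun v m => rfl
  have hDmu : ∀ v v', D.mu v v' = τ (sig v * sig v') := fun v m => rfl
  have hDgam : ∀ x y, D.gam x y = ψ ((sig x.1 + p x.2) * (sig y.1 + p y.2)) := fun x y => rfl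
  -- elements congruent modulo `Dd` have the same products
  have hcl : ∀ {b b' : A} (c : A), b - b' ∈ Dd F A → b * c = b' * c := by
    intro b b' c h
    have := Dd_mul h1 h c
    rw [sub_mul] at this
    exact sub_eq_zero.1 this
  have hcr : ∀ {b b' : A} (c : A), b - b' ∈ Dd F A → c * b = c * b' := by
    intro b b' c h
    have := mul_Dd h2 h c
    rw [mul_sub] at this
    exact sub_eq_zero.1 this
  -- the words
  have hU : ∀ (x : ℕ → A ⧸ A2 F A) (t : List Bool) (m : A),
      p (D.Uop x t m) - Uw F (fun j => sig (x j)) t (p m) ∈ Dd F A := by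
    intro x t m
    induction t with
    | nil =>
      have e1 : D.Uop x [] m = τ (p m * sig (x 0)) := rfl
      have e2 : Uw F (fun j => sig (x j)) [] (p m) = p m * sig (x 0) := rfl
      rw [e1, e2]
      have := hpτ (p m * sig (x 0))
      rwa [hpfix _ (mul_mem_A2 _ _)] at this
    | cons b t ih =>
      cases b
      · have e1 : D.Uop x (false :: t) m = τ (sig (x (t.length + 1)) * p (D.Uop x t m)) := rfl
        have e2 : Uw F (fun j => sig (x j)) (false :: t) (p m) =
            sig (x (t.length + 1)) * Uw F (fun j => sig (x j)) t (p m) := rfl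
        rw [e1, e2, ← hcr _ ih]
        have := hpτ (sig (x (t.length + 1)) * p (D.Uop x t m))
        rwa [hpfix _ (mul_mem_A2 _ _)] at this
      · have e1 : D.Uop x (true :: t) m = τ (p (D.Uop x t m) * sig (x (t.length + 1))) := rfl
        have e2 : Uw F (fun j => sig (x j)) (true :: t) (p m) =
            Uw F (fun j => sig (x j)) t (p m) * sig (x (t.length + 1)) := rfl
        rw [e1, e2, ← hcl _ ih]
        have := hpτ (p (D.Uop x t m) * sig (x (t.length + 1)))
        rwa [hpfix _ (mul_mem_A2 _ _)] at this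
  have hG : ∀ (l : List (A ⧸ A2 F A)) (m : A),
      p (l.foldr (fun v m => D.R v m) m) - Gw F (l.map sig) (p m) ∈ Dd F A := by
    intro l m
    induction l with
    | nil =>
      have e1 : ([] : List (A ⧸ A2 F A)).foldr (fun v m => D.R v m) m = m := rfl
      have e2 : Gw F (([] : List (A ⧸ A2 F A)).map sig) (p m) = p m := rfl
      rw [e1, e2, sub_self]
      exact Submodule.zero_mem _
    | cons v l ih =>
      have e1 : (v :: l).foldr (fun v m => D.R v m) m =
          τ (p (l.foldr (fun v m => D.R v m) m) * sig v) := rfl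
      have e2 : Gw F ((v :: l).map sig) (p m) = Gw F (l.map sig) (p m) * sig v := rfl
      rw [e1, e2, ← hcl _ ih]
      have := hpτ (p (l.foldr (fun v m => D.R v m) m) * sig v)
      rwa [hpfix _ (mul_mem_A2 _ _)] at this
  have hAlt : ∀ (k : ℕ) (z : ℕ → A ⧸ A2 F A) (m : A),
      p (D.Altop k z m) - Aw F k (fun j => sig (z j)) (p m) ∈ Dd F A := by
    intro k z m
    rw [Aw_apply]
    unfold Data.Altop
    rw [map_sum, ← Finset.sum_sub_distrib]
    refine Submodule.sum_mem _ fun σ _ => ?_
    rw [Units.smul_def, map_zsmul, ← smul_sub]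
    have e1 := hG (List.ofFn (fun i => z (σ i))) m
    rw [List.map_ofFn] at e1
    exact zsmul_mem e1 _
  refine ⟨A ⧸ A2 F A, A, inferInstance, inferInstance, inferInstance, inferInstance, D,
    fd_quot s hs, ?_, ?_⟩
  · intro k t ht x z m m'
    rw [hDgam]
    simp only [map_zero, zero_add]
    rw [hcl _ (hU x t m), hcr _ (hAlt k z m'),
      words_zero (h3 k t ht) _ _ (hpA2 m) (hpA2 m'), map_zero]
  · let Ψ : A →ₙₐ[F] D.Alg :=
      { toFun := fun b => D.elt (lam b) (τ (p b)) (ψ b)
        map_smul' := by
          intro c b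
          apply Data.alg_ext <;> simp
        map_zero' := by
          apply Data.alg_ext <;> simp
        map_add' := by
          intro b c
          apply Data.alg_ext <;> simp
        map_mul' := by
          intro b c
          have eb : sig (lam b) + p b = b := by rw [hp1]; abel
          have ec : sig (lam c) + p c = c := by rw [hp1]; abel
          apply Data.alg_ext
          · rw [Data.pv_mul, Data.pv_elt]
            exact hlam0 _ (mul_mem_A2 _ _)
          · rw [Data.pm_mul, Data.pm_elt]
            simp only [Data.pv_elt, Data.pm_elt]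
            rw [hDmu, hDR, hDL, hcl _ (hpτ (p b)), hcr _ (hpτ (p c)), hpfix _ (hpA2 b),
              hpfix _ (hpA2 c), hpfix _ (mul_mem_A2 b c), ← map_add, ← map_add]
            have e1 : b * c = (sig (lam b) * sig (lam c) + p b * sig (lam c) +
                sig (lam b) * p c) + p b * p c := by
              conv_lhs => rw [← eb, ← ec]
              rw [add_mul, mul_add, mul_add]
              abel
            rw [e1, map_add τ _ (p b * p c), hτ0 _ (A2_mul_A2 (hpA2 b) (hpA2 c)), add_zero]
          · rw [Data.pc_mul, Data.pc_elt]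
            simp only [Data.pv_elt, Data.pm_elt]
            rw [hDgam]
            have e1 : (sig (lam b) + p (τ (p b))) - b ∈ Dd F A := by
              have := hpτ (p b)
              rw [hpfix _ (hpA2 b)] at this
              have e2 : sig (lam b) + p (τ (p b)) - b = p (τ (p b)) - (b - sig (lam b)) := by
                abel
              rw [e2, ← hp1 b]; exact this
            have e3 : (sig (lam c) + p (τ (p c))) - c ∈ Dd F A := by
              have := hpτ (p c)
              rw [hpfix _ (hpA2 c)] at this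
              have e2 : sig (lam c) + p (τ (p c)) - c = p (τ (p c)) - (c - sig (lam c)) := by
                abel
              rw [e2, ← hp1 c]; exact this
            rw [hcl _ e1, hcr _ e3] }
    exact ⟨Ψ, hψ⟩

end H91RFD
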