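import Pool.Agent.H91R2.RFD.TruncDefs

open FreeNonUnitalNonAssocAlgebra

namespace H91RFD

universe u v w

namespace Data

variable {F : Type u} {V : Type v} {M : Type w} [Field F] [AddCommGroup V] [Module F V]
    [AddCommGroup M] [Module F M]

/-- Operator words as a multilinear map. -/
noncomputable def wordMap (D : Data F V M) (n : ℕ) :
    MultilinearMap F (fun _ : Fin (n + 1) => V) (Module.End F M) :=
  (MultilinearMap.mkPiAlgebraFin F (n + 1) (Module.End F M)).compLinearMap (fun _ => D.R)

theorem prod_ops_apply (D : Data F V M) (l : List V) (m : M) :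
    ((l.map (fun v => (D.R v : Module.End F M))).prod) m = l.foldr (fun v m => D.R v m) m := by
  induction l with
  | nil => simp
  | cons a l ih => simp only [List.map_cons, List.prod_cons, List.foldr_cons, Module.End.mul_apply,
      ih]

theorem wordMap_apply (D : Data F V M) (n : ℕ) (v : Fin (n + 1) → V) (m : M) :
    D.wordMap n v m = (List.ofFn v).foldr (fun v m => D.R v m) m := by
  rw [← prod_ops_apply, List.map_ofFn]
  rfl

theorem Altop_eq_alt (D : Data F V M) (n : ℕ) (z : ℕ → V) (m : M) :
    D.Altop n z m = (MultilinearMap.alternatization (D.wordMap n) (fun i => z i)) m := by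
  rw [MultilinearMap.alternatization_apply, LinearMap.sum_apply]
  unfold Altop
  refine Finset.sum_congr rfl fun σ _ => ?_
  rw [MultilinearMap.domDomCongr_apply]
  have h := wordMap_apply D n (fun i => z (σ i)) m
  rw [← h]
  rcases Int.units_eq_one_or (Equiv.Perm.sign σ) with h | h <;> simp [h]

/-- Task G1: the alternating sum vanishes if `dim V ≤ n`. -/
theorem Altop_eq_zero (D : Data F V M) [FiniteDimensional F V] (n : ℕ)
    (hn : Module.finrank F V ≤ n) (z : ℕ → V) (m : M) : D.Altop n z m = 0 := by
  rw [Altop_eq_alt, AlternatingMap.map_linearDependent]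
  · simp
  · intro h
    have := h.fintype_card_le_finrank
    simp at this
    omega

theorem psum_succ (l : ℕ) (y : ℕ → M) : psum F (l + 1) y = psum F l y + y (l + 1) := by
  simp only [psum, Finset.sum_range_succ _ (l + 1), LinearMap.add_apply, LinearMap.proj_apply]

theorem psum_zero (y : ℕ → M) : psum F 0 y = y 0 := by
  simp [psum]

theorem psum_step (ρ : M →ₗ[F] M) (N : ℕ) (g : M →ₗ[F] M) (y : ℕ → M) (l : ℕ) (hl : l + 1 ≤ N) :
    psum F (l + 1) (step ρ N g y) = g (psum F l y) := by
  induction l with
  | zero => rw [psum_succ, psum_zero, psum_zero, step_zero, step_one]; abel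
  | succ l ih =>
    rw [psum_succ, ih (by omega), step_two, if_pos hl, psum_succ l y, map_add]

theorem psum_Uop (D : Data F V M) (ρ : M →ₗ[F] M) (N : ℕ) (x : ℕ → V) (t : List Bool) (k : ℕ)
    (hk : k + t.length + 1 ≤ N) (y : ℕ → M) :
    psum F (k + t.length + 1) ((D.trunc ρ N).Uop x t y) = D.Uop x t (psum F k y) := by
  induction t with
  | nil => exact psum_step ρ N _ y k hk
  | cons b t ih =>
    rw [List.length_cons] at hk
    have ih' := ih (by omega)
    cases b with
    | true =>
      have h := psum_step ρ N (D.R (x (t.length + 1))) ((D.trunc ρ N).Uop x t y)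
        (k + t.length + 1) (by omega)
      rw [ih'] at h
      exact h
    | false =>
      have h := psum_step ρ N (D.L (x (t.length + 1))) ((D.trunc ρ N).Uop x t y)
        (k + t.length + 1) (by omega)
      rw [ih'] at h
      exact h

theorem psum_foldr (D : Data F V M) (ρ : M →ₗ[F] M) (N : ℕ) (l : List V) (k : ℕ)
    (hk : k + l.length ≤ N) (y : ℕ → M) :
    psum F (k + l.length) (l.foldr (fun v m => (D.trunc ρ N).R v m) y) =
      l.foldr (fun v m => D.R v m) (psum F k y) := by
  induction l with
  | nil => rfl
  | cons a l ih =>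
    rw [List.length_cons] at hk
    have ih' := ih (by omega)
    have h := psum_step ρ N (D.R a) (l.foldr (fun v m => (D.trunc ρ N).R v m) y)
      (k + l.length) (by omega)
    rw [ih'] at h
    exact h

theorem psum_Altop (D : Data F V M) (ρ : M →ₗ[F] M) (N : ℕ) (n : ℕ) (z : ℕ → V) (k : ℕ)
    (hk : k + (n + 1) ≤ N) (y : ℕ → M) :
    psum F (k + (n + 1)) ((D.trunc ρ N).Altop n z y) = D.Altop n z (psum F k y) := by
  unfold Altop
  rw [map_sum]
  refine Finset.sum_congr rfl fun σ _ => ?_
  have h := psum_foldr D ρ N (List.ofFn (fun i : Fin (n + 1) => z (σ i))) k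
    (by rw [List.length_ofFn]; exact hk) y
  rw [List.length_ofFn] at h
  rw [← h]
  rcases Int.units_eq_one_or (Equiv.Perm.sign σ) with h | h
  · rw [h, one_smul, one_smul]
  · rw [h, Units.neg_smul, Units.neg_smul, one_smul, one_smul, map_neg]

/-- Task G2: the truncated data satisfy (★) if the rows `Z n`, `n < dim V`, are bounded by `N`. -/
theorem star_trunc (D : Data F V M) [FiniteDimensional F V] (Z : ℕ → Set ℕ) (hD : D.Star Z)
    (ρ : M →ₗ[F] M) (N : ℕ) (hN : Module.finrank F V ≤ N)
    (hZ : ∀ n < Module.finrank F V, ∀ i ∈ Z n, i + 1 ≤ N) : (D.trunc ρ N).Star Z := by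
  intro n t ht x z m m'
  by_cases hn : Module.finrank F V ≤ n
  · rw [Altop_eq_zero _ n hn]
    have : ((0 : V), (0 : ℕ → M)) = 0 := rfl
    rw [this, map_zero]
  · push Not at hn
    have h1 := hZ n hn _ ht
    rw [trunc_gam]
    have e1 : psum F N ((D.trunc ρ N).Uop x t m) = D.Uop x t (psum F (N - t.length - 1) m) := by
      have h := psum_Uop D ρ N x t (N - t.length - 1) (by omega) m
      rwa [show N - t.length - 1 + t.length + 1 = N by omega] at h
    have e2 : psum F N ((D.trunc ρ N).Altop n z m') = D.Altop n z (psum F (N - n - 1) m') := by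
      have h := psum_Altop D ρ N n z (N - n - 1) (by omega) m'
      rwa [show N - n - 1 + (n + 1) = N by omega] at h
    simp only [e1, e2]
    exact hD n t ht x z _ _

end Data

end H91RFD
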