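import Pool.Agent.H91R2.RFD.Top

open FreeNonUnitalNonAssocAlgebra

namespace H91RFD

universe u v w

/-- Π⁰₃-hardness of the class of RFD-varieties in the space of T-ideals. -/
theorem hardness (F : Type u) [Field F] [CharZero F] {X : Type v} [TopologicalSpace X]
    (U : ℕ → ℕ → ℕ → Set X) (hU : ∀ n m k, IsClopen (U n m k)) :
    ∃ Φ : X → (Poly F → Bool), Continuous Φ ∧
      (∀ x, IsTIdeal F {p | Φ x p = true} ∧ Φ x (B1 F) = true ∧ Φ x (B2 F) = true) ∧
      ∀ x, RFDVariety F {p | Φ x p = true} ↔ ∀ n, ∃ m, ∀ k, x ∈ U n m k := by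
  classical
  obtain ⟨Z, ℓ, hℓ, hZℓ, hZc, hfin, hlong⟩ := exists_coding U hU
  have key : ∀ x, {p | decide (p ∈ tspan F (Sys F (Z x))) = true} =
      (tspan F (Sys F (Z x)) : Set (Poly F)) := by
    intro x; ext p; simp
  refine ⟨fun x p => decide (p ∈ tspan F (Sys F (Z x))), ?_, ?_, ?_⟩
  · refine continuous_pi fun p => ?_
    have hcl := isClopen_tspan (F := F) Z hZc p
    rw [continuous_discrete_rng]
    intro b
    cases b
    · have : (fun x => decide (p ∈ tspan F (Sys F (Z x)))) ⁻¹' {false} =
          {x | p ∈ tspan F (Sys F (Z x))}ᶜ := by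
        ext x; simp
      rw [this]; exact hcl.compl.isOpen
    · have : (fun x => decide (p ∈ tspan F (Sys F (Z x)))) ⁻¹' {true} =
          {x | p ∈ tspan F (Sys F (Z x))} := by
        ext x; simp
      rw [this]; exact hcl.isOpen
  · intro x
    refine ⟨?_, ?_, ?_⟩
    · rw [key x]; exact tspan_isTIdeal F _
    · exact decide_eq_true (subset_tspan F _ (Or.inl (Or.inl rfl)))
    · exact decide_eq_true (subset_tspan F _ (Or.inl (Or.inr rfl)))
  · intro x
    show RFDVariety F {p | decide (p ∈ tspan F (Sys F (Z x))) = true} ↔ _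
    rw [key x, rfdVariety_tspan]
    constructor
    · intro h n
      by_contra hn
      exact not_rfd_Sys F (Z x) ℓ hℓ (hZℓ x) n (hlong x n hn) h
    · intro h
      exact rfd_Sys F (Z x) fun n => hfin x n (h n)

/-- The class of RFD-varieties is not Σ⁰₃, even within the T-ideals containing `B1`, `B2`. -/
theorem not_sigma (F : Type u) [Field F] [CharZero F] :
    ¬ ∃ O : ℕ → ℕ → Set (Poly F → Bool), (∀ n m, IsOpen (O n m)) ∧
      ∀ σ : Poly F → Bool, IsTIdeal F {p | σ p = true} → σ (B1 F) = true → σ (B2 F) = true →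
        (RFDVariety F {p | σ p = true} ↔ ∃ n, ∀ m, σ ∈ O n m) := by
  intro ⟨O, hO, h⟩
  apply not_sigma_of_hard
    {σ : Poly F → Bool | IsTIdeal F {p | σ p = true} ∧ σ (B1 F) = true ∧ σ (B2 F) = true}
    (fun σ => RFDVariety F {p | σ p = true})
    (fun U hU => hardness F U hU)
  exact ⟨O, hO, fun σ hσ => h σ hσ.1 hσ.2.1 hσ.2.2⟩

/-- A variety of algebras with zero multiplication is an RFD-variety. -/
theorem rfd_of_zero_mul (F : Type u) [Field F] (S : Set (Poly F))
    (hS : (X F 0 * X F 1 : Poly F) ∈ S) : RFDVariety F S := by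
  intro A _ _ _ _ hfp a ha
  obtain ⟨n, R, s, hR, hs, hker⟩ := hfp
  have hA : InVar F A S := inVar_of_ker hs hker
  have hz : ∀ a b : A, a * b = 0 := by
    intro a b
    have := hA _ hS (fun j => if j = 0 then a else b)
    simpa [X] using this
  refine ⟨⊥, ?_, ?_, by simpa using ha⟩
  · intro x hx b
    rw [Submodule.mem_bot] at hx
    subst hx
    simp
  · have hfd : FiniteDimensional F A := by
      let E : Submodule F A := Submodule.span F (Set.range s)
      have hE : ∀ q, lift F s q ∈ E := by
        intro q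
        apply free_mem (Submodule.comap (lift F s : Free F (Fin n) →ₗ[F] A) E)
        · intro y
          show lift F s _ ∈ E
          rw [lift_of_apply]
          exact Submodule.subset_span ⟨y, rfl⟩
        · intro p _ q _
          show lift F s (p * q) ∈ E
          rw [map_mul, hz]
          exact E.zero_mem
      have hE' : E = ⊤ := by
        rw [eq_top_iff]
        intro a _
        obtain ⟨q, rfl⟩ := hs a
        exact hE q
      have : FiniteDimensional F E := FiniteDimensional.span_of_finite F (Set.finite_range s)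
      rw [hE'] at this
      exact (Submodule.topEquiv (R := F) (M := A)).finiteDimensional
    exact inferInstance

theorem Sys_mono (F : Type u) [Field F] {Z Z' : ℕ → Set ℕ} (h : ∀ n, Z n ⊆ Z' n) :
    Sys F Z ⊆ Sys F Z' := by
  rintro p (hp | ⟨n, t, ht, rfl⟩)
  · exact Or.inl hp
  · exact Or.inr ⟨n, t, h n ht, rfl⟩

/-- An increasing sequence of finite systems of identities defining RFD-varieties whose union
does not define an RFD-variety, although adding one more identity again gives one. -/
theorem chain (F : Type u) [Field F] :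
    ∃ S : ℕ → Set (Poly F), Monotone S ∧ S 0 = {B1 F, B2 F} ∧
      (∀ j, (S j).Finite ∧ RFDVariety F (S j)) ∧ ¬ RFDVariety F (⋃ j, S j) ∧
      RFDVariety F ((⋃ j, S j) ∪ {X F 0 * X F 1}) := by
  obtain ⟨Z, ℓ, hℓ, hZℓ, -, -, hlong⟩ := exists_coding (X := Unit)
    (fun _ _ _ => ∅) (fun _ _ _ => isClopen_empty)
  have hlong0 := hlong () 0 (by simp)
  let Y : ℕ → ℕ → Set ℕ := fun j n => if n = 0 then {i | i ∈ Z () 0 ∧ i < j} else ∅
  let Y' : ℕ → Set ℕ := fun n => if n = 0 then Z () 0 else ∅
  have hU : (⋃ j, Sys F (Y j)) = Sys F Y' := by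
    apply Set.Subset.antisymm
    · apply Set.iUnion_subset
      intro j
      apply Sys_mono
      intro n
      by_cases hn : n = 0
      · simp only [Y, Y', hn, if_true]; exact fun i hi => hi.1
      · simp [Y, Y', hn]
    · rintro p (hp | ⟨n, t, ht, rfl⟩)
      · exact Set.mem_iUnion.2 ⟨0, Or.inl hp⟩
      · by_cases hn : n = 0
        · subst hn
          simp only [Y', if_true] at ht
          refine Set.mem_iUnion.2 ⟨t.length + 1, Or.inr ⟨0, t, ?_, rfl⟩⟩
          simp only [Y, if_true]
          exact ⟨ht, Nat.lt_succ_self _⟩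
        · simp [Y', hn] at ht
  refine ⟨fun j => Sys F (Y j), ?_, ?_, ?_, ?_, ?_⟩
  · intro j j' hjj'
    apply Sys_mono
    intro n
    by_cases hn : n = 0
    · simp only [Y, hn, if_true]; exact fun i hi => ⟨hi.1, lt_of_lt_of_le hi.2 hjj'⟩
    · simp [Y, hn]
  · show Sys F (Y 0) = _
    apply Set.Subset.antisymm
    · rintro p (hp | ⟨n, t, ht, rfl⟩)
      · exact hp
      · by_cases hn : n = 0
        · simp [Y, hn] at ht
        · simp [Y, hn] at ht
    · exact fun p hp => Or.inl hp
  · intro j
    constructor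
    · have h1 : Set.Finite {t : List Bool | t.length < j} := List.finite_length_lt Bool j
      have h2 : Sys F (Y j) ⊆ {B1 F, B2 F} ∪ (pnt F 0) '' {t : List Bool | t.length < j} := by
        rintro p (hp | ⟨n, t, ht, rfl⟩)
        · exact Or.inl hp
        · by_cases hn : n = 0
          · subst hn
            simp only [Y, if_true] at ht
            exact Or.inr ⟨t, ht.2, rfl⟩
          · simp [Y, hn] at ht
      exact Set.Finite.subset (Set.Finite.union (by simp) (h1.image _)) h2
    · apply rfd_Sys
      intro n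
      by_cases hn : n = 0
      · simp only [Y, hn, if_true]
        exact (Set.finite_lt_nat j).subset fun i hi => hi.2
      · simp [Y, hn]
  · show ¬ RFDVariety F (⋃ j, Sys F (Y j))
    rw [hU]
    apply not_rfd_Sys F Y' ℓ hℓ _ 0
    · intro d
      obtain ⟨c, c', h1, h2, h3⟩ := hlong0 d
      exact ⟨c, c', h1, h2, fun l hl => by simpa [Y'] using h3 l hl⟩
    · intro n i hi
      by_cases hn : n = 0
      · simp only [Y', hn, if_true] at hi; exact hZℓ () 0 i hi
      · simp [Y', hn] at hi
  · exact rfd_of_zero_mul F _ (Or.inr rfl)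

end H91RFD
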