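import Pool.Agent.H91R2.RFD.Defs

open FreeNonUnitalNonAssocAlgebra

namespace H91RFD

universe u v w

/-- Basic clopen subsets of Cantor space. -/
def cyl (c : Finset ℕ × Finset ℕ) : Set (ℕ → Bool) := {x | ∀ i ∈ c.1, (x i = true ↔ i ∈ c.2)}

theorem isClopen_cyl (c : Finset ℕ × Finset ℕ) : IsClopen (cyl c) := by
  have : cyl c = ⋂ i ∈ c.1, {x : ℕ → Bool | (x i = true ↔ i ∈ c.2)} := by
    ext x; simp [cyl]
  rw [this]
  apply Set.Finite.isClopen_biInter (Finset.finite_toSet _)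
  intro i _
  have : {x : ℕ → Bool | (x i = true ↔ i ∈ c.2)} =
      (fun x : ℕ → Bool => x i) ⁻¹' {b | (b = true ↔ i ∈ c.2)} := rfl
  rw [this]
  exact (isClopen_discrete _).preimage (continuous_apply i)

theorem exists_cyl {V : Set (ℕ → Bool)} (hV : IsOpen V) {x : ℕ → Bool} (hx : x ∈ V) :
    ∃ c, x ∈ cyl c ∧ cyl c ⊆ V := by
  classical
  obtain ⟨I, u, hu, hsub⟩ := isOpen_pi_iff.1 hV x hx
  refine ⟨(I, I.filter fun i => x i = true), ?_, ?_⟩
  · intro i hi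
    simp at hi
    simp [hi]
  · intro y hy
    apply hsub
    intro i hi
    have h1 := hy i hi
    have : y i = x i := by
      simp only [Finset.mem_filter] at h1
      have hi' : i ∈ I := hi
      simp only [hi', true_and] at h1
      cases hxi : x i <;> cases hyi : y i <;> simp_all
    rw [this]
    exact (hu i hi).2

/-- Task M: a Π⁰₃-hard set is not Σ⁰₃ (diagonal argument on Cantor space). -/
theorem not_sigma_of_hard {Y : Type v} [TopologicalSpace Y] (K : Set Y) (P : Y → Prop)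
    (hard : ∀ U : ℕ → ℕ → ℕ → Set (ℕ → Bool), (∀ n m k, IsClopen (U n m k)) →
      ∃ Φ : (ℕ → Bool) → Y, Continuous Φ ∧ (∀ x, Φ x ∈ K) ∧
        ∀ x, P (Φ x) ↔ ∀ n, ∃ m, ∀ k, x ∈ U n m k) :
    ¬ ∃ O : ℕ → ℕ → Set Y, (∀ n m, IsOpen (O n m)) ∧
      ∀ y ∈ K, (P y ↔ ∃ n, ∀ m, y ∈ O n m) := by
  classical
  rintro ⟨O, hO, hP⟩
  let e : ℕ → Finset ℕ × Finset ℕ := fun c => (Encodable.decode c).getD (∅, ∅)
  have he : ∀ d, ∃ c, e c = d := fun d => ⟨Encodable.encode d, by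
    simp only [e, Encodable.encodek, Option.getD_some]⟩
  let U : ℕ → ℕ → ℕ → Set (ℕ → Bool) := fun n m c =>
    {x | ¬ (x (Nat.pair n (Nat.pair m c)) = true ∧ x ∈ cyl (e c))}
  have hU : ∀ n m k, IsClopen (U n m k) := by
    intro n m c
    have h1 : IsClopen {x : ℕ → Bool | x (Nat.pair n (Nat.pair m c)) = true} := by
      have : {x : ℕ → Bool | x (Nat.pair n (Nat.pair m c)) = true} =
        (fun x : ℕ → Bool => x (Nat.pair n (Nat.pair m c))) ⁻¹' {true} := rfl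
      rw [this]
      exact (isClopen_discrete _).preimage (continuous_apply _)
    have : U n m c = ({x : ℕ → Bool | x (Nat.pair n (Nat.pair m c)) = true} ∩ cyl (e c))ᶜ := rfl
    rw [this]
    exact (h1.inter (isClopen_cyl _)).compl
  obtain ⟨Φ, hΦc, hΦK, hΦ⟩ := hard U hU
  let x0 : ℕ → Bool := fun j =>
    decide (cyl (e (Nat.unpair (Nat.unpair j).2).2) ⊆
      Φ ⁻¹' (O (Nat.unpair j).1 (Nat.unpair (Nat.unpair j).2).1))
  have hx0 : ∀ n m c, x0 (Nat.pair n (Nat.pair m c)) = true ↔ cyl (e c) ⊆ Φ ⁻¹' (O n m) := by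
    intro n m c
    simp [x0]
  have hV : ∀ n m, Φ x0 ∈ O n m ↔ ∃ c, x0 (Nat.pair n (Nat.pair m c)) = true ∧ x0 ∈ cyl (e c) := by
    intro n m
    constructor
    · intro h
      obtain ⟨d, hd1, hd2⟩ := exists_cyl ((hO n m).preimage hΦc) h
      obtain ⟨c, rfl⟩ := he d
      exact ⟨c, (hx0 n m c).2 hd2, hd1⟩
    · rintro ⟨c, h1, h2⟩
      exact (hx0 n m c).1 h1 h2
  have h1 := hP (Φ x0) (hΦK x0)
  have h2 := hΦ x0
  by_cases hp : P (Φ x0)
  · obtain ⟨n, hn⟩ := h1.1 hp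
    obtain ⟨m, hm⟩ := (h2.1 hp) n
    obtain ⟨c, hc⟩ := (hV n m).1 (hn m)
    exact hm c hc
  · apply hp
    rw [h2]
    intro n
    by_contra hcon
    push Not at hcon
    apply hp
    rw [h1]
    refine ⟨n, fun m => ?_⟩
    obtain ⟨c, hc⟩ := hcon m
    rw [hV]
    refine ⟨c, ?_⟩
    by_contra h
    exact hc h

end H91RFD
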