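import Pool.Agent.H91R2.RFD.Defs

open FreeNonUnitalNonAssocAlgebra

namespace H91RFD

universe u v w

section
variable {F : Type u} [Field F] {A : Type v} [NonUnitalNonAssocRing A] [Module F A]

omit [Field F] [Module F A] in
theorem Uval_nil (u₁ u₂ : A) (x : ℕ → A) : Uval u₁ u₂ x [] = (u₁ * u₂) * x 0 := rfl

/-- homomorphisms commute with the words -/
theorem map_Uval {B : Type w} [NonUnitalNonAssocRing B] [Module F B] (f : A →ₙₐ[F] B) (u₁ u₂ : A)
    (x : ℕ → A) (t : List Bool) : f (Uval u₁ u₂ x t) = Uval (f u₁) (f u₂) (fun j => f (x j)) t := by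
  induction t with
  | nil => simp [Uval]
  | cons b t ih => cases b <;> simp [Uval, ih]

theorem map_foldr {B : Type w} [NonUnitalNonAssocRing B] [Module F B] (f : A →ₙₐ[F] B) (a : A)
    (l : List A) : f (l.foldr (fun v m => m * v) a) =
      (l.map f).foldr (fun v m => m * v) (f a) := by
  induction l with
  | nil => simp
  | cons v l ih => simp [ih]

theorem map_Altval {B : Type w} [NonUnitalNonAssocRing B] [Module F B] (f : A →ₙₐ[F] B) (n : ℕ)
    (w₁ w₂ : A) (z : ℕ → A) :
    f (Altval n w₁ w₂ z) = Altval n (f w₁) (f w₂) (fun j => f (z j)) := by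
  unfold Altval
  rw [map_sum]
  apply Finset.sum_congr rfl
  intro σ _
  rw [Units.smul_def, Units.smul_def, map_zsmul, map_foldr, List.map_ofFn, map_mul]
  rfl

variable [IsScalarTower F A A] [SMulCommClass F A A]

theorem sat_B1 : Sat F A (B1 F) ↔ ∀ x y z t v : A, ((x * y) * (z * t)) * v = 0 := by
  constructor
  · intro h x y z t v
    have := h (fun j => if j = 0 then x else if j = 1 then y else if j = 2 then z
      else if j = 3 then t else v)
    simpa [B1, X] using this
  · intro h v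
    simpa [B1, X] using h (v 0) (v 1) (v 2) (v 3) (v 4)

theorem sat_B2 : Sat F A (B2 F) ↔ ∀ x y z t v : A, v * ((x * y) * (z * t)) = 0 := by
  constructor
  · intro h x y z t v
    have := h (fun j => if j = 0 then x else if j = 1 then y else if j = 2 then z
      else if j = 3 then t else v)
    simpa [B2, X] using this
  · intro h v
    simpa [B2, X] using h (v 0) (v 1) (v 2) (v 3) (v 4)

theorem sat_pnt (n : ℕ) (t : List Bool) : Sat F A (pnt F n t) ↔
    ∀ (u₁ u₂ w₁ w₂ : A) (x z : ℕ → A), Uval u₁ u₂ x t * Altval n w₁ w₂ z = 0 := by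
  constructor
  · intro h u₁ u₂ w₁ w₂ x z
    have := h (fun j => if j = 0 then u₁ else if j = 1 then u₂ else if j = 2 then w₁
      else if j = 3 then w₂ else if j % 2 = 0 then x ((j - 4) / 2) else z ((j - 5) / 2))
    unfold pnt at this
    rw [map_mul, map_Uval, map_Altval] at this
    simp only [X, lift_of_apply] at this
    have e1 : ∀ j : ℕ, (if 4 + 2 * j = 0 then u₁ else if 4 + 2 * j = 1 then u₂
        else if 4 + 2 * j = 2 then w₁ else if 4 + 2 * j = 3 then w₂
        else if (4 + 2 * j) % 2 = 0 then x ((4 + 2 * j - 4) / 2)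
        else z ((4 + 2 * j - 5) / 2)) = x j := by
      intro j
      have h0 : ¬ (4 + 2 * j = 0) := by omega
      have h1 : ¬ (4 + 2 * j = 1) := by omega
      have h2 : ¬ (4 + 2 * j = 2) := by omega
      have h3 : ¬ (4 + 2 * j = 3) := by omega
      have h4 : (4 + 2 * j) % 2 = 0 := by omega
      have h5 : (4 + 2 * j - 4) / 2 = j := by omega
      rw [if_neg h0, if_neg h1, if_neg h2, if_neg h3, if_pos h4, h5]
    have e2 : ∀ j : ℕ, (if 5 + 2 * j = 0 then u₁ else if 5 + 2 * j = 1 then u₂
        else if 5 + 2 * j = 2 then w₁ else if 5 + 2 * j = 3 then w₂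
        else if (5 + 2 * j) % 2 = 0 then x ((5 + 2 * j - 4) / 2)
        else z ((5 + 2 * j - 5) / 2)) = z j := by
      intro j
      have h0 : ¬ (5 + 2 * j = 0) := by omega
      have h1 : ¬ (5 + 2 * j = 1) := by omega
      have h2 : ¬ (5 + 2 * j = 2) := by omega
      have h3 : ¬ (5 + 2 * j = 3) := by omega
      have h4 : ¬ ((5 + 2 * j) % 2 = 0) := by omega
      have h5 : (5 + 2 * j - 5) / 2 = j := by omega
      rw [if_neg h0, if_neg h1, if_neg h2, if_neg h3, if_neg h4, h5]
    simp only [e1, e2] at this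
    simpa using this
  · intro h v
    unfold pnt
    rw [map_mul, map_Uval, map_Altval]
    exact h _ _ _ _ _ _

theorem inVar_Sys (Z : ℕ → Set ℕ) : InVar F A (Sys F Z) ↔
    (∀ x y z t v : A, ((x * y) * (z * t)) * v = 0) ∧
    (∀ x y z t v : A, v * ((x * y) * (z * t)) = 0) ∧
    ∀ n, ∀ t : List Bool, t.length ∈ Z n →
      ∀ (u₁ u₂ w₁ w₂ : A) (x z : ℕ → A), Uval u₁ u₂ x t * Altval n w₁ w₂ z = 0 := by
  rw [← sat_B1 (F := F), ← sat_B2 (F := F)]
  constructor
  · intro h
    refine ⟨h _ (Or.inl (Or.inl rfl)), h _ (Or.inl (Or.inr rfl)), ?_⟩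
    intro n t ht
    rw [← sat_pnt (F := F)]
    exact h _ (Or.inr ⟨n, t, ht, rfl⟩)
  · rintro ⟨h1, h2, h3⟩ p (hp | ⟨n, t, ht, rfl⟩)
    · rcases hp with rfl | hp
      · exact h1
      · rw [Set.mem_singleton_iff] at hp
        rw [hp]; exact h2
    · rw [sat_pnt]
      exact h3 n t ht
end

end H91RFD
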