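import Pool.Agent.H91R2.RFD.SatLemmas

open FreeNonUnitalNonAssocAlgebra

namespace H91RFD

universe u v w

section

variable {F : Type u} {V : Type v} {M : Type w} [Field F] [AddCommGroup V] [Module F V]
    [AddCommGroup M] [Module F M] (D : Data F V M)

theorem pv_Uval (u₁ u₂ : D.Alg) (x : ℕ → D.Alg) (t : List Bool) :
    D.pv (Uval u₁ u₂ x t) = 0 := by
  cases t with
  | nil => simp [Uval]
  | cons b t => cases b <;> simp [Uval]

theorem pm_Uval (u₁ u₂ : D.Alg) (x : ℕ → D.Alg) (t : List Bool) :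
    D.pm (Uval u₁ u₂ x t) = D.Uop (fun j => D.pv (x j)) t (D.pm (u₁ * u₂)) := by
  induction t with
  | nil => simp [Uval, Data.Uop]
  | cons b t ih =>
    cases b <;> simp [Uval, Data.Uop, pv_Uval, ih]

theorem pv_foldr (a : D.Alg) (ha : D.pv a = 0) (l : List D.Alg) :
    D.pv (l.foldr (fun v m => m * v) a) = 0 := by
  cases l with
  | nil => simpa using ha
  | cons v l => simp

theorem pm_foldr (a : D.Alg) (ha : D.pv a = 0) (l : List D.Alg) :
    D.pm (l.foldr (fun v m => m * v) a) =
      (l.map D.pv).foldr (fun v m => D.R v m) (D.pm a) := by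
  induction l with
  | nil => simp
  | cons v l ih => simp [pv_foldr D a ha, ih]

theorem pv_Altval (n : ℕ) (w₁ w₂ : D.Alg) (z : ℕ → D.Alg) : D.pv (Altval n w₁ w₂ z) = 0 := by
  unfold Altval
  rw [map_sum]
  apply Finset.sum_eq_zero
  intro σ _
  rw [Units.smul_def, map_zsmul, pv_foldr D _ (by simp), smul_zero]

theorem pm_Altval (n : ℕ) (w₁ w₂ : D.Alg) (z : ℕ → D.Alg) : D.pm (Altval n w₁ w₂ z) =
    D.Altop n (fun j => D.pv (z j)) (D.pm (w₁ * w₂)) := by
  unfold Altval Data.Altop
  rw [map_sum]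
  apply Finset.sum_congr rfl
  intro σ _
  rw [Units.smul_def, Units.smul_def, map_zsmul, pm_foldr D _ (by simp), List.map_ofFn]
  rfl

end

/-- Task E.  Condition (★) puts the three-layer algebra into the variety of `Sys F Z`. -/
theorem star_inVar {F : Type u} {V : Type v} {M : Type w} [Field F] [AddCommGroup V] [Module F V]
    [AddCommGroup M] [Module F M] (D : Data F V M) (Z : ℕ → Set ℕ) (h : D.Star Z) :
    InVar F D.Alg (Sys F Z) := by
  rw [inVar_Sys]
  have h00 : D.gam (0, 0) = 0 := by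
    rw [← Prod.zero_eq_mk, map_zero]
  refine ⟨?_, ?_, ?_⟩
  · intro x y z t v
    apply Data.alg_ext <;> simp [h00]
  · intro x y z t v
    apply Data.alg_ext <;> simp
    rw [← Prod.zero_eq_mk, map_zero]
  · intro n t ht u₁ u₂ w₁ w₂ x z
    apply Data.alg_ext
    · simp
    · simp [pv_Uval, pv_Altval]
    · rw [Data.pc_mul, pv_Uval, pv_Altval, pm_Uval, pm_Altval, h n t ht, map_zero]

end H91RFD
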