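import Pool.Agent.H91R2.RFD.Upper1

open FreeNonUnitalNonAssocAlgebra

namespace H91RFD

universe u v w

section countable

/-- the elements of `FreeMagma X` of height at most `n` -/
private def lev (X : Type v) : ℕ → Set (FreeMagma X)
  | 0 => Set.range FreeMagma.of
  | n + 1 => lev X n ∪ Set.image2 (fun x y => x * y) (lev X n) (lev X n)

private theorem lev_mono (X : Type v) {m n : ℕ} (h : m ≤ n) : lev X m ⊆ lev X n := by
  induction h with
  | refl => exact subset_rfl
  | step _ ih => exact ih.trans Set.subset_union_left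

private theorem lev_countable (X : Type v) [Countable X] (n : ℕ) : (lev X n).Countable := by
  induction n with
  | zero => exact Set.countable_range _
  | succ n ih => exact ih.union (ih.image2 ih _)

private theorem exists_lev (X : Type v) (x : FreeMagma X) : ∃ n, x ∈ lev X n := by
  induction x using FreeMagma.recOnMul with
  | ih1 x => exact ⟨0, ⟨x, rfl⟩⟩
  | ih2 x y hx hy =>
    obtain ⟨m, hm⟩ := hx
    obtain ⟨n, hn⟩ := hy
    exact ⟨max m n + 1, Or.inr ⟨x, lev_mono X (le_max_left m n) hm, y,
      lev_mono X (le_max_right m n) hn, rfl⟩⟩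

private theorem freeMagma_countable (X : Type v) [Countable X] : Countable (FreeMagma X) := by
  rw [← Set.countable_univ_iff]
  refine (Set.countable_iUnion (fun n => lev_countable X n)).mono ?_
  intro x _
  exact Set.mem_iUnion.2 (exists_lev X x)

private theorem free_countable (F : Type u) [Field F] [Countable F] (X : Type v) [Countable X] :
    Countable (Free F X) := by
  have : Countable (FreeMagma X) := freeMagma_countable X
  have : Countable (FreeMagma X →₀ F) := inferInstance
  refine Function.Injective.countable (f := fun p : Free F X => MonoidAlgebra.coeff p) ?_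
  intro p q h
  cases p
  cases q
  exact congrArg _ h

end countable

private theorem idealSpan_mono' {F : Type u} [Field F] {A : Type v} [NonUnitalNonAssocRing A]
    [Module F A] {X Y : Set A} (h : X ⊆ Y) : idealSpan F X ≤ idealSpan F Y :=
  idealSpan_le (idealSpan_isIdeal Y) (h.trans (subset_idealSpan Y))

private theorem verbal_mono' {F : Type u} [Field F] {X : Type v} {S T : Set (Poly F)}
    (h : S ⊆ T) : verbal F S X ⊆ verbal F T X := by
  rintro q ⟨p, hp, v, rfl⟩
  exact ⟨p, h hp, v, rfl⟩

/-- the first index -/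
private abbrev I1 (F : Type u) [Field F] : Type u :=
  Σ n : ℕ, Finset (Free F (Fin n)) × Free F (Fin n)

/-- the second index -/
private abbrev I2 (F : Type u) [Field F] (i : I1 F) : Type u :=
  Finset (Poly F) ⊕ Finset (Free F (Fin i.1))

/-- the sets -/
private def VV (F : Type u) [Field F] (i : I1 F) (j : I2 F i) (p : Poly F) :
    Set (Poly F → Bool) :=
  match j with
  | Sum.inl S₀ => {σ | i.2.2 ∈ idealSpan F ((i.2.1 : Set (Free F (Fin i.1))) ∪
      verbal F (S₀ : Set (Poly F)) (Fin i.1)) ∧ ∀ p ∈ S₀, σ p = true}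
  | Sum.inr G => {σ | (FiniteDimensional F (Free F (Fin i.1) ⧸
        idealSpan F (G : Set (Free F (Fin i.1)))) ∧
      (i.2.1 : Set (Free F (Fin i.1))) ⊆ idealSpan F (G : Set (Free F (Fin i.1))) ∧
      i.2.2 ∉ idealSpan F (G : Set (Free F (Fin i.1)))) ∧
      (σ p = true → verbal F {p} (Fin i.1) ⊆ idealSpan F (G : Set (Free F (Fin i.1))))}

private theorem clopen_const {X : Type*} [TopologicalSpace X] (P : Prop) :
    IsClopen {_x : X | P} := by
  by_cases h : P
  · have : {_x : X | P} = Set.univ := by ext; simp [h]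
    rw [this]; exact isClopen_univ
  · have : {_x : X | P} = ∅ := by ext; simp [h]
    rw [this]; exact isClopen_empty

private theorem clopen_coord (F : Type u) [Field F] (p : Poly F) :
    IsClopen {σ : Poly F → Bool | σ p = true} := by
  have : {σ : Poly F → Bool | σ p = true} = (fun σ : Poly F → Bool => σ p) ⁻¹' {true} := by
    ext σ; simp
  rw [this]
  exact (isClopen_discrete _).preimage (continuous_apply p)

private theorem clopen_VV (F : Type u) [Field F] (i : I1 F) (j : I2 F i) (p : Poly F) :
    IsClopen (VV F i j p) := by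
  cases j with
  | inl S₀ =>
    refine (clopen_const _).inter ?_
    have : {σ : Poly F → Bool | ∀ p ∈ S₀, σ p = true} =
        ⋂ p ∈ S₀, {σ : Poly F → Bool | σ p = true} := by
      ext σ; simp
    show IsClopen {σ : Poly F → Bool | ∀ p ∈ S₀, σ p = true}
    rw [this]
    exact isClopen_biInter_finset (fun p _ => clopen_coord F p)
  | inr G =>
    refine (clopen_const _).inter ?_
    have : {σ : Poly F → Bool | σ p = true → verbal F {p} (Fin i.1) ⊆
        idealSpan F (G : Set (Free F (Fin i.1)))} = {σ : Poly F → Bool | σ p = true}ᶜ ∪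
          {_σ : Poly F → Bool | verbal F {p} (Fin i.1) ⊆
            idealSpan F (G : Set (Free F (Fin i.1)))} := by
      ext σ
      simp only [Set.mem_ofPred_eq, Set.mem_union, Set.mem_compl_iff]
      tauto
    show IsClopen {σ : Poly F → Bool | σ p = true → verbal F {p} (Fin i.1) ⊆
        idealSpan F (G : Set (Free F (Fin i.1)))}
    rw [this]
    exact (clopen_coord F p).compl.union (clopen_const _)

private theorem main_iff (F : Type u) [Field F] (σ : Poly F → Bool) :
    RFDVariety F {p | σ p = true} ↔ ∀ i : I1 F, ∃ j : I2 F i, ∀ p, σ ∈ VV F i j p := by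
  rw [rfdVariety_iff]
  constructor
  · rintro h ⟨n, R, a⟩
    rcases h n R a with h | ⟨J, hJ, hfin, hR, hv, ha⟩
    · obtain ⟨S₀, hS, ha⟩ := exists_finset_idealSpan F _ n _ a h
      refine ⟨Sum.inl S₀, fun p => ⟨ha, fun q hq => hS hq⟩⟩
    · obtain ⟨G, rfl⟩ := finiteCodim_fg n J hJ hfin
      refine ⟨Sum.inr G, fun p => ⟨⟨hfin, hR, ha⟩, fun hp => ?_⟩⟩
      refine Set.Subset.trans (verbal_mono' ?_) hv
      intro q hq
      have hqp : q = p := hq
      rw [hqp]
      exact hp
  · intro h n R a
    obtain ⟨j, hj⟩ := h ⟨n, R, a⟩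
    cases j with
    | inl S₀ =>
      left
      obtain ⟨h1, h2⟩ := hj 0
      exact idealSpan_mono' (Set.union_subset_union_right _ (verbal_mono' fun q hq => h2 q hq)) h1
    | inr G =>
      right
      obtain ⟨⟨h1, h2, h3⟩, -⟩ := hj 0
      refine ⟨idealSpan F (G : Set (Free F (Fin n))), idealSpan_isIdeal _, h1, h2, ?_, h3⟩
      rintro q ⟨p, hp, v, rfl⟩
      exact (hj p).2 hp ⟨p, rfl, v, rfl⟩

/-- Task L4: the upper bound. -/
theorem upper_bound (F : Type u) [Field F] [Countable F] :
    ∃ U : ℕ → ℕ → ℕ → Set (Poly F → Bool), (∀ n m k, IsClopen (U n m k)) ∧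
      ∀ σ : Poly F → Bool, RFDVariety F {p | σ p = true} ↔ ∀ n, ∃ m, ∀ k, σ ∈ U n m k := by
  have c1 : Countable (Poly F) := free_countable F ℕ
  have c2 : ∀ n : ℕ, Countable (Free F (Fin n)) := fun n => free_countable F (Fin n)
  have c3 : Countable (I1 F) := inferInstance
  have c4 : ∀ i : I1 F, Countable (I2 F i) := fun i => inferInstance
  have n3 : Nonempty (I1 F) := ⟨⟨0, ∅, 0⟩⟩
  have n4 : ∀ i : I1 F, Nonempty (I2 F i) := fun i => ⟨Sum.inl ∅⟩
  have n1 : Nonempty (Poly F) := ⟨0⟩
  obtain ⟨f, hf⟩ := exists_surjective_nat (I1 F)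
  obtain ⟨h, hh⟩ := exists_surjective_nat (Poly F)
  choose g hg using fun i : I1 F => exists_surjective_nat (I2 F i)
  refine ⟨fun n m k => VV F (f n) (g (f n) m) (h k), fun n m k => clopen_VV F _ _ _, ?_⟩
  intro σ
  rw [main_iff]
  constructor
  · intro H n
    obtain ⟨j, hj⟩ := H (f n)
    obtain ⟨m, rfl⟩ := hg (f n) j
    exact ⟨m, fun k => hj _⟩
  · intro H i
    obtain ⟨n, rfl⟩ := hf i
    obtain ⟨m, hm⟩ := H n
    refine ⟨g (f n) m, fun p => ?_⟩
    obtain ⟨k, rfl⟩ := hh p
    exact hm k

end H91RFD
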