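import Pool.Agent.H91R2.RFD.LemC

open FreeNonUnitalNonAssocAlgebra

namespace H91RFD

universe u v w

namespace Words

/-- The value of a polynomial as a linear combination of the values of the words. -/
theorem lift_eq_sum {F : Type u} [Field F] {A : Type v} [NonUnitalNonAssocRing A] [Module F A]
    [IsScalarTower F A A] [SMulCommClass F A A] {X : Type w} (c : X → A) (q : Free F X) :
    lift F c q = q.coeff.sum fun w t => t • FreeMagma.lift c w := by
  unfold FreeNonUnitalNonAssocAlgebra.lift
  simp only [Equiv.trans_apply]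
  show (Finsupp.liftAddHom fun x => (smulAddHom F A).flip (FreeMagma.lift c x)) q.coeff = _
  rw [Finsupp.liftAddHom_apply]
  rfl

theorem finite_words {X : Type v} [Finite X] (d : ℕ) :
    {w : FreeMagma X | w.length ≤ d}.Finite := by
  induction d with
  | zero =>
    apply Set.Finite.subset Set.finite_empty
    intro w hw
    have := w.length_pos
    simp only [Set.mem_ofPred_eq] at hw
    omega
  | succ d ih =>
    have hfin : ((Set.range (FreeMagma.of : X → FreeMagma X)) ∪
      Set.image2 (fun a b : FreeMagma X => a * b) {w | w.length ≤ d} {w | w.length ≤ d}).Finite :=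
      (Set.finite_range _).union (Set.Finite.image2 _ ih ih)
    apply hfin.subset
    intro w hw
    cases w with
    | of x => exact Or.inl ⟨x, rfl⟩
    | mul a b =>
      right
      have h1 : (FreeMagma.mul a b).length = a.length + b.length := rfl
      have ha := a.length_pos
      have hb := b.length_pos
      simp only [Set.mem_ofPred_eq] at hw
      exact ⟨a, by simp only [Set.mem_ofPred_eq]; omega, b, by simp only [Set.mem_ofPred_eq]; omega,
        rfl⟩

/-- A projection onto a subspace. -/
theorem exists_proj {F : Type u} {M : Type w} [Field F] [AddCommGroup M] [Module F M]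
    (T : Submodule F M) : ∃ ρ : M →ₗ[F] M, (∀ m, ρ m ∈ T) ∧ ∀ m ∈ T, ρ m = m := by
  obtain ⟨g, hg⟩ := LinearMap.exists_leftInverse_of_injective T.subtype
    (Submodule.ker_subtype T)
  refine ⟨T.subtype.comp g, fun m => (g m).2, fun m hm => ?_⟩
  have := LinearMap.congr_fun hg ⟨m, hm⟩
  simp only [LinearMap.comp_apply, Submodule.subtype_apply, LinearMap.id_apply] at this
  simp [this]

section emb

variable {F : Type u} {V : Type v} {M : Type w} [Field F] [AddCommGroup V] [Module F V]
    [AddCommGroup M] [Module F M]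

open Data

theorem psum_single (N : ℕ) (m : M) : psum F N (Pi.single 0 m) = m := by
  unfold psum
  rw [LinearMap.sum_apply]
  simp only [LinearMap.proj_apply]
  rw [Finset.sum_eq_single 0]
  · simp
  · intro j _ hj
    exact Pi.single_eq_of_ne (M := fun _ => M) hj m
  · simp

/-- The linear embedding of the algebra of `D` into the algebra of the truncated data. -/
def emb (D : Data F V M) (ρ : M →ₗ[F] M) (N : ℕ) : D.Alg →ₗ[F] (D.trunc ρ N).Alg where
  toFun a := (D.trunc ρ N).elt (D.pv a) (Pi.single 0 (D.pm a)) (D.pc a)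
  map_add' a b := by
    apply alg_ext
    · simp
    · simp [Pi.single_add]
    · simp
  map_smul' t a := by
    apply alg_ext
    · simp
    · simp [Pi.single_smul]
    · simp

@[simp] theorem pv_emb (D : Data F V M) (ρ : M →ₗ[F] M) (N : ℕ) (a : D.Alg) :
    (D.trunc ρ N).pv (emb D ρ N a) = D.pv a := rfl
@[simp] theorem pm_emb (D : Data F V M) (ρ : M →ₗ[F] M) (N : ℕ) (a : D.Alg) :
    (D.trunc ρ N).pm (emb D ρ N a) = Pi.single 0 (D.pm a) := rfl
@[simp] theorem pc_emb (D : Data F V M) (ρ : M →ₗ[F] M) (N : ℕ) (a : D.Alg) :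
    (D.trunc ρ N).pc (emb D ρ N a) = D.pc a := rfl

theorem emb_mul (D : Data F V M) (ρ : M →ₗ[F] M) (N : ℕ) (a b : D.Alg)
    (h : ρ (D.pm (a * b)) = D.pm (a * b)) :
    emb D ρ N a * emb D ρ N b = emb D ρ N (a * b) := by
  rw [pm_mul] at h
  apply alg_ext
  · simp
  · rw [pm_mul, pm_emb, pm_emb, pm_emb, pv_emb, pv_emb, trunc_mu, trunc_R, trunc_L, pm_mul]
    funext j
    match j with
    | 0 =>
      simp only [Pi.add_apply, ini_zero, step_zero, Pi.single_eq_same]
      rw [← map_add, ← map_add, h]
    | 1 =>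
      simp only [Pi.add_apply, ini_one, step_one, Pi.single_eq_same]
      rw [Pi.single_eq_of_ne (by norm_num : (1 : ℕ) ≠ 0)]
      rw [map_add, map_add] at h
      generalize D.mu (D.pv a) (D.pv b) = x at h ⊢
      generalize D.R (D.pv b) (D.pm a) = y at h ⊢
      generalize D.L (D.pv a) (D.pm b) = z at h ⊢
      have : x - ρ x + (y - ρ y) + (z - ρ z) = (x + y + z) - (ρ x + ρ y + ρ z) := by abel
      rw [this, h, sub_self]
    | j + 2 =>
      simp only [Pi.add_apply, ini_two, step_two]
      rw [Pi.single_eq_of_ne (by omega : j + 1 ≠ 0), Pi.single_eq_of_ne (by omega : j + 1 ≠ 0),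
        Pi.single_eq_of_ne (by omega : j + 2 ≠ 0)]
      simp
  · rw [pc_mul, pc_emb, pc_mul, trunc_gam]
    simp only [pv_emb, pm_emb, psum_single]

/-- The bounding subspaces. -/
noncomputable def Tseq (D : Data F V M) (T : Submodule F M) : ℕ → Submodule F M
  | 0 => T
  | 1 => T ⊔ Submodule.map₂ D.mu ⊤ ⊤ ⊔ Submodule.map₂ D.R ⊤ T ⊔ Submodule.map₂ D.L ⊤ T
  | j + 2 => Submodule.map₂ D.R ⊤ (Tseq D T (j + 1)) ⊔ Submodule.map₂ D.L ⊤ (Tseq D T (j + 1))

theorem Tseq_fg (D : Data F V M) [FiniteDimensional F V] (T : Submodule F M) (hT : T.FG)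
    (j : ℕ) : (Tseq D T j).FG := by
  have hV : (⊤ : Submodule F V).FG := Module.Finite.fg_top
  have h1 : (Tseq D T 1).FG :=
    ((hT.sup (hV.map₂ _ hV)).sup (hV.map₂ _ hT)).sup (hV.map₂ _ hT)
  have h2 : ∀ j, (Tseq D T (j + 1)).FG := by
    intro j
    induction j with
    | zero => exact h1
    | succ j ih => exact (hV.map₂ _ ih).sup (hV.map₂ _ ih)
  cases j with
  | zero => exact hT
  | succ j => exact h2 j

/-- The finite-dimensional subspace. -/
noncomputable def EE (D : Data F V M) (ρ : M →ₗ[F] M) (N : ℕ) (T : Submodule F M) :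
    Submodule F (D.trunc ρ N).Alg where
  carrier := {a | (∀ j, (D.trunc ρ N).pm a j ∈ Tseq D T j) ∧
    ∀ j, N + 2 ≤ j → (D.trunc ρ N).pm a j = 0}
  add_mem' := by
    rintro a b ⟨h1, h2⟩ ⟨h3, h4⟩
    refine ⟨fun j => ?_, fun j hj => ?_⟩
    · rw [map_add, Pi.add_apply]
      exact Submodule.add_mem _ (h1 j) (h3 j)
    · rw [map_add, Pi.add_apply, h2 j hj, h4 j hj, add_zero]
  zero_mem' := by
    refine ⟨fun j => ?_, fun j hj => ?_⟩
    · rw [map_zero, Pi.zero_apply]
      exact Submodule.zero_mem _
    · rw [map_zero, Pi.zero_apply]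
  smul_mem' := by
    rintro t a ⟨h1, h2⟩
    refine ⟨fun j => ?_, fun j hj => ?_⟩
    · rw [map_smul, Pi.smul_apply]
      exact Submodule.smul_mem _ _ (h1 j)
    · rw [map_smul, Pi.smul_apply, h2 j hj, smul_zero]

theorem EE_fd (D : Data F V M) [FiniteDimensional F V] (ρ : M →ₗ[F] M) (N : ℕ)
    (T : Submodule F M) (hT : T.FG) : FiniteDimensional F (EE D ρ N T) := by
  have hfin : ∀ j : Fin (N + 2), Module.Finite F (Tseq D T j) := fun j =>
    Module.Finite.iff_fg.mpr (Tseq_fg D T hT j)
  let Φ : EE D ρ N T →ₗ[F] (V × ((j : Fin (N + 2)) → Tseq D T j)) × F :=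
    { toFun := fun a => (((D.trunc ρ N).pv a.1, fun j => ⟨(D.trunc ρ N).pm a.1 j, a.2.1 j⟩),
        (D.trunc ρ N).pc a.1)
      map_add' := by
        intro a b
        refine Prod.ext (Prod.ext ?_ ?_) ?_
        · simp
        · funext j
          apply Subtype.ext
          simp
        · simp
      map_smul' := by
        intro t a
        refine Prod.ext (Prod.ext ?_ ?_) ?_
        · simp
        · funext j
          apply Subtype.ext
          simp
        · simp }
  have hinj : Function.Injective Φ := by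
    intro a b hab
    have e1 : (D.trunc ρ N).pv a.1 = (D.trunc ρ N).pv b.1 :=
      congrArg (fun x => x.1.1) hab
    have e3 : (D.trunc ρ N).pc a.1 = (D.trunc ρ N).pc b.1 :=
      congrArg (fun x => x.2) hab
    have e2 : ∀ j : Fin (N + 2), (D.trunc ρ N).pm a.1 j = (D.trunc ρ N).pm b.1 j := by
      intro j
      have := congrArg (fun x => ((x.1.2 j : Tseq D T j) : M)) hab
      exact this
    apply Subtype.ext
    apply alg_ext e1 _ e3
    funext j
    by_cases hj : j < N + 2
    · exact e2 ⟨j, hj⟩
    · rw [a.2.2 j (by omega), b.2.2 j (by omega)]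
  exact Module.Finite.of_injective Φ hinj

theorem EE_mul (D : Data F V M) (ρ : M →ₗ[F] M) (N : ℕ) (T : Submodule F M)
    (hρ : ∀ m, ρ m ∈ T) (a b : (D.trunc ρ N).Alg) (ha : a ∈ EE D ρ N T) (hb : b ∈ EE D ρ N T) :
    a * b ∈ EE D ρ N T := by
  obtain ⟨ha1, ha2⟩ := ha
  obtain ⟨hb1, hb2⟩ := hb
  refine ⟨fun j => ?_, fun j hj => ?_⟩
  · rw [pm_mul, trunc_mu, trunc_R, trunc_L]
    simp only [Pi.add_apply]
    match j with
    | 0 =>
      simp only [ini_zero, step_zero]
      exact Submodule.add_mem _ (Submodule.add_mem _ (hρ _) (hρ _)) (hρ _)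
    | 1 =>
      simp only [ini_one, step_one]
      have hT : T ≤ Tseq D T 1 := by
        unfold Tseq
        exact le_sup_left.trans (le_sup_left.trans le_sup_left)
      have h0a : (D.trunc ρ N).pm a 0 ∈ T := ha1 0
      have h0b : (D.trunc ρ N).pm b 0 ∈ T := hb1 0
      refine Submodule.add_mem _ (Submodule.add_mem _ ?_ ?_) ?_
      · refine Submodule.sub_mem _ ?_ (hT (hρ _))
        have hle : Submodule.map₂ D.mu ⊤ ⊤ ≤ Tseq D T 1 := by
          unfold Tseq
          exact le_sup_right.trans (le_sup_left.trans le_sup_left)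
        exact hle (Submodule.apply_mem_map₂ _ Submodule.mem_top Submodule.mem_top)
      · refine Submodule.sub_mem _ ?_ (hT (hρ _))
        have hle : Submodule.map₂ D.R ⊤ T ≤ Tseq D T 1 := by
          unfold Tseq
          exact le_sup_right.trans le_sup_left
        exact hle (Submodule.apply_mem_map₂ _ Submodule.mem_top h0a)
      · refine Submodule.sub_mem _ ?_ (hT (hρ _))
        have hle : Submodule.map₂ D.L ⊤ T ≤ Tseq D T 1 := by
          unfold Tseq
          exact le_sup_right
        exact hle (Submodule.apply_mem_map₂ _ Submodule.mem_top h0b)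
    | j + 2 =>
      simp only [ini_two, step_two, zero_add]
      have e : Tseq D T (j + 2) = Submodule.map₂ D.R ⊤ (Tseq D T (j + 1)) ⊔
        Submodule.map₂ D.L ⊤ (Tseq D T (j + 1)) := rfl
      rw [e]
      refine Submodule.add_mem _ ?_ ?_
      · split_ifs
        · exact Submodule.mem_sup_left
            (Submodule.apply_mem_map₂ _ Submodule.mem_top (ha1 (j + 1)))
        · exact Submodule.zero_mem _
      · split_ifs
        · exact Submodule.mem_sup_right
            (Submodule.apply_mem_map₂ _ Submodule.mem_top (hb1 (j + 1)))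
        · exact Submodule.zero_mem _
  · rw [pm_mul, trunc_mu, trunc_R, trunc_L]
    obtain ⟨i, rfl⟩ : ∃ i, j = i + 2 := ⟨j - 2, by omega⟩
    simp only [Pi.add_apply, ini_two, step_two]
    rw [if_neg (by omega), if_neg (by omega)]
    simp

end emb

end Words

open Words Data

/-- Task H: replacing three-layer data by truncated data, keeping the values of finitely many
polynomials; the values of all polynomials stay in a finite-dimensional subspace. -/
theorem exists_fd {F : Type u} {V : Type v} {M : Type w} [Field F] [AddCommGroup V] [Module F V]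
    [AddCommGroup M] [Module F M] (D : Data F V M) [FiniteDimensional F V] (Z : ℕ → Set ℕ)
    (hZ : ∀ n, (Z n).Finite) (hD : D.Star Z) {n : ℕ} (c : Fin n → D.Alg)
    (Q : Set (Free F (Fin n))) (hQ : Q.Finite) :
    ∃ (D' : Data F V (ℕ → M)) (c' : Fin n → D'.Alg) (E : Submodule F D'.Alg),
      D'.Star Z ∧ FiniteDimensional F E ∧ (∀ q, lift F c' q ∈ E) ∧
      ∀ q ∈ Q, (lift F c q = 0 → lift F c' q = 0) ∧
        D'.pc (lift F c' q) = D.pc (lift F c q) := by
  -- the bound of the lengths
  obtain ⟨d, hd1, hd⟩ : ∃ d, 1 ≤ d ∧ ∀ q ∈ Q, ∀ w ∈ q.coeff.support, w.length ≤ d := by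
    have hfin : (⋃ q ∈ Q, (FreeMagma.length '' (q.coeff.support : Set (FreeMagma (Fin n))))).Finite :=
      hQ.biUnion fun q _ => (Finset.finite_toSet _).image _
    obtain ⟨d, hd⟩ := hfin.bddAbove
    refine ⟨max d 1, le_max_right _ _, fun q hq w hw => le_trans (hd ?_) (le_max_left _ _)⟩
    simp only [Set.mem_iUnion]
    exact ⟨q, hq, w, hw, rfl⟩
  -- the finite-dimensional space of values
  let T : Submodule F M := Submodule.span F
    ((fun w : FreeMagma (Fin n) => D.pm (FreeMagma.lift c w)) '' {w | w.length ≤ d})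
  have hTfg : T.FG := Submodule.fg_span ((finite_words d).image _)
  have hTmem : ∀ w : FreeMagma (Fin n), w.length ≤ d → D.pm (FreeMagma.lift c w) ∈ T :=
    fun w hw => Submodule.subset_span ⟨w, hw, rfl⟩
  obtain ⟨ρ, hρ1, hρ2⟩ := exists_proj T
  -- the truncation
  obtain ⟨N, hN1, hN2⟩ : ∃ N, Module.finrank F V ≤ N ∧
      ∀ n' < Module.finrank F V, ∀ i ∈ Z n', i + 1 ≤ N := by
    have hfin : (⋃ n' ∈ Finset.range (Module.finrank F V), Z n').Finite :=
      Set.Finite.biUnion (Finset.finite_toSet _) fun n' _ => hZ n'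
    obtain ⟨b, hb⟩ := hfin.bddAbove
    refine ⟨max (b + 1) (Module.finrank F V), le_max_right _ _, fun n' hn' i hi => ?_⟩
    have : i ≤ b := hb (by
      simp only [Set.mem_iUnion]
      exact ⟨n', Finset.mem_range.mpr hn', hi⟩)
    exact le_trans (by omega) (le_max_left _ _)
  let D' := D.trunc ρ N
  let c' : Fin n → D'.Alg := fun i => emb D ρ N (c i)
  have hword : ∀ w : FreeMagma (Fin n), w.length ≤ d →
      FreeMagma.lift c' w = emb D ρ N (FreeMagma.lift c w) := by
    intro w
    induction w with
    | ih1 i => intro _; rfl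
    | ih2 x y ihx ihy =>
      intro hw
      have h1 : (x * y).length = x.length + y.length := rfl
      have hx := x.length_pos
      have hy := y.length_pos
      have e1 : FreeMagma.lift c' (x * y) =
        FreeMagma.lift c' x * FreeMagma.lift c' y := rfl
      have e2 : FreeMagma.lift c (x * y) =
        FreeMagma.lift c x * FreeMagma.lift c y := rfl
      rw [e1, ihx (by omega), ihy (by omega), e2]
      apply emb_mul
      rw [← e2]
      exact hρ2 _ (hTmem _ hw)
  have hval : ∀ q ∈ Q, lift F c' q = emb D ρ N (lift F c q) := by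
    intro q hq
    rw [lift_eq_sum, lift_eq_sum, Finsupp.sum, Finsupp.sum, map_sum]
    apply Finset.sum_congr rfl
    intro w hw
    rw [map_smul, hword w (hd q hq w hw)]
  refine ⟨D', c', EE D ρ N T, star_trunc D Z hD ρ N hN1 hN2, EE_fd D ρ N T hTfg, ?_, ?_⟩
  · intro q
    rw [lift_eq_sum, Finsupp.sum]
    apply Submodule.sum_mem
    intro w hw
    apply Submodule.smul_mem
    clear hw hval hword
    induction w with
    | ih1 i =>
      refine ⟨fun j => ?_, fun j hj => ?_⟩
      · show (Pi.single 0 (D.pm (c i)) : ℕ → M) j ∈ _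
        by_cases hj : j = 0
        · subst hj
          rw [Pi.single_eq_same]
          exact hTmem (FreeMagma.of i) hd1
        · rw [Pi.single_eq_of_ne hj]
          exact Submodule.zero_mem _
      · show (Pi.single 0 (D.pm (c i)) : ℕ → M) j = 0
        rw [Pi.single_eq_of_ne (by omega)]
    | ih2 x y ihx ihy =>
      have e1 : FreeMagma.lift c' (x * y) =
        FreeMagma.lift c' x * FreeMagma.lift c' y := rfl
      rw [e1]
      exact EE_mul D ρ N T hρ1 _ _ ihx ihy
  · intro q hq
    refine ⟨fun h0 => ?_, ?_⟩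
    · rw [hval q hq, h0, map_zero]
    · rw [hval q hq, pc_emb]

end H91RFD
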