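import Pool.Agent.H91R2.RFD.Basic2
import Pool.Agent.H91R2.RFD.Collapse
import Pool.Agent.H91R2.RFD.Binf
import Pool.Agent.H91R2.RFD.StarVar
import Pool.Agent.H91R2.RFD.LemB
import Pool.Agent.H91R2.RFD.Words
import Pool.Agent.H91R2.RFD.Cont
import Pool.Agent.H91R2.RFD.Code
import Pool.Agent.H91R2.RFD.Upper2
import Pool.Agent.H91R2.RFD.NotSigma

open FreeNonUnitalNonAssocAlgebra

namespace H91RFD

universe u v w

theorem Altval_congr {A : Type v} [NonUnitalNonAssocRing A] (n : ℕ) (w₁ w₂ : A) {z z' : ℕ → A}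
    (h : ∀ j ≤ n, z j = z' j) : Altval n w₁ w₂ z = Altval n w₁ w₂ z' := by
  unfold Altval
  apply Finset.sum_congr rfl
  intro σ _
  congr 2
  congr 1
  funext i
  exact h _ (by have := (σ i).2; omega)

/-- An algebra presented in the variety of `S` belongs to it. -/
theorem inVar_of_ker {F : Type u} [Field F] {S : Set (Poly F)} {A : Type v}
    [NonUnitalNonAssocRing A] [Module F A] [IsScalarTower F A A] [SMulCommClass F A A]
    {n : ℕ} {R : Set (Free F (Fin n))} {s : Fin n → A}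
    (hsurj : Function.Surjective (lift F s))
    (hker : ∀ q, lift F s q = 0 ↔ q ∈ idealSpan F (R ∪ verbal F S (Fin n))) : InVar F A S := by
  intro p hp v
  choose v' hv' using fun j => hsurj (v j)
  have h1 : lift F v = (lift F s).comp (lift F v') := by
    apply FreeNonUnitalNonAssocAlgebra.hom_ext
    intro j
    simp [hv']
  have h2 : lift F v p = lift F s (lift F v' p) := by rw [h1]; rfl
  rw [h2, hker]
  exact subset_idealSpan _ (Or.inr ⟨p, hp, v', rfl⟩)

theorem not_rfd_Sys (F : Type u) [Field F] (Z : ℕ → Set ℕ) (ℓ : ℕ → Bool)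
    (hℓ : ∀ j, ℓ j = true ∨ ℓ (j + 1) = true) (hZ : ∀ n, ∀ i ∈ Z n, ℓ i = false) (n : ℕ)
    (hlong : ∀ d : ℕ, ∃ c c' : ℕ, Even c ∧ Odd c' ∧
      ∀ l ≤ d, c + 2 * l ∈ Z n ∧ c' + 2 * l ∈ Z n) :
    ¬ RFDVariety F (Sys F Z) := by
  obtain ⟨C, _, _, _, _, hC, x, y, z, hrel, hne⟩ := exists_Binf F Z ℓ hℓ hZ n
  let X0 : Free F (Fin (n + 3)) := FreeNonUnitalNonAssocAlgebra.of F 0
  let Y0 : Free F (Fin (n + 3)) := FreeNonUnitalNonAssocAlgebra.of F 1
  let Z0 : ℕ → Free F (Fin (n + 3)) := fun j =>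
    if h : j + 2 < n + 3 then FreeNonUnitalNonAssocAlgebra.of F ⟨j + 2, h⟩ else 0
  let r : Free F (Fin (n + 3)) := Y0 * Y0 - ((Y0 * Y0) * X0 + X0 * ((Y0 * Y0) * X0))
  let q : Free F (Fin (n + 3)) := (Y0 * Y0) * Altval n Y0 Y0 Z0
  let c : Fin (n + 3) → C := fun i =>
    if (i : ℕ) = 0 then x else if (i : ℕ) = 1 then y else z ((i : ℕ) - 2)
  have hcX : lift F c X0 = x := by simp [X0, c]
  have hcY : lift F c Y0 = y := by simp [Y0, c]
  have hcZ : ∀ j ≤ n, lift F c (Z0 j) = z j := by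
    intro j hj
    have hj' : j + 2 < n + 3 := by omega
    simp only [Z0, hj', dif_pos, lift_of_apply, c]
    simp
  have hcr : lift F c r = 0 := by
    simp only [r, map_sub, map_add, map_mul, hcX, hcY]
    rw [← hrel, sub_self]
  have hcq : lift F c q ≠ 0 := by
    simp only [q, map_mul, map_Altval, hcY]
    rw [Altval_congr n y y hcZ]
    exact hne
  apply not_rfdVariety (S := Sys F Z) (R := {r}) (Set.finite_singleton r) q hC c
    (by intro r' hr'; rw [Set.mem_singleton_iff] at hr'; rw [hr']; exact hcr) hcq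
  intro A _ _ _ _ hA s hs I hI hfin
  have hs0 := hs r rfl
  simp only [q, map_mul, map_Altval]
  apply collapse Z hA n hlong (lift F s X0) (lift F s Y0) (fun j => lift F s (Z0 j)) _ I hI hfin
  simp only [r, map_sub, map_add, map_mul] at hs0
  exact sub_eq_zero.mp hs0

theorem rfd_Sys (F : Type u) [Field F] (Z : ℕ → Set ℕ) (hZ : ∀ n, (Z n).Finite) :
    RFDVariety F (Sys F Z) := by
  intro A _ _ _ _ hfp a ha
  obtain ⟨n, R, s, hR, hs, hker⟩ := hfp
  obtain ⟨qa, rfl⟩ := hs a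
  have hA : InVar F A (Sys F Z) := inVar_of_ker hs hker
  obtain ⟨V, M, _, _, _, _, D, hV, hD, Ψ, hΨ⟩ := exists_data Z hA s hs _ ha
  have hc : ∀ q, lift F (fun i => Ψ (s i)) q = Ψ (lift F s q) := by
    intro q
    have : lift F (fun i => Ψ (s i)) = Ψ.comp (lift F s) := by
      apply FreeNonUnitalNonAssocAlgebra.hom_ext
      intro x
      simp
    rw [this]; rfl
  obtain ⟨D', c', E, hD', hE, hcE, hQ⟩ := exists_fd D Z hZ hD (fun i => Ψ (s i)) (insert qa R)
    (hR.insert qa)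
  apply separate_of_hom hs hker (star_inVar D' Z hD') c' _ E hE hcE qa
  · intro h
    have h1 := (hQ qa (Set.mem_insert _ _)).2
    rw [h, hc] at h1
    exact hΨ (by rw [← h1]; simp)
  · intro r hr
    apply (hQ r (Set.mem_insert_of_mem _ hr)).1
    rw [hc]
    have : lift F s r = 0 := by
      rw [hker]
      exact subset_idealSpan _ (Or.inl hr)
    rw [this, map_zero]

end H91RFD
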