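import Pool.Agent.H91R2.RFD.Basic
import Pool.Agent.H91R2.RFD.Quot

open FreeNonUnitalNonAssocAlgebra

namespace H91RFD

universe u v w

/-- Task L2: reformulation of RFD-varieties with ideals of free algebras. -/
theorem rfdVariety_iff (F : Type u) [Field F] (S : Set (Poly F)) :
    RFDVariety F S ↔ ∀ (n : ℕ) (R : Finset (Free F (Fin n))) (a : Free F (Fin n)),
      a ∈ idealSpan F ((R : Set (Free F (Fin n))) ∪ verbal F S (Fin n)) ∨
      ∃ J : Submodule F (Free F (Fin n)), IsIdeal F J ∧
        FiniteDimensional F (Free F (Fin n) ⧸ J) ∧ (R : Set (Free F (Fin n))) ⊆ J ∧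
        verbal F S (Fin n) ⊆ J ∧ a ∉ J := by
  constructor
  · intro h n R a
    by_cases ha : a ∈ idealSpan F ((R : Set (Free F (Fin n))) ∪ verbal F S (Fin n))
    · exact Or.inl ha
    right
    obtain ⟨A, i1, i2, i3, i4, π, hπ, hker⟩ := exists_quotient
      (idealSpan F ((R : Set (Free F (Fin n))) ∪ verbal F S (Fin n))) (idealSpan_isIdeal _)
    have hlift : lift F (fun i => π (of F i)) = π := lift_comp_of F π
    have hFP : FinPres F S A := by
      refine ⟨n, R, fun i => π (of F i), R.finite_toSet, ?_, ?_⟩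
      · rw [hlift]; exact hπ
      · intro q; rw [hlift]; exact hker q
    have ha0 : π a ≠ 0 := fun h0 => ha ((hker a).1 h0)
    obtain ⟨I, hI, hIf, haI⟩ := h A hFP (π a) ha0
    refine ⟨I.comap (π : Free F (Fin n) →ₗ[F] A), ?_, ?_, ?_, ?_, ?_⟩
    · intro x hx b
      have hx' : π x ∈ I := hx
      constructor
      · change π (x * b) ∈ I
        rw [map_mul]; exact (hI _ hx' _).1
      · change π (b * x) ∈ I
        rw [map_mul]; exact (hI _ hx' _).2
    · have hk : I.comap (π : Free F (Fin n) →ₗ[F] A) =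
          LinearMap.ker (I.mkQ.comp (π : Free F (Fin n) →ₗ[F] A)) := by
        rw [LinearMap.ker_comp, Submodule.ker_mkQ]
      rw [hk]
      exact LinearEquiv.finiteDimensional
        (LinearMap.quotKerEquivRange (I.mkQ.comp (π : Free F (Fin n) →ₗ[F] A))).symm
    · intro r hr
      change π r ∈ I
      rw [(hker r).2 (subset_idealSpan _ (Or.inl hr))]
      exact I.zero_mem
    · intro r hr
      change π r ∈ I
      rw [(hker r).2 (subset_idealSpan _ (Or.inr hr))]
      exact I.zero_mem
    · exact haI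
  · intro h A _ _ _ _ hFP a ha
    obtain ⟨n, R, s, hR, hs, hker⟩ := hFP
    obtain ⟨q, rfl⟩ := hs a
    have hq : q ∉ idealSpan F (R ∪ verbal F S (Fin n)) := fun hq => ha ((hker q).2 hq)
    rcases h n hR.toFinset q with h1 | ⟨J, hJ, hJf, hRJ, hvJ, hqJ⟩
    · rw [Set.Finite.coe_toFinset] at h1
      exact absurd h1 hq
    rw [Set.Finite.coe_toFinset] at hRJ
    have hle : idealSpan F (R ∪ verbal F S (Fin n)) ≤ J :=
      idealSpan_le hJ (Set.union_subset hRJ hvJ)
    refine ⟨J.map (lift F s : Free F (Fin n) →ₗ[F] A), ?_, ?_, ?_⟩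
    · rintro _ ⟨x, hx, rfl⟩ b
      obtain ⟨b', rfl⟩ := hs b
      constructor
      · refine ⟨x * b', (hJ x hx b').1, ?_⟩
        exact map_mul (lift F s) x b'
      · refine ⟨b' * x, (hJ x hx b').2, ?_⟩
        exact map_mul (lift F s) b' x
    · have hsurj : Function.Surjective (Submodule.mapQ J
          (J.map (lift F s : Free F (Fin n) →ₗ[F] A)) (lift F s : Free F (Fin n) →ₗ[F] A)
          (Submodule.le_comap_map _ _)) := by
        intro y
        obtain ⟨a, rfl⟩ := Submodule.mkQ_surjective _ y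
        obtain ⟨b, rfl⟩ := hs a
        exact ⟨Submodule.Quotient.mk b, rfl⟩
      exact Module.Finite.of_surjective _ hsurj
    · rintro ⟨j, hj, hjq⟩
      have hjq' : lift F s j = lift F s q := hjq
      have h0 : lift F s (q - j) = 0 := by rw [map_sub, hjq', sub_self]
      have h1 : q - j ∈ J := hle ((hker _).1 h0)
      apply hqJ
      have := J.add_mem h1 hj
      rwa [sub_add_cancel] at this

end H91RFD
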