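import Pool.Agent.H91R2.RFD.Basic

open FreeNonUnitalNonAssocAlgebra

namespace H91RFD

universe u v w

theorem idealSpan_mono_L3 {F : Type u} [Field F] {A : Type v} [NonUnitalNonAssocRing A]
    [Module F A] {X Y : Set A} (h : X ⊆ Y) : idealSpan F X ≤ idealSpan F Y :=
  idealSpan_le (idealSpan_isIdeal Y) (h.trans (subset_idealSpan Y))

theorem verbal_mono_L3 {F : Type u} [Field F] {X : Type v} {S T : Set (Poly F)} (h : S ⊆ T) :
    verbal F S X ⊆ verbal F T X := by
  rintro q ⟨p, hp, v, rfl⟩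
  exact ⟨p, h hp, v, rfl⟩

/-- Task L3: membership in the ideal uses only finitely many of the identities. -/
theorem exists_finset_idealSpan (F : Type u) [Field F] (S : Set (Poly F)) (n : ℕ)
    (R : Set (Free F (Fin n))) (a : Free F (Fin n))
    (ha : a ∈ idealSpan F (R ∪ verbal F S (Fin n))) :
    ∃ S₀ : Finset (Poly F), (S₀ : Set (Poly F)) ⊆ S ∧
      a ∈ idealSpan F (R ∪ verbal F (S₀ : Set (Poly F)) (Fin n)) := by
  classical
  let K : Submodule F (Free F (Fin n)) :=
    { carrier := {a | ∃ S₀ : Finset (Poly F), (S₀ : Set (Poly F)) ⊆ S ∧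
        a ∈ idealSpan F (R ∪ verbal F (S₀ : Set (Poly F)) (Fin n))}
      zero_mem' := ⟨∅, by simp, Submodule.zero_mem _⟩
      add_mem' := by
        rintro a b ⟨S₁, h₁, ha⟩ ⟨S₂, h₂, hb⟩
        refine ⟨S₁ ∪ S₂, ?_, ?_⟩
        · rw [Finset.coe_union]
          exact Set.union_subset h₁ h₂
        · refine Submodule.add_mem _ (idealSpan_mono_L3 ?_ ha) (idealSpan_mono_L3 ?_ hb)
          · exact Set.union_subset_union_right _ (verbal_mono_L3 (by
              rw [Finset.coe_union]; exact Set.subset_union_left))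
          · exact Set.union_subset_union_right _ (verbal_mono_L3 (by
              rw [Finset.coe_union]; exact Set.subset_union_right))
      smul_mem' := by
        rintro c a ⟨S₁, h₁, ha⟩
        exact ⟨S₁, h₁, Submodule.smul_mem _ c ha⟩ }
  have hK : IsIdeal F K := by
    rintro a ⟨S₁, h₁, ha⟩ b
    exact ⟨⟨S₁, h₁, (idealSpan_isIdeal _ a ha b).1⟩, ⟨S₁, h₁, (idealSpan_isIdeal _ a ha b).2⟩⟩
  have hsub : R ∪ verbal F S (Fin n) ⊆ (K : Set (Free F (Fin n))) := by
    rintro q (hq | ⟨p, hp, v, rfl⟩)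
    · exact ⟨∅, by simp, subset_idealSpan _ (Or.inl hq)⟩
    · exact ⟨{p}, by simpa using hp, subset_idealSpan _ (Or.inr ⟨p, by simp, v, rfl⟩)⟩
  exact idealSpan_le hK hsub ha

end H91RFD
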