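import Pool.Agent.H91R2.RFD.Upper1a
import Pool.Agent.H91R2.RFD.Upper1b
import Pool.Agent.H91R2.RFD.Upper1c

/-!
The three parts of the reduction for the upper bound are in `Upper1a`, `Upper1b`, `Upper1c`.
-/
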