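import Pool.Agent.H91R2.RFD.Basic
import Pool.Agent.H91R2.RFD.Quot

open FreeNonUnitalNonAssocAlgebra

namespace H91RFD

universe u v w

/-- A subspace of the free algebra containing the generators and closed under multiplication is
everything. -/
theorem free_eq_top {F : Type u} [Field F] {Y : Type v} (W : Submodule F (Free F Y))
    (h1 : ∀ y, of F y ∈ W) (h2 : ∀ a ∈ W, ∀ b ∈ W, a * b ∈ W) : W = ⊤ := by
  have hm : ∀ w : FreeMagma Y, MonoidAlgebra.single w (1 : F) ∈ W := by
    intro w
    induction w with
    | ih1 x => exact h1 x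
    | ih2 a b ha hb =>
      have := h2 _ ha _ hb
      rwa [MonoidAlgebra.single_mul_single, one_mul] at this
  rw [eq_top_iff]
  intro x _
  induction x using MonoidAlgebra.induction_linear with
  | zero => exact W.zero_mem
  | add x y hx hy => exact W.add_mem (hx trivial) (hy trivial)
  | single m r =>
    have := W.smul_mem r (hm m)
    rwa [MonoidAlgebra.smul_single, smul_eq_mul, mul_one] at this

/-- Task L1: the ideals of finite codimension of a finitely generated free algebra are finitely
generated. -/
theorem finiteCodim_fg {F : Type u} [Field F] (n : ℕ) (J : Submodule F (Free F (Fin n)))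
    (hJ : IsIdeal F J) (hfin : FiniteDimensional F (Free F (Fin n) ⧸ J)) :
    ∃ G : Finset (Free F (Fin n)), J = idealSpan F (G : Set (Free F (Fin n))) := by
  classical
  obtain ⟨C, hC⟩ := Submodule.exists_isCompl J
  have hCfin : FiniteDimensional F C :=
    LinearEquiv.finiteDimensional (Submodule.quotientEquivOfIsCompl J C hC)
  have hCfg : C.FG := Submodule.fg_iff_finiteDimensional C |>.2 hCfin
  obtain ⟨W, hWdef⟩ : ∃ W : Submodule F (Free F (Fin n)),
      W = C ⊔ Submodule.span F (Set.range (of F)) := ⟨_, rfl⟩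
  have hW : W.FG := by
    rw [hWdef]
    exact hCfg.sup (Submodule.fg_span (Set.finite_range _))
  have hCW : C ≤ W := by rw [hWdef]; exact le_sup_left
  obtain ⟨P, hPdef⟩ : ∃ P : Submodule F (Free F (Fin n)),
      P = W ⊔ Submodule.map₂ (LinearMap.mul F (Free F (Fin n))) W W := ⟨_, rfl⟩
  have hP : P.FG := by
    rw [hPdef]
    exact hW.sup (hW.map₂ _ hW)
  have hWP : W ≤ P := by rw [hPdef]; exact le_sup_left
  have hWWP : ∀ a ∈ W, ∀ b ∈ W, a * b ∈ P := by
    intro a ha b hb
    rw [hPdef]
    exact Submodule.mem_sup_right (Submodule.apply_mem_map₂ (LinearMap.mul F _) ha hb)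
  have hJP : (J ⊓ P).FG := by
    have hPf : FiniteDimensional F P := (Submodule.fg_iff_finiteDimensional P).1 hP
    have : FiniteDimensional F (J ⊓ P : Submodule F (Free F (Fin n))) :=
      Submodule.finiteDimensional_inf_right J P
    exact (Submodule.fg_iff_finiteDimensional _).2 this
  obtain ⟨G, hG⟩ := hJP
  have hI : IsIdeal F (idealSpan F (G : Set (Free F (Fin n)))) := idealSpan_isIdeal _
  have hGI : J ⊓ P ≤ idealSpan F (G : Set (Free F (Fin n))) := by
    rw [← hG]
    exact Submodule.span_le.2 (subset_idealSpan _)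
  have hIJ : idealSpan F (G : Set (Free F (Fin n))) ≤ J := by
    apply idealSpan_le hJ
    intro g hg
    have : g ∈ J ⊓ P := by rw [← hG]; exact Submodule.subset_span hg
    exact this.1
  have htop : W ⊔ idealSpan F (G : Set (Free F (Fin n))) = ⊤ := by
    apply free_eq_top
    · intro y
      apply Submodule.mem_sup_left
      rw [hWdef]
      exact Submodule.mem_sup_right (Submodule.subset_span ⟨y, rfl⟩)
    · intro a ha b hb
      obtain ⟨w, hw, i, hi, rfl⟩ := Submodule.mem_sup.1 ha
      obtain ⟨w', hw', i', hi', rfl⟩ := Submodule.mem_sup.1 hb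
      have h1 : w * w' ∈ W ⊔ idealSpan F (G : Set (Free F (Fin n))) := by
        have hmem : w * w' ∈ J ⊔ C := by rw [hC.sup_eq_top]; trivial
        obtain ⟨j, hj, c, hc, hjc⟩ := Submodule.mem_sup.1 hmem
        have hjP : j ∈ P := by
          have : j = w * w' - c := by rw [← hjc]; abel
          rw [this]
          exact P.sub_mem (hWWP _ hw _ hw') (hWP (hCW hc))
        rw [← hjc]
        exact Submodule.add_mem _ (Submodule.mem_sup_right (hGI ⟨hj, hjP⟩))
          (Submodule.mem_sup_left (hCW hc))
      have h2 : w * i' ∈ idealSpan F (G : Set (Free F (Fin n))) := (hI i' hi' w).2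
      have h3 : i * (w' + i') ∈ idealSpan F (G : Set (Free F (Fin n))) := (hI i hi _).1
      have h4 : (w + i) * (w' + i') = w * w' + (w * i' + i * (w' + i')) := by
        rw [add_mul, mul_add w, add_assoc]
      rw [h4]
      exact Submodule.add_mem _ h1 (Submodule.mem_sup_right (Submodule.add_mem _ h2 h3))
  refine ⟨G, le_antisymm ?_ hIJ⟩
  intro j hj
  have hmem : j ∈ W ⊔ idealSpan F (G : Set (Free F (Fin n))) := by rw [htop]; trivial
  obtain ⟨w, hw, i, hi, hwi⟩ := Submodule.mem_sup.1 hmem
  have hwJ : w ∈ J := by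
    have : w = j - i := by rw [← hwi]; abel
    rw [this]
    exact J.sub_mem hj (hIJ hi)
  rw [← hwi]
  exact Submodule.add_mem _ (hGI ⟨hwJ, hWP hw⟩) hi

end H91RFD
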